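import Pool.Agent.Lib.MP_6e1ed0_an.Calc

/-! Interior gradient estimate from the maximum principle. -/

namespace Pool.Agent.Lib.MP_6e1ed0_an

open Set Filter Topology Laplacian

theorem Has2.neg_arg {g : ℝ → ℝ} {A : ℝ} (hg : Has2 g A) : Has2 (fun t => g (-t)) A := by
  obtain ⟨g', h1, h2⟩ := hg
  have hc : Tendsto (fun t : ℝ => -t) (𝓝 0) (𝓝 0) := by
    simpa using (continuous_neg (G := ℝ)).tendsto 0
  refine ⟨fun t => -g' (-t), ?_, ?_⟩
  · filter_upwards [hc.eventually h1] with t ht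
    have := ht.comp t (hasDerivAt_neg t)
    simpa [Function.comp_def] using this
  · have h3 : HasDerivAt g' A (-0) := by simpa using h2
    have := (h3.comp (0 : ℝ) (hasDerivAt_neg 0)).fun_neg
    simpa [Function.comp_def] using this

theorem L2.refl {W : ℝ × ℝ → ℝ} {q : ℝ × ℝ} {S : ℝ} (h : L2 W (-q.1, q.2) S) :
    L2 (fun x => W (-x.1, x.2)) q S := by
  obtain ⟨A, B, h1, h2, rfl⟩ := h
  refine ⟨A, B, ?_, h2, rfl⟩
  refine h1.neg_arg.congr (Eventually.of_forall fun t => ?_)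
  simp only [neg_add]

theorem brandt_core {W S : ℝ × ℝ → ℝ} {r A B : ℝ} (hr : 0 < r) (hB : 0 < B)
    (hc : ContinuousOn W (Icc (-r) r ×ˢ Icc (-r) r))
    (hL : ∀ q ∈ Icc (-r) r ×ˢ Icc (-r) r, L2 W q (S q))
    (hA : ∀ q ∈ Icc (-r) r ×ˢ Icc (-r) r, |W q| ≤ A)
    (hS : ∀ q ∈ Icc (-r) r ×ˢ Icc (-r) r, |S q| ≤ B) {x : ℝ} (hx : x ∈ Icc 0 r) :
    W (x, 0) - W (-x, 0) ≤ (4 * A / r + 2 * B * r) * x := by
  have hA0 : 0 ≤ A := (abs_nonneg _).trans (hA (0, 0) ⟨⟨by linarith, hr.le⟩, ⟨by linarith, hr.le⟩⟩)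
  set a : ℝ → ℝ := fun t => 2 * A / r ^ 2 * (t * (2 * r - t)) + 2 * B * (t * (r - t)) with ha
  set b : ℝ → ℝ := fun t => 2 * A / r ^ 2 * (t - 0) ^ 2 with hb
  have mem : ∀ q ∈ Icc 0 r ×ˢ Icc (-r) r, q ∈ Icc (-r) r ×ˢ Icc (-r) r ∧
      (-q.1, q.2) ∈ Icc (-r) r ×ˢ Icc (-r) r := by
    rintro ⟨s, t⟩ ⟨⟨h1, h2⟩, h3⟩
    exact ⟨⟨⟨by linarith, h2⟩, h3⟩, ⟨⟨by simpa using h2, by simp only; linarith⟩, h3⟩⟩
  have key := maxp (C := Icc 0 r ×ˢ Icc (-r) r) (D := Ioo 0 r ×ˢ Ioo (-r) r)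
    (isClosed_Icc.prod isClosed_Icc) (isOpen_Ioo.prod isOpen_Ioo)
    (prod_mono Ioo_subset_Icc_self Ioo_subset_Icc_self)
    (w := fun q => a q.1 + b q.2 - (W q - W (-q.1, q.2))) (B := 2 * A) (c := 0) (κ := 2 * B)
    ?_ ?_ ?_ le_rfl (by positivity) (Or.inr (by positivity)) ?_ (x, 0)
    ⟨hx, ⟨by linarith, hr.le⟩⟩
  · simp only [ha, hb] at key
    have h1 : 2 * A / r ^ 2 * (x * (2 * r - x)) ≤ 4 * A / r * x := by
      have : 2 * A / r ^ 2 * (x * (2 * r - x)) = 4 * A / r * x - 2 * A / r ^ 2 * x ^ 2 := by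
        field_simp; ring
      rw [this]
      have : 0 ≤ 2 * A / r ^ 2 * x ^ 2 := by positivity
      linarith
    have h2 : 0 ≤ 2 * B * x ^ 2 := by positivity
    nlinarith
  · refine ContinuousOn.sub (by fun_prop) (ContinuousOn.sub (hc.mono fun q hq => (mem q hq).1) ?_)
    exact hc.comp (f := fun q : ℝ × ℝ => (-q.1, q.2)) (by fun_prop) fun q hq => (mem q hq).2
  · intro q hq
    have h1 := abs_le.1 (hA _ (mem q hq).1)
    have h2 := abs_le.1 (hA _ (mem q hq).2)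
    obtain ⟨⟨h3, h4⟩, h5⟩ := hq
    have h6 : 0 ≤ a q.1 := by
      have : 0 ≤ 2 * r - q.1 := by linarith
      have : 0 ≤ r - q.1 := by linarith
      simp only [ha]; positivity
    have h7 : 0 ≤ b q.2 := by simp only [hb]; positivity
    linarith [h1.2, h2.1]
  · intro q hq hq'
    have h1 := abs_le.1 (hA _ (mem q hq).1)
    have h2 := abs_le.1 (hA _ (mem q hq).2)
    obtain ⟨⟨h3, h4⟩, h5, h5'⟩ := hq
    have h6 : 0 ≤ a q.1 := by
      have : 0 ≤ 2 * r - q.1 := by linarith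
      have : 0 ≤ r - q.1 := by linarith
      simp only [ha]; positivity
    have h7 : 0 ≤ b q.2 := by simp only [hb]; positivity
    by_cases e1 : q.1 = 0
    · have : (-q.1, q.2) = q := by ext <;> simp [e1]
      rw [this]; linarith
    by_cases e2 : q.1 = r
    · have : a q.1 = 2 * A := by simp only [ha, e2]; field_simp; ring
      linarith [h1.2, h2.1]
    have e3 : q.2 ^ 2 = r ^ 2 := by
      by_contra e3
      apply hq'
      refine ⟨⟨lt_of_le_of_ne h3 (Ne.symm e1), lt_of_le_of_ne h4 e2⟩,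
        lt_of_le_of_ne h5 fun h => e3 ?_, lt_of_le_of_ne h5' fun h => e3 ?_⟩
      · rw [← h]; ring
      · rw [h]
    have : b q.2 = 2 * A := by simp only [hb, sub_zero, e3]; field_simp
    linarith [h1.2, h2.1]
  · intro q hq _
    have hq2 := mem q (prod_mono Ioo_subset_Icc_self Ioo_subset_Icc_self hq)
    have d1 : ∀ t, HasDerivAt a (2 * A / r ^ 2 * (2 * r - 2 * t) + 2 * B * (r - 2 * t)) t := by
      intro t
      have := (((hasDerivAt_id' t).fun_mul ((hasDerivAt_id' t).const_sub (2 * r))).const_mul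
        (2 * A / r ^ 2)).fun_add (((hasDerivAt_id' t).fun_mul
          ((hasDerivAt_id' t).const_sub r)).const_mul (2 * B))
      exact this.congr_deriv (by ring)
    have d2 : HasDerivAt (fun t => 2 * A / r ^ 2 * (2 * r - 2 * t) + 2 * B * (r - 2 * t))
        (2 * A / r ^ 2 * (-2) + 2 * B * (-2)) q.1 := by
      have := ((((hasDerivAt_id' q.1).const_mul 2).const_sub (2 * r)).const_mul
        (2 * A / r ^ 2)).fun_add ((((hasDerivAt_id' q.1).const_mul 2).const_sub r).const_mul (2 * B))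
      exact this.congr_deriv (by ring)
    have l1 := L2.fst (q := q) d1 d2
    have l2 := (L2.snd (q := q) (hasDerivAt_sq_sub 0) (hasDerivAt_two_mul_sub 0 _)).const_mul
      (2 * A / r ^ 2)
    refine ⟨_, (l1.add l2).sub ((hL q hq2.1).sub (hL _ hq2.2).refl), ?_⟩
    have h1 := abs_le.1 (hS _ hq2.1)
    have h2 := abs_le.1 (hS _ hq2.2)
    linarith [h1.1, h2.2]

theorem brandt_deriv {W S : ℝ × ℝ → ℝ} {r A B d : ℝ} (hr : 0 < r) (hB : 0 < B)
    (hc : ContinuousOn W (Icc (-r) r ×ˢ Icc (-r) r))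
    (hL : ∀ q ∈ Icc (-r) r ×ˢ Icc (-r) r, L2 W q (S q))
    (hA : ∀ q ∈ Icc (-r) r ×ˢ Icc (-r) r, |W q| ≤ A)
    (hS : ∀ q ∈ Icc (-r) r ×ˢ Icc (-r) r, |S q| ≤ B)
    (hd : HasDerivAt (fun t => W (t, 0)) d 0) : d ≤ 2 * A / r + B * r := by
  have h0 : HasDerivAt (fun t => W (t, 0)) d (-0) := by simpa using hd
  have h1 := hd.fun_sub (h0.comp (0 : ℝ) (hasDerivAt_neg 0))
  have h2 := h1.tendsto_slope_zero_right
  have h3 : d - d * -1 ≤ 4 * A / r + 2 * B * r := by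
    refine le_of_tendsto h2 ?_
    filter_upwards [Ioo_mem_nhdsGT hr] with t ht
    have := brandt_core hr hB hc hL hA hS ⟨ht.1.le, ht.2.le⟩
    simp only [zero_add, Function.comp, neg_zero, sub_self, sub_zero, smul_eq_mul]
    rw [inv_mul_le_iff₀ ht.1]
    linarith
  have : 4 * A / r = 2 * (2 * A / r) := by ring
  linarith

theorem dist_fr_le {p e e' : E2} (he : ‖e‖ = 1) (he' : ‖e'‖ = 1) {r : ℝ} {q : ℝ × ℝ}
    (hq : q ∈ Icc (-r) r ×ˢ Icc (-r) r) : fr p e e' q ∈ Metric.closedBall p (2 * r) := by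
  rw [mem_closedBall_iff_norm]
  have : fr p e e' q - p = q.1 • e + q.2 • e' := by simp only [fr]; abel
  rw [this]
  have h1 : |q.1| ≤ r := abs_le.2 hq.1
  have h2 : |q.2| ≤ r := abs_le.2 hq.2
  calc _ ≤ ‖q.1 • e‖ + ‖q.2 • e'‖ := norm_add_le _ _
    _ = |q.1| + |q.2| := by simp [norm_smul, he, he']
    _ ≤ _ := by linarith

theorem brandt_dir {u : E2 → ℝ} {p e e' : E2} {r A B : ℝ} (hr : 0 < r) (hB : 0 < B)
    (he : ‖e‖ = 1) (he' : ‖e'‖ = 1) (hl : ∀ x, Hs u x e e + Hs u x e' e' = Δ u x)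
    (hu : ∀ x ∈ Metric.closedBall p (2 * r), ContDiffAt ℝ 2 u x ∧ |u x| ≤ A ∧ |Δ u x| ≤ B) :
    fderiv ℝ u p e ≤ 2 * A / r + B * r := by
  refine brandt_deriv (W := fun q => u (fr p e e' q)) (S := fun q => Δ u (fr p e e' q)) hr hB
    ?_ ?_ ?_ ?_ ?_
  · intro q hq
    exact ((hu _ (dist_fr_le he he' hq)).1.continuousAt.comp
      (continuous_fr p e e').continuousAt).continuousWithinAt
  · intro q hq
    exact (L2.pull (hu _ (dist_fr_le he he' hq)).1).of_eq (hl _)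
  · intro q hq; exact (hu _ (dist_fr_le he he' hq)).2.1
  · intro q hq; exact (hu _ (dist_fr_le he he' hq)).2.2
  · have hl : HasDerivAt (fun t : ℝ => p + t • e) e 0 := by
      simpa using ((hasDerivAt_id (0 : ℝ)).smul_const e).const_add p
    have h1 : HasFDerivAt u (fderiv ℝ u p) (p + (0 : ℝ) • e) := by
      simpa using ((hu p (Metric.mem_closedBall_self (by positivity))).1.differentiableAt
        (by simp)).hasFDerivAt
    have := h1.comp_hasDerivAt (0 : ℝ) hl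
    simpa [fr, Function.comp_def] using this

theorem decomp (v : E2) : v = v 0 • ex + v 1 • ey := by
  ext i
  fin_cases i <;> simp

theorem opNorm_le_two {L : E2 →L[ℝ] ℝ} {M : ℝ} (h1 : |L ex| ≤ M) (h2 : |L ey| ≤ M) :
    ‖L‖ ≤ 2 * M := by
  have hM : 0 ≤ M := (abs_nonneg _).trans h1
  refine ContinuousLinearMap.opNorm_le_bound _ (by positivity) fun v => ?_
  have e : L v = v 0 * L ex + v 1 * L ey := by
    conv_lhs => rw [decomp v]
    simp
  have a0 : |v 0| ≤ ‖v‖ := by simpa using PiLp.norm_apply_le v 0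
  have a1 : |v 1| ≤ ‖v‖ := by simpa using PiLp.norm_apply_le v 1
  rw [e, Real.norm_eq_abs]
  calc _ ≤ |v 0 * L ex| + |v 1 * L ey| := abs_add_le _ _
    _ = |v 0| * |L ex| + |v 1| * |L ey| := by rw [abs_mul, abs_mul]
    _ ≤ ‖v‖ * M + ‖v‖ * M := by gcongr
    _ = _ := by ring

/-- The interior gradient estimate. -/
theorem brandt {u : E2 → ℝ} {p : E2} {r A B : ℝ} (hr : 0 < r) (hB : 0 < B)
    (hu : ∀ x ∈ Metric.closedBall p (2 * r), ContDiffAt ℝ 2 u x ∧ |u x| ≤ A ∧ |Δ u x| ≤ B) :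
    ‖fderiv ℝ u p‖ ≤ 2 * (2 * A / r + B * r) := by
  have hs : ∀ x e, Hs u x (-e) (-e) = Hs u x e e := fun x e => by simp [Hs]
  have nx : ‖ex‖ = 1 := by simp
  have ny : ‖ey‖ = 1 := by simp
  refine opNorm_le_two (abs_le.2 ⟨?_, ?_⟩) (abs_le.2 ⟨?_, ?_⟩)
  · have := brandt_dir (e := -ex) (e' := ey) hr hB (by simp) ny
      (fun x => by rw [hs, lap_eq]) hu
    rw [map_neg] at this; linarith
  · exact brandt_dir (e := ex) (e' := ey) hr hB nx ny (fun x => by rw [lap_eq]) hu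
  · have := brandt_dir (e := -ey) (e' := ex) hr hB (by simp) nx
      (fun x => by rw [hs, lap_eq, add_comm]) hu
    rw [map_neg] at this; linarith
  · exact brandt_dir (e := ey) (e' := ex) hr hB ny nx (fun x => by rw [lap_eq, add_comm]) hu

end Pool.Agent.Lib.MP_6e1ed0_an
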