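import Pool.Agent.Lib.MP_6e1ed0_an.Defs

/-! Second derivatives along lines and the maximum principle on the coordinate plane. -/

namespace Pool.Agent.Lib.MP_6e1ed0_an

open Set Filter Topology Laplacian

/-- `g` is differentiable near `0` and its derivative has derivative `A` at `0`. -/
def Has2 (g : ℝ → ℝ) (A : ℝ) : Prop :=
  ∃ g' : ℝ → ℝ, (∀ᶠ t in 𝓝 (0 : ℝ), HasDerivAt g (g' t) t) ∧ HasDerivAt g' A 0

theorem Has2.add {g h : ℝ → ℝ} {A B : ℝ} (hg : Has2 g A) (hh : Has2 h B) :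
    Has2 (fun t => g t + h t) (A + B) := by
  obtain ⟨g', h1, h2⟩ := hg
  obtain ⟨h', h3, h4⟩ := hh
  exact ⟨fun t => g' t + h' t, (h1.and h3).mono fun t ht => ht.1.add ht.2, h2.add h4⟩

theorem Has2.const_mul {g : ℝ → ℝ} {A : ℝ} (c : ℝ) (hg : Has2 g A) :
    Has2 (fun t => c * g t) (c * A) := by
  obtain ⟨g', h1, h2⟩ := hg
  exact ⟨fun t => c * g' t, h1.mono fun t ht => ht.const_mul c, h2.const_mul c⟩

theorem Has2.const (c : ℝ) : Has2 (fun _ => c) 0 :=
  ⟨fun _ => 0, Eventually.of_forall fun t => hasDerivAt_const t c, hasDerivAt_const 0 0⟩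

theorem Has2.unique {g : ℝ → ℝ} {A B : ℝ} (hA : Has2 g A) (hB : Has2 g B) : A = B := by
  obtain ⟨g', h1, h2⟩ := hA
  obtain ⟨h', h3, h4⟩ := hB
  have : g' =ᶠ[𝓝 0] h' := (h1.and h3).mono fun t ht => ht.1.unique ht.2
  exact h2.unique (h4.congr_of_eventuallyEq this)

theorem Has2.congr {g h : ℝ → ℝ} {A : ℝ} (hg : Has2 g A) (e : h =ᶠ[𝓝 0] g) : Has2 h A := by
  obtain ⟨g', h1, h2⟩ := hg
  exact ⟨g', (h1.and e.eventually_nhds).mono fun t ht => ht.1.congr_of_eventuallyEq ht.2, h2⟩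

theorem Has2.nonneg_of_isLocalMin {g : ℝ → ℝ} {A : ℝ} (hg : Has2 g A) (hm : IsLocalMin g 0) :
    0 ≤ A := by
  by_contra hA
  push Not at hA
  obtain ⟨g', h1, h2⟩ := hg
  have h0 : g' 0 = 0 := hm.hasDerivAt_eq_zero h1.self_of_nhds
  -- add a small parabola
  set k : ℝ → ℝ := fun t => g t + (-A / 4) * t ^ 2 with hk
  have hk1 : ∀ᶠ t in 𝓝 (0 : ℝ), HasDerivAt k (g' t + (-A / 4) * (2 * t)) t := by
    filter_upwards [h1] with t ht
    have := ht.add (((hasDerivAt_id t).pow 2).const_mul (-A / 4))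
    simpa [hk, Pi.add_def] using this
  have hd : deriv k =ᶠ[𝓝 0] fun t => g' t + (-A / 4) * (2 * t) := hk1.mono fun t ht => ht.deriv
  have hd2 : deriv (deriv k) 0 = A + (-A / 4) * 2 := by
    rw [hd.deriv_eq]
    have := h2.add (((hasDerivAt_id (0 : ℝ)).const_mul 2).const_mul (-A / 4))
    have h5 := this.deriv
    simpa [Pi.add_def] using h5
  have hmax : IsLocalMax k 0 := by
    apply isLocalMax_of_deriv_deriv_neg
    · rw [hd2]; linarith
    · rw [hd.eq_of_nhds]; simp [h0]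
    · exact hk1.self_of_nhds.continuousAt
  have : ∀ᶠ t in 𝓝[≠] (0 : ℝ), False := by
    filter_upwards [nhdsWithin_le_nhds hmax, nhdsWithin_le_nhds hm, self_mem_nhdsWithin]
      with t h3 h4 h5
    have h6 : t ≠ 0 := h5
    have h7 : 0 < t ^ 2 := by positivity
    simp only [hk] at h3
    nlinarith
  exact this.exists.elim fun _ h => h

/-- A function with derivative `a'` everywhere and second derivative `A` at `x`. -/
theorem has2_shift {a a' : ℝ → ℝ} {x A : ℝ} (h1 : ∀ t, HasDerivAt a (a' t) t)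
    (h2 : HasDerivAt a' A x) : Has2 (fun t => a (x + t)) A := by
  refine ⟨fun t => a' (x + t), Eventually.of_forall fun t => (h1 (x + t)).comp_const_add x t, ?_⟩
  have : HasDerivAt a' A (x + 0) := by simpa using h2
  exact this.comp_const_add x 0

/-- The sum of the two pure second coordinate derivatives of `W` at `q` is `S`. -/
def L2 (W : ℝ × ℝ → ℝ) (q : ℝ × ℝ) (S : ℝ) : Prop :=
  ∃ A B, Has2 (fun t => W (q.1 + t, q.2)) A ∧ Has2 (fun t => W (q.1, q.2 + t)) B ∧ S = A + B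

theorem L2.add {W V : ℝ × ℝ → ℝ} {q : ℝ × ℝ} {S T : ℝ} (h : L2 W q S) (k : L2 V q T) :
    L2 (fun x => W x + V x) q (S + T) := by
  obtain ⟨A, B, h1, h2, rfl⟩ := h
  obtain ⟨C, D, h3, h4, rfl⟩ := k
  exact ⟨A + C, B + D, h1.add h3, h2.add h4, by ring⟩

theorem L2.const_mul {W : ℝ × ℝ → ℝ} {q : ℝ × ℝ} {S : ℝ} (c : ℝ) (h : L2 W q S) :
    L2 (fun x => c * W x) q (c * S) := by
  obtain ⟨A, B, h1, h2, rfl⟩ := h
  exact ⟨c * A, c * B, h1.const_mul c, h2.const_mul c, by ring⟩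

theorem L2.const (c : ℝ) (q : ℝ × ℝ) : L2 (fun _ => c) q 0 :=
  ⟨0, 0, Has2.const c, Has2.const c, by ring⟩

theorem L2.sub {W V : ℝ × ℝ → ℝ} {q : ℝ × ℝ} {S T : ℝ} (h : L2 W q S) (k : L2 V q T) :
    L2 (fun x => W x - V x) q (S - T) := by
  have := h.add (k.const_mul (-1))
  simpa [sub_eq_add_neg] using this

theorem L2.unique {W : ℝ × ℝ → ℝ} {q : ℝ × ℝ} {S T : ℝ} (h : L2 W q S) (k : L2 W q T) :
    S = T := by
  obtain ⟨A, B, h1, h2, rfl⟩ := h
  obtain ⟨C, D, h3, h4, rfl⟩ := k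
  rw [h1.unique h3, h2.unique h4]

theorem L2.of_eq {W : ℝ × ℝ → ℝ} {q : ℝ × ℝ} {S T : ℝ} (h : L2 W q S) (e : S = T) :
    L2 W q T := e ▸ h

theorem L2.swap {W : ℝ × ℝ → ℝ} {q : ℝ × ℝ} {S : ℝ} (h : L2 W (q.2, q.1) S) :
    L2 (fun x => W (x.2, x.1)) q S := by
  obtain ⟨A, B, h1, h2, rfl⟩ := h
  exact ⟨B, A, h2, h1, by ring⟩

theorem L2.prod {a a' b b' : ℝ → ℝ} {q : ℝ × ℝ} {A B : ℝ} (h1 : ∀ t, HasDerivAt a (a' t) t)
    (h2 : HasDerivAt a' A q.1) (h3 : ∀ t, HasDerivAt b (b' t) t) (h4 : HasDerivAt b' B q.2) :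
    L2 (fun x => a x.1 * b x.2) q (A * b q.2 + a q.1 * B) := by
  refine ⟨b q.2 * A, a q.1 * B, ?_, (has2_shift h3 h4).const_mul (a q.1), by ring⟩
  have := (has2_shift h1 h2).const_mul (b q.2)
  simpa [mul_comm] using this

theorem L2.fst {a a' : ℝ → ℝ} {q : ℝ × ℝ} {A : ℝ} (h1 : ∀ t, HasDerivAt a (a' t) t)
    (h2 : HasDerivAt a' A q.1) : L2 (fun x => a x.1) q A :=
  ⟨A, 0, has2_shift h1 h2, Has2.const (a q.1), by ring⟩

theorem L2.snd {a a' : ℝ → ℝ} {q : ℝ × ℝ} {A : ℝ} (h1 : ∀ t, HasDerivAt a (a' t) t)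
    (h2 : HasDerivAt a' A q.2) : L2 (fun x => a x.2) q A :=
  ⟨0, A, Has2.const (a q.2), has2_shift h1 h2, by ring⟩

theorem hasDerivAt_sq_sub (c t : ℝ) : HasDerivAt (fun t => (t - c) ^ 2) (2 * (t - c)) t := by
  have := ((hasDerivAt_id t).sub_const c).fun_pow 2
  simpa using this

theorem hasDerivAt_two_mul_sub (c t : ℝ) : HasDerivAt (fun t => 2 * (t - c)) 2 t := by
  simpa using ((hasDerivAt_id t).sub_const c).const_mul 2

theorem L2.sq (c d : ℝ) (q : ℝ × ℝ) : L2 (fun x => (x.1 - c) ^ 2 + (x.2 - d) ^ 2) q 4 := by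
  have h1 := L2.fst (q := q) (hasDerivAt_sq_sub c) (hasDerivAt_two_mul_sub c _)
  have h2 := L2.snd (q := q) (hasDerivAt_sq_sub d) (hasDerivAt_two_mul_sub d _)
  exact (h1.add h2).of_eq (by norm_num)

theorem L2.nonneg_of_isLocalMin {W : ℝ × ℝ → ℝ} {q : ℝ × ℝ} {S : ℝ} (h : L2 W q S)
    (hm : IsLocalMin W q) : 0 ≤ S := by
  obtain ⟨A, B, h1, h2, rfl⟩ := h
  have c1 : Continuous fun t : ℝ => (q.1 + t, q.2) := by fun_prop
  have c2 : Continuous fun t : ℝ => (q.1, q.2 + t) := by fun_prop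
  have m1 : IsLocalMin (fun t => W (q.1 + t, q.2)) 0 := by
    have : IsLocalMin W ((fun t : ℝ => (q.1 + t, q.2)) 0) := by simpa using hm
    exact IsLocalMin.comp_continuous (g := fun t : ℝ => (q.1 + t, q.2)) this c1.continuousAt
  have m2 : IsLocalMin (fun t => W (q.1, q.2 + t)) 0 := by
    have : IsLocalMin W ((fun t : ℝ => (q.1, q.2 + t)) 0) := by simpa using hm
    exact IsLocalMin.comp_continuous (g := fun t : ℝ => (q.1, q.2 + t)) this c2.continuousAt
  exact add_nonneg (h1.nonneg_of_isLocalMin m1) (h2.nonneg_of_isLocalMin m2)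

/-- The maximum principle for functions bounded below. -/
theorem maxp {C D : Set (ℝ × ℝ)} (hC : IsClosed C) (hD : IsOpen D) (hDC : D ⊆ C)
    {w : ℝ × ℝ → ℝ} (hw : ContinuousOn w C) {B : ℝ} (hB : ∀ q ∈ C, -B ≤ w q)
    (hb : ∀ q ∈ C, q ∉ D → 0 ≤ w q) {c κ : ℝ} (hc : 0 ≤ c) (hκ : 0 ≤ κ) (hp : 0 < c ∨ 0 < κ)
    (hi : ∀ q ∈ D, w q < 0 → ∃ S, L2 w q S ∧ S ≤ c * w q - κ) : ∀ q ∈ C, 0 ≤ w q := by
  intro q0 hq0
  by_contra hneg
  push Not at hneg
  set N : ℝ × ℝ → ℝ := fun x => (x.1 - 0) ^ 2 + (x.2 - 0) ^ 2 with hN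
  have hN0 : ∀ x, 0 ≤ N x := fun x => by positivity
  have hneg2 : c * w q0 - κ < 0 := by
    rcases hp with h | h
    · nlinarith
    · nlinarith
  -- choose the size of the perturbation
  obtain ⟨η, hη, h1, h2⟩ : ∃ η > 0, w q0 + η * N q0 < 0 ∧
      c * w q0 - κ + η * (c * N q0 + 4) < 0 := by
    have t1 : Tendsto (fun η : ℝ => w q0 + η * N q0) (𝓝[>] 0) (𝓝 (w q0 + 0 * N q0)) :=
      tendsto_nhdsWithin_of_tendsto_nhds (Continuous.tendsto (by fun_prop) 0)
    have t2 : Tendsto (fun η : ℝ => c * w q0 - κ + η * (c * N q0 + 4)) (𝓝[>] 0)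
        (𝓝 (c * w q0 - κ + 0 * (c * N q0 + 4))) :=
      tendsto_nhdsWithin_of_tendsto_nhds (Continuous.tendsto (by fun_prop) 0)
    have e1 := t1.eventually (gt_mem_nhds (by simpa using hneg : w q0 + 0 * N q0 < 0))
    have e2 := t2.eventually
      (gt_mem_nhds (by simpa using hneg2 : c * w q0 - κ + 0 * (c * N q0 + 4) < 0))
    obtain ⟨η, h⟩ := (e1.and (e2.and self_mem_nhdsWithin)).exists
    exact ⟨η, h.2.2, h.1, h.2.1⟩
  set v : ℝ × ℝ → ℝ := fun x => w x + η * N x with hv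
  have hvc : ContinuousOn v C := hw.add (by fun_prop)
  obtain ⟨R, hR⟩ : ∃ R : ℝ, 0 < R ∧ ‖q0‖ ≤ R ∧ B ≤ η * R ^ 2 := by
    refine ⟨‖q0‖ + |B| / η + 1, by positivity, by have : 0 ≤ |B| / η := by positivity
                                                  linarith, ?_⟩
    have h3 : 0 ≤ |B| / η := by positivity
    have h4 : |B| / η + 1 ≤ ‖q0‖ + |B| / η + 1 := by linarith [norm_nonneg q0]
    have h5 : |B| / η ≤ (‖q0‖ + |B| / η + 1) ^ 2 := by nlinarith [norm_nonneg q0]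
    calc B ≤ |B| := le_abs_self B
      _ = η * (|B| / η) := by field_simp
      _ ≤ _ := by gcongr
  have hK : IsCompact (C ∩ Metric.closedBall 0 R) :=
    (isCompact_closedBall (0 : ℝ × ℝ) R).inter_left hC
  have hq0K : q0 ∈ C ∩ Metric.closedBall 0 R := ⟨hq0, by simpa using hR.2.1⟩
  obtain ⟨q1, hq1, hmin⟩ := hK.exists_isMinOn ⟨q0, hq0K⟩ (hvc.mono inter_subset_left)
  have hle : v q1 ≤ v q0 := hmin hq0K
  have hglob : ∀ q ∈ C, v q1 ≤ v q := by
    intro q hq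
    by_cases hqR : q ∈ Metric.closedBall (0 : ℝ × ℝ) R
    · exact hmin ⟨hq, hqR⟩
    · have h3 : R < ‖q‖ := by simpa using hqR
      have h4 : R ^ 2 ≤ N q := by
        have h5 : ‖q‖ ^ 2 ≤ N q := by
          rw [Prod.norm_def]
          rcases le_total ‖q.1‖ ‖q.2‖ with h | h
          · rw [max_eq_right h, Real.norm_eq_abs, sq_abs]; simp only [hN]; nlinarith [sq_nonneg q.1]
          · rw [max_eq_left h, Real.norm_eq_abs, sq_abs]; simp only [hN]; nlinarith [sq_nonneg q.2]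
        nlinarith [hR.1]
      have h6 := hB q hq
      have h7 : η * R ^ 2 ≤ η * N q := by gcongr
      simp only [hv] at hle ⊢
      linarith [hR.2.2]
  have hv1 : v q1 < 0 := lt_of_le_of_lt hle h1
  have hw1 : w q1 ≤ v q1 := by
    have := mul_nonneg hη.le (hN0 q1)
    simp only [hv]; linarith
  have hq1D : q1 ∈ D := by
    by_contra h
    have := hb q1 hq1.1 h
    linarith
  obtain ⟨S, hS, hS2⟩ := hi q1 hq1D (by linarith)
  have hlm : IsLocalMin v q1 := by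
    filter_upwards [hD.mem_nhds hq1D] with q hq using hglob q (hDC hq)
  have h8 := (hS.add ((L2.sq 0 0 q1).const_mul η)).nonneg_of_isLocalMin hlm
  have h9 : c * w q1 ≤ c * v q0 := mul_le_mul_of_nonneg_left (hw1.trans hle) hc
  simp only [hv] at h9
  nlinarith

/-- Second derivative of `u` at `p`. -/
noncomputable def Hs (u : E2 → ℝ) (p e e' : E2) : ℝ := fderiv ℝ (fderiv ℝ u) p e e'

theorem has2_line {u : E2 → ℝ} {p : E2} (hu : ContDiffAt ℝ 2 u p) (e : E2) :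
    Has2 (fun t => u (p + t • e)) (Hs u p e e) := by
  have hl : ∀ t : ℝ, HasDerivAt (fun t : ℝ => p + t • e) e t := fun t => by
    simpa using ((hasDerivAt_id t).smul_const e).const_add p
  have hc : Tendsto (fun t : ℝ => p + t • e) (𝓝 0) (𝓝 p) := by
    have : Continuous fun t : ℝ => p + t • e := by fun_prop
    simpa using this.tendsto 0
  have h1 : ∀ᶠ x in 𝓝 p, ContDiffAt ℝ 2 u x := hu.eventually (by simp)
  refine ⟨fun t => fderiv ℝ u (p + t • e) e, ?_, ?_⟩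
  · filter_upwards [hc.eventually h1] with t ht
    exact (ht.differentiableAt (by simp)).hasFDerivAt.comp_hasDerivAt t (hl t)
  · have h2 : DifferentiableAt ℝ (fderiv ℝ u) p :=
      (hu.fderiv_right (m := 1) (by norm_num)).differentiableAt (by simp)
    have h3 : HasFDerivAt (fderiv ℝ u) (fderiv ℝ (fderiv ℝ u) p) (p + (0 : ℝ) • e) := by
      simpa using h2.hasFDerivAt
    have h4 := h3.comp_hasDerivAt (0 : ℝ) (hl 0)
    have h5 := h4.clm_apply (hasDerivAt_const (0 : ℝ) e)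
    simpa [Hs] using h5

/-- The two unit vectors. -/
noncomputable abbrev ex : E2 := EuclideanSpace.single 0 1
noncomputable abbrev ey : E2 := EuclideanSpace.single 1 1

theorem lap_eq (u : E2 → ℝ) (p : E2) : Δ u p = Hs u p ex ex + Hs u p ey ey := by
  rw [InnerProductSpace.laplacian_eq_iteratedFDeriv_orthonormalBasis u
    (EuclideanSpace.basisFun (Fin 2) ℝ)]
  simp [iteratedFDeriv_two_apply, Hs]

/-- The affine frame with origin `p` and vectors `e`, `e'`. -/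
noncomputable def fr (p e e' : E2) (q : ℝ × ℝ) : E2 := p + q.1 • e + q.2 • e'

theorem continuous_fr (p e e' : E2) : Continuous (fr p e e') := by
  unfold fr; fun_prop

theorem L2.pull {u : E2 → ℝ} {p e e' : E2} {q : ℝ × ℝ} (hu : ContDiffAt ℝ 2 u (fr p e e' q)) :
    L2 (fun x => u (fr p e e' x)) q
      (Hs u (fr p e e' q) e e + Hs u (fr p e e' q) e' e') := by
  refine ⟨_, _, ?_, ?_, rfl⟩
  · have := has2_line hu e
    refine this.congr (Eventually.of_forall fun t => ?_)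
    simp only [fr, add_smul]
    congr 1; abel
  · have := has2_line hu e'
    refine this.congr (Eventually.of_forall fun t => ?_)
    simp only [fr, add_smul]
    congr 1; abel

/-- Standard coordinates centred at `p`. -/
theorem L2.std {u : E2 → ℝ} {p : E2} {q : ℝ × ℝ} (hu : ContDiffAt ℝ 2 u (fr p ex ey q)) :
    L2 (fun x => u (fr p ex ey x)) q (Δ u (fr p ex ey q)) := by
  rw [lap_eq]; exact L2.pull hu

/-- The vectors of the rotated frame. -/
noncomputable def ea : E2 := (1 / 2 : ℝ) • (ex + ey)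
noncomputable def eb : E2 := (1 / 2 : ℝ) • (ey - ex)

/-- Rotated coordinates `a = x + y`, `b = y - x`. -/
noncomputable def rot : ℝ × ℝ → E2 := fr 0 ea eb

theorem continuous_rot : Continuous rot := continuous_fr _ _ _

theorem rot_zero (q : ℝ × ℝ) : rot q 0 = (q.1 - q.2) / 2 := by
  simp [rot, fr, ea, eb]; ring

theorem rot_one (q : ℝ × ℝ) : rot q 1 = (q.1 + q.2) / 2 := by
  simp [rot, fr, ea, eb]; ring

theorem rot_inv (p : E2) : rot (p 0 + p 1, p 1 - p 0) = p := by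
  ext i
  fin_cases i
  · simp [rot_zero]; ring
  · simp [rot_one]; ring

theorem L2.rot {u : E2 → ℝ} {q : ℝ × ℝ} (hu : ContDiffAt ℝ 2 u (rot q)) :
    L2 (fun x => u (rot x)) q (Δ u (rot q) / 2) := by
  refine (L2.pull hu).of_eq ?_
  rw [lap_eq]
  simp only [Hs, ea, eb, map_smul, map_add, map_sub, _root_.smul_apply,
    _root_.add_apply, _root_.sub_apply, smul_eq_mul,
    MP_6e1ed0_an.rot]
  ring

theorem fr_std_zero (p : E2) (q : ℝ × ℝ) : fr p ex ey q 0 = p 0 + q.1 := by simp [fr]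
theorem fr_std_one (p : E2) (q : ℝ × ℝ) : fr p ex ey q 1 = p 1 + q.2 := by simp [fr]

theorem fr_std_inv (p : E2) : fr 0 ex ey (p 0, p 1) = p := by
  ext i
  fin_cases i
  · simp [fr]
  · simp [fr]

end Pool.Agent.Lib.MP_6e1ed0_an
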