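import Pool.Agent.Lib.MP_6e1ed0_an.Prof

/-! A logarithmic cut-off built from dyadic bumps. -/

namespace Pool.Agent.Lib.MP_6e1ed0_an

open Set Filter Topology MeasureTheory Real

theorem abs_pf'_le (t : ℝ) : |pf' 1 t| ≤ 2 := by
  unfold pf'
  have a := jm_nonneg t
  have b := abs_cos_le_one (min (π / (2 * 1) * jm t) (π / 2))
  have c : |π / (2 * 1) * jm' t| ≤ 2 := by
    rw [abs_of_nonneg (mul_nonneg (by positivity) a.2.1)]
    nlinarith [pi_lt_four, pi_pos, a.2.1, a.2.2]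
  rw [abs_neg, abs_mul]
  nlinarith [abs_nonneg (cos (min (π / (2 * 1) * jm t) (π / 2))), abs_nonneg (π / (2 * 1) * jm' t)]

/-- The bump at scale `R` and its derivative. -/
noncomputable def et (R t : ℝ) : ℝ := pf 1 (t / R) * pf 1 (-(t / R))
noncomputable def et' (R t : ℝ) : ℝ :=
  (pf' 1 (t / R) * pf 1 (-(t / R)) - pf 1 (t / R) * pf' 1 (-(t / R))) / R

theorem hasDerivAt_et (R t : ℝ) : HasDerivAt (et R) (et' R t) t := by
  have h := (hasDerivAt_id' t).div_const R
  have := ((hasDerivAt_pf 1 (t / R)).comp t h).fun_mul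
    ((hasDerivAt_pf 1 (-(t / R))).comp t h.fun_neg)
  refine HasDerivAt.congr_deriv this ?_
  simp only [Function.comp, et']; ring

theorem continuous_et (R : ℝ) : Continuous (et R) := by
  have := continuous_pf 1
  unfold et; fun_prop

theorem continuous_et' (R : ℝ) : Continuous (et' R) := by
  have := continuous_pf 1
  have := continuous_pf' 1
  unfold et'; fun_prop

theorem et_mem (R t : ℝ) : 0 ≤ et R t ∧ et R t ≤ 1 :=
  ⟨mul_nonneg (pf_mem one_pos _).1 (pf_mem one_pos _).1,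
    mul_le_one₀ (pf_mem one_pos _).2 (pf_mem one_pos _).1 (pf_mem one_pos _).2⟩

variable {R t : ℝ}

theorem et_low (hR : 0 < R) (h : |t| ≤ R) : et R t = 1 ∧ et' R t = 0 := by
  have h1 : t / R ≤ 1 := by rw [div_le_one hR]; exact (le_abs_self t).trans h
  have h2 : -(t / R) ≤ 1 := by
    rw [← neg_div, div_le_one hR]; exact (neg_le_abs t).trans h
  unfold et et'
  rw [(pf_low h1).1, (pf_low h1).2, (pf_low h2).1, (pf_low h2).2]; simp

theorem et_high (hR : 0 < R) (h : 5 / 2 * R ≤ |t|) : et R t = 0 ∧ et' R t = 0 := by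
  unfold et et'
  rcases le_abs.1 h with h | h
  · have h1 : 1 + 3 / 2 ≤ t / R := by rw [le_div_iff₀ hR]; linarith
    rw [(pf_high le_rfl h1).1, (pf_high le_rfl h1).2]; simp
  · have h1 : 1 + 3 / 2 ≤ -(t / R) := by rw [← neg_div, le_div_iff₀ hR]; linarith
    rw [(pf_high le_rfl h1).1, (pf_high le_rfl h1).2]; simp

theorem et'_sq (hR : 0 < R) (t : ℝ) : et' R t ^ 2 ≤ 16 / R ^ 2 := by
  unfold et'
  rw [div_pow]
  gcongr
  have a := abs_le.1 (abs_pf'_le (t / R))
  have b := abs_le.1 (abs_pf'_le (-(t / R)))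
  have c := pf_mem one_pos (t / R)
  have d := pf_mem one_pos (-(t / R))
  have : |pf' 1 (t / R) * pf 1 (-(t / R)) - pf 1 (t / R) * pf' 1 (-(t / R))| ≤ 4 :=
    abs_le.2 ⟨by nlinarith [a.1, a.2, b.1, b.2, c.1, c.2, d.1, d.2],
      by nlinarith [a.1, a.2, b.1, b.2, c.1, c.2, d.1, d.2]⟩
  nlinarith [abs_le.1 this]

theorem et'_orth (hR : 0 < R) {j k : ℕ} (h : j < k) (t : ℝ) :
    et' (4 ^ j * R) t * et' (4 ^ k * R) t = 0 := by
  rcases le_total |t| (4 ^ k * R) with h1 | h1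
  · rw [(et_low (by positivity) h1).2, mul_zero]
  · have : (4 : ℝ) ^ (j + 1) ≤ 4 ^ k := pow_le_pow_right₀ (by norm_num) h
    have h2 : (0 : ℝ) < 4 ^ j * R := by positivity
    rw [(et_high h2 (by rw [pow_succ] at this; nlinarith)).2, zero_mul]

/-- The indicator of a symmetric interval. -/
noncomputable def box (R : ℝ) : ℝ → ℝ := (Icc (-R) R).indicator fun _ => 1

theorem box_nonneg (R t : ℝ) : 0 ≤ box R t := indicator_nonneg (fun _ _ => zero_le_one) t

theorem box_one (h : |t| ≤ R) : box R t = 1 := indicator_of_mem (show t ∈ Icc _ _ from abs_le.1 h) _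

theorem integrable_box (R : ℝ) : Integrable (box R) := int_ind continuous_const _ _

theorem integral_box (hR : 0 ≤ R) : ∫ t, box R t = 2 * R := by
  unfold box; rw [integral_ind_const _ (by linarith)]; ring

theorem cross_le (hR : 0 < R) (a b : ℝ) :
    (et' R a * et R b) ^ 2 ≤ 16 / R ^ 2 * (box (5 / 2 * R) a * box (5 / 2 * R) b) := by
  have n : 0 ≤ 16 / R ^ 2 * (box (5 / 2 * R) a * box (5 / 2 * R) b) :=
    mul_nonneg (by positivity) (mul_nonneg (box_nonneg _ _) (box_nonneg _ _))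
  rcases le_total (5 / 2 * R) |a| with h1 | h1
  · rw [(et_high hR h1).2]; simpa using n
  rcases le_total (5 / 2 * R) |b| with h2 | h2
  · rw [(et_high hR h2).1]; simpa using n
  rw [box_one h1, box_one h2, mul_pow, one_mul]
  have := et_mem R b
  exact mul_le_mul (et'_sq hR a) (by nlinarith [this.1, this.2]) (by positivity) (by positivity)

/-- The cut-off, its derivative in the first variable and its trace near an axis. -/
noncomputable def chi (n : ℕ) (R a b : ℝ) : ℝ :=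
  (∑ k ∈ Finset.range n, et (4 ^ k * R) a * et (4 ^ k * R) b) / n
noncomputable def chi' (n : ℕ) (R a b : ℝ) : ℝ :=
  (∑ k ∈ Finset.range n, et' (4 ^ k * R) a * et (4 ^ k * R) b) / n

variable {n : ℕ} {a b : ℝ}

theorem chi_comm (n : ℕ) (R a b : ℝ) : chi n R a b = chi n R b a := by
  unfold chi; simp only [mul_comm]

theorem hasDerivAt_chi (n : ℕ) (R a b : ℝ) :
    HasDerivAt (fun a => chi n R a b) (chi' n R a b) a :=
  (HasDerivAt.fun_sum fun k _ => (hasDerivAt_et (4 ^ k * R) a).mul_const _).div_const _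

theorem continuous_chi (n : ℕ) (R : ℝ) : Continuous fun q : ℝ × ℝ => chi n R q.1 q.2 := by
  have := continuous_et
  unfold chi; fun_prop

theorem continuous_chi' (n : ℕ) (R : ℝ) : Continuous fun q : ℝ × ℝ => chi' n R q.1 q.2 := by
  have := continuous_et
  have := continuous_et'
  unfold chi'; fun_prop

theorem chi_mem (n : ℕ) (R a b : ℝ) : 0 ≤ chi n R a b ∧ chi n R a b ≤ 1 := by
  refine ⟨div_nonneg (Finset.sum_nonneg fun k _ => mul_nonneg (et_mem _ _).1 (et_mem _ _).1)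
    (Nat.cast_nonneg n), div_le_one_of_le₀ ?_ (Nat.cast_nonneg n)⟩
  refine (Finset.sum_le_sum fun k _ =>
    mul_le_one₀ (et_mem _ a).2 (et_mem _ b).1 (et_mem _ b).2).trans ?_
  simp

theorem le_scale (hR : 0 < R) (k : ℕ) : R ≤ 4 ^ k * R :=
  le_mul_of_one_le_left hR.le (one_le_pow₀ (by norm_num))

theorem chi_low (hR : 0 < R) (h : |a| ≤ R) (n : ℕ) (b : ℝ) :
    chi n R a b = chi n R 0 b ∧ chi' n R a b = 0 := by
  have h1 : ∀ k : ℕ, et (4 ^ k * R) a = 1 ∧ et' (4 ^ k * R) a = 0 := fun k =>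
    et_low (by positivity) (h.trans (le_scale hR k))
  have h2 : ∀ k : ℕ, et (4 ^ k * R) 0 = 1 := fun k =>
    (et_low (by positivity) (by rw [abs_zero]; positivity)).1
  unfold chi chi'
  simp [(h1 _).1, (h1 _).2, h2]

theorem chi_one (hR : 0 < R) (hn : 0 < n) (h : |a| ≤ R) (h' : |b| ≤ R) : chi n R a b = 1 := by
  have h1 : ∀ k : ℕ, et (4 ^ k * R) a = 1 := fun k =>
    (et_low (by positivity) (h.trans (le_scale hR k))).1
  have h2 : ∀ k : ℕ, et (4 ^ k * R) b = 1 := fun k =>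
    (et_low (by positivity) (h'.trans (le_scale hR k))).1
  have : (n : ℝ) ≠ 0 := by positivity
  unfold chi
  simp [h1, h2, this]

theorem chi_high (hR : 0 < R) (h : 4 ^ n * R ≤ |b|) (a : ℝ) : chi n R a b = 0 := by
  unfold chi
  rw [Finset.sum_eq_zero, zero_div]
  intro k hk
  have : (4 : ℝ) ^ (k + 1) ≤ 4 ^ n := pow_le_pow_right₀ (by norm_num) (Finset.mem_range.1 hk)
  have h2 : (0 : ℝ) < 4 ^ k * R := by positivity
  rw [(et_high (t := b) h2 (by rw [pow_succ] at this; nlinarith)).1, mul_zero]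

theorem chi'_sq (hR : 0 < R) (n : ℕ) (a b : ℝ) : chi' n R a b ^ 2 ≤
    ∑ k ∈ Finset.range n, 16 / (4 ^ k * R) ^ 2 / n ^ 2 *
      (box (5 / 2 * (4 ^ k * R)) a * box (5 / 2 * (4 ^ k * R)) b) := by
  unfold chi'
  rw [div_pow, sq, Finset.sum_mul_sum, Finset.sum_div]
  refine Finset.sum_le_sum fun k hk => ?_
  rw [Finset.sum_eq_single k (fun j _ hj => ?_) (fun h => (h hk).elim), ← sq, div_mul_eq_mul_div]
  · gcongr
    exact cross_le (by positivity) a b
  · rcases lt_or_gt_of_ne hj with h | h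
    · linear_combination (et (4 ^ k * R) b * et (4 ^ j * R) b) * et'_orth hR h a
    · linear_combination (et (4 ^ k * R) b * et (4 ^ j * R) b) * et'_orth hR h a

/-- An integrable function of two variables together with its integral. -/
def HasI (F : ℝ × ℝ → ℝ) (I : ℝ) : Prop := Integrable F ∧ ∫ q, F q = I

theorem HasI.add {F G : ℝ × ℝ → ℝ} {I J : ℝ} (h : HasI F I) (k : HasI G J) :
    HasI (fun q => F q + G q) (I + J) :=
  ⟨h.1.add k.1, by rw [integral_add h.1 k.1, h.2, k.2]⟩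

theorem HasI.sub {F G : ℝ × ℝ → ℝ} {I J : ℝ} (h : HasI F I) (k : HasI G J) :
    HasI (fun q => F q - G q) (I - J) :=
  ⟨h.1.sub k.1, by rw [integral_sub h.1 k.1, h.2, k.2]⟩

theorem HasI.const_mul {F : ℝ × ℝ → ℝ} {I : ℝ} (c : ℝ) (h : HasI F I) :
    HasI (fun q => c * F q) (c * I) :=
  ⟨h.1.const_mul c, by rw [integral_const_mul, h.2]⟩

theorem HasI.prod {f g : ℝ → ℝ} (hf : Integrable f) (hg : Integrable g) :
    HasI (fun q => f q.1 * g q.2) ((∫ t, f t) * ∫ t, g t) :=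
  ⟨hf.mul_prod hg, integral_prod_mul f g⟩

theorem HasI.sum {F : ℕ → ℝ × ℝ → ℝ} {I : ℕ → ℝ} (n : ℕ) (h : ∀ k, HasI (F k) (I k)) :
    HasI (fun q => ∑ k ∈ Finset.range n, F k q) (∑ k ∈ Finset.range n, I k) :=
  ⟨integrable_finsetSum _ fun k _ => (h k).1, by
    rw [integral_finsetSum _ fun k _ => (h k).1]
    exact Finset.sum_congr rfl fun k _ => (h k).2⟩

theorem hasI_cut (hR : 0 < R) (hn : 0 < n) :
    HasI (fun q => ∑ k ∈ Finset.range n, 16 / (4 ^ k * R) ^ 2 / n ^ 2 *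
      (box (5 / 2 * (4 ^ k * R)) q.1 * box (5 / 2 * (4 ^ k * R)) q.2)) (400 / n) := by
  have := HasI.sum n fun k => (HasI.prod (integrable_box (5 / 2 * (4 ^ k * R)))
    (integrable_box (5 / 2 * (4 ^ k * R)))).const_mul (16 / (4 ^ k * R) ^ 2 / n ^ 2)
  have e : ∀ k : ℕ, 16 / (4 ^ k * R) ^ 2 / n ^ 2 * ((∫ t, box (5 / 2 * (4 ^ k * R)) t) *
      ∫ t, box (5 / 2 * (4 ^ k * R)) t) = 400 / (n : ℝ) ^ 2 := fun k => by
    rw [integral_box (by positivity)]; field_simp; norm_num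
  simp only [e, Finset.sum_const, Finset.card_range, nsmul_eq_mul] at this
  have h : (n : ℝ) * (400 / (n : ℝ) ^ 2) = 400 / n := by field_simp
  rwa [h] at this

end Pool.Agent.Lib.MP_6e1ed0_an
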