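import Mathlib

/-! Definitions for the statement: positive reactions, epigraphs, classical solutions,
the space W^{2,2}_loc through weak derivatives, the generalized principal eigenvalue. -/

namespace Pool.Agent.Lib.MP_6e1ed0_an

open Set MeasureTheory Laplacian
open scoped NNReal ContDiff

/-- The Euclidean plane. -/
abbrev E2 := EuclideanSpace ℝ (Fin 2)

/-- `f` is a positive reaction on `[0,1]` with derivative `f'`. -/
def IsPositiveReaction (f f' : ℝ → ℝ) : Prop :=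
  (∀ s ∈ Icc (0 : ℝ) 1, HasDerivWithinAt f (f' s) (Icc 0 1) s) ∧
  (∃ C γ : ℝ≥0, 0 < γ ∧ γ ≤ 1 ∧ HolderOnWith C γ f' (Icc 0 1)) ∧
  f 0 = 0 ∧ f 1 = 0 ∧ (∀ s ∈ Ioo (0 : ℝ) 1, 0 < f s) ∧ 0 < f' 0 ∧ f' 1 < 0

/-- The epigraph `{(x, y) : y > φ x}`. -/
def epi (φ : ℝ → ℝ) : Set E2 := {p | φ (p 0) < p 1}

/-- Positive classical solution of `-Δ u = f u` in `Ω`, `u = 0` on the boundary, with values
in `[0,1]`, where `f` is defined. -/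
def IsSolution (f : ℝ → ℝ) (Ω : Set E2) (u : E2 → ℝ) : Prop :=
  ContDiffOn ℝ 2 u Ω ∧ ContinuousOn u (closure Ω) ∧ (∀ p ∈ frontier Ω, u p = 0) ∧
  (∀ p ∈ Ω, 0 < u p ∧ u p ≤ 1) ∧ ∀ p ∈ Ω, -Δ u p = f (u p)

/-- `g` is square integrable on every compact subset of `Ω`. -/
def LocL2 (Ω : Set E2) (g : E2 → ℝ) : Prop :=
  ∀ K ⊆ Ω, IsCompact K → MemLp g 2 (volume.restrict K)

/-- `h` is the weak `i`-th coordinate derivative of `g` in `Ω`. -/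
def IsWeakDeriv (Ω : Set E2) (i : Fin 2) (g h : E2 → ℝ) : Prop :=
  ∀ θ : E2 → ℝ, ContDiff ℝ ∞ θ → HasCompactSupport θ → tsupport θ ⊆ Ω →
    ∫ p, g p * fderiv ℝ θ p (EuclideanSpace.single i 1) = -∫ p, h p * θ p

/-- `ψ` is a positive function in `W^{2,2}_loc(Ω)` (continuous representative) with
`(Δ + V + l) ψ ≤ 0` almost everywhere in `Ω`. -/
def IsSupersolution (V : E2 → ℝ) (Ω : Set E2) (l : ℝ) (ψ : E2 → ℝ) : Prop :=
  ContinuousOn ψ Ω ∧ (∀ p ∈ Ω, 0 < ψ p) ∧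
  ∃ (D : Fin 2 → E2 → ℝ) (DD : Fin 2 → Fin 2 → E2 → ℝ),
    LocL2 Ω ψ ∧ (∀ i, LocL2 Ω (D i) ∧ IsWeakDeriv Ω i ψ (D i)) ∧
    (∀ i j, LocL2 Ω (DD i j) ∧ IsWeakDeriv Ω j (D i) (DD i j)) ∧
    ∀ᵐ p, p ∈ Ω → DD 0 0 p + DD 1 1 p + (V p + l) * ψ p ≤ 0

/-- The generalized principal eigenvalue of `-Δ - V` on `Ω`. -/
noncomputable def princEig (V : E2 → ℝ) (Ω : Set E2) : EReal :=
  sSup {e : EReal | ∃ l : ℝ, e = l ∧ ∃ ψ, IsSupersolution V Ω l ψ}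

end Pool.Agent.Lib.MP_6e1ed0_an
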