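import Pool.Agent.Lib.MP_6e1ed0_an.Cut

/-! The test function on the domain with a reentrant corner has negative energy. -/

namespace Pool.Agent.Lib.MP_6e1ed0_an

open Set Filter Topology MeasureTheory Real

/-- The test function and its derivative in the first variable. -/
noncomputable def zt (n : ℕ) (L a b : ℝ) : ℝ := (1 - pf L a * pf L b) * chi n (L + 2) a b
noncomputable def zt' (n : ℕ) (L a b : ℝ) : ℝ :=
  -(pf' L a * pf L b) * chi n (L + 2) a b + (1 - pf L a * pf L b) * chi' n (L + 2) a b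

theorem zt_comm (n : ℕ) (L a b : ℝ) : zt n L a b = zt n L b a := by
  unfold zt; rw [chi_comm, mul_comm (pf L a)]

theorem hasDerivAt_zt (n : ℕ) (L a b : ℝ) :
    HasDerivAt (fun a => zt n L a b) (zt' n L a b) a :=
  ((((hasDerivAt_pf L a).mul_const (pf L b)).const_sub 1).fun_mul
    (hasDerivAt_chi n (L + 2) a b))

theorem continuous_zt (n : ℕ) (L : ℝ) : Continuous fun q : ℝ × ℝ => zt n L q.1 q.2 := by
  have := continuous_pf L
  exact Continuous.mul (by fun_prop) (continuous_chi n (L + 2))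

theorem continuous_zt' (n : ℕ) (L : ℝ) : Continuous fun q : ℝ × ℝ => zt' n L q.1 q.2 := by
  have := continuous_pf L
  have := continuous_pf' L
  exact (Continuous.mul (by fun_prop) (continuous_chi n (L + 2))).add
    (Continuous.mul (by fun_prop) (continuous_chi' n (L + 2)))

noncomputable def g1 (n : ℕ) (L w : ℝ) : ℝ → ℝ :=
  (Icc (-(4 ^ n * (L + 2))) (-w)).indicator fun t => chi n (L + 2) 0 t ^ 2
noncomputable def g2 (L : ℝ) : ℝ → ℝ := (Icc 0 (L + 3 / 2)).indicator fun t => (1 - pf L t) ^ 2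
noncomputable def g4 (L w : ℝ) : ℝ → ℝ := (Icc (-w) (L + 3 / 2)).indicator fun t => pf L t ^ 2
noncomputable def s0 (L : ℝ) : ℝ → ℝ := (Icc 2 (3 / 2 + 2 * L / 3)).indicator fun _ => 1
noncomputable def s1 (L : ℝ) : ℝ → ℝ := (Icc 2 (3 / 2 + 2 * L / 3)).indicator (pf L)
noncomputable def s2 (L : ℝ) : ℝ → ℝ := (Icc 2 (3 / 2 + 2 * L / 3)).indicator fun t => pf L t ^ 2
noncomputable def cutS (n : ℕ) (R a b : ℝ) : ℝ :=
  ∑ k ∈ Finset.range n, 16 / (4 ^ k * R) ^ 2 / n ^ 2 *
    (box (5 / 2 * (4 ^ k * R)) a * box (5 / 2 * (4 ^ k * R)) b)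

variable {n : ℕ} {L w a b : ℝ}

theorem g1_nonneg (t : ℝ) : 0 ≤ g1 n L w t := indicator_nonneg (fun _ _ => by positivity) t
theorem g2_nonneg (t : ℝ) : 0 ≤ g2 L t := indicator_nonneg (fun _ _ => by positivity) t
theorem g4_nonneg (t : ℝ) : 0 ≤ g4 L w t := indicator_nonneg (fun _ _ => by positivity) t

theorem one_sub_mem (hL : 0 < L) (a b : ℝ) :
    0 ≤ 1 - pf L a * pf L b ∧ 1 - pf L a * pf L b ≤ 1 := by
  have h := pf_mem hL a
  have k := pf_mem hL b
  exact ⟨by linarith [mul_le_one₀ h.2 k.1 k.2], by linarith [mul_nonneg h.1 k.1]⟩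

theorem zt_sq_le (hL : 0 < L) (a b : ℝ) :
    zt n L a b ^ 2 ≤ box (4 ^ n * (L + 2)) a * box (4 ^ n * (L + 2)) b := by
  have n0 := mul_nonneg (box_nonneg (4 ^ n * (L + 2)) a) (box_nonneg (4 ^ n * (L + 2)) b)
  rcases le_total (4 ^ n * (L + 2)) |b| with h | h
  · unfold zt; rw [chi_high (by linarith) h]; simpa using n0
  rcases le_total (4 ^ n * (L + 2)) |a| with h' | h'
  · unfold zt; rw [chi_comm, chi_high (by linarith) h']; simpa using n0
  rw [box_one h, box_one h', one_mul]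
  have c := chi_mem n (L + 2) a b
  have d := one_sub_mem hL a b
  exact pow_le_one₀ (mul_nonneg d.1 c.1) (mul_le_one₀ d.2 c.1 c.2)

theorem grad_le (hL : 1 ≤ L) (a b : ℝ) :
    zt' n L a b ^ 2 ≤ pf' L a ^ 2 * (g1 n L w b + g4 L w b) + cutS n (L + 2) a b := by
  have hS : chi' n (L + 2) a b ^ 2 ≤ cutS n (L + 2) a b := chi'_sq (by linarith) n a b
  have n1 := g1_nonneg (n := n) (L := L) (w := w) b
  have n4 := g4_nonneg (L := L) (w := w) b
  rcases le_total |a| (L + 2) with h | h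
  · have e := chi_low (by linarith) h n b
    have p := pf_mem (L := L) (by linarith) b
    have c := chi_mem n (L + 2) 0 b
    have key : pf L b ^ 2 * chi n (L + 2) 0 b ^ 2 ≤ g1 n L w b + g4 L w b := by
      rcases le_total b (-w) with h1 | h1
      · rcases le_total b (-(4 ^ n * (L + 2))) with h2 | h2
        · rw [chi_high (by linarith) (le_abs.2 (Or.inr (by linarith)))]
          simpa using add_nonneg n1 n4
        · have : g1 n L w b = chi n (L + 2) 0 b ^ 2 :=
            indicator_of_mem (show b ∈ Icc _ _ from ⟨h2, h1⟩) _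
          have := mul_le_of_le_one_left (sq_nonneg (chi n (L + 2) 0 b)) (pow_le_one₀ (n := 2) p.1 p.2)
          linarith
      rcases le_total b (L + 3 / 2) with h2 | h2
      · have : g4 L w b = pf L b ^ 2 := indicator_of_mem (show b ∈ Icc _ _ from ⟨h1, h2⟩) _
        have := mul_le_of_le_one_right (sq_nonneg (pf L b)) (pow_le_one₀ (n := 2) c.1 c.2)
        linarith
      · rw [(pf_high hL h2).1]; simpa using add_nonneg n1 n4
    have := mul_le_mul_of_nonneg_left key (sq_nonneg (pf' L a))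
    rw [e.2] at hS
    unfold zt'
    rw [e.1, e.2]
    nlinarith
  · have e : pf' L a = 0 := by
      rcases le_abs.1 h with h | h
      · exact (pf_high hL (by linarith)).2
      · exact (pf_low (by linarith)).2
    have d := one_sub_mem (L := L) (by linarith) a b
    have := mul_le_of_le_one_left (sq_nonneg (chi' n (L + 2) a b)) (pow_le_one₀ (n := 2) d.1 d.2)
    unfold zt'
    rw [e]
    nlinarith

theorem pot_one (hL : 1 ≤ L) (hw : 0 < w) (h : a ≤ -w) {r : ℝ} (r0 : 0 ≤ r)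
    (hr : b ≤ L + 3 / 2 → r = 1) : g1 n L w a * g2 L b ≤ r * zt n L a b ^ 2 := by
  by_cases hb : b ∈ Icc 0 (L + 3 / 2)
  · have e : g2 L b = (1 - pf L b) ^ 2 := indicator_of_mem hb _
    have e1 : g1 n L w a ≤ chi n (L + 2) 0 a ^ 2 :=
      indicator_apply_le' (fun _ => le_rfl) (fun _ => by positivity)
    unfold zt
    rw [hr hb.2, e, (pf_low (t := a) (by linarith)).1, chi_comm n (L + 2) a b,
      (chi_low (by linarith) (abs_le.2 ⟨by linarith [hb.1], by linarith [hb.2]⟩) n a).1]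
    nlinarith [mul_le_mul_of_nonneg_right e1 (sq_nonneg (1 - pf L b))]
  · have e : g2 L b = 0 := indicator_of_notMem hb _
    rw [e, mul_zero]; positivity

theorem pot_le (hL : 1 ≤ L) (hw : 0 < w) (hn : 0 < n) (a b : ℝ) :
    g1 n L w a * g2 L b + g2 L a * g1 n L w b +
      (s0 L a * s0 L b - 2 * (s1 L a * s1 L b) + s2 L a * s2 L b) ≤
    (Reg w (L + 3 / 2) (3 / 2 + 2 * L / 3)).indicator (fun _ => (1 : ℝ)) (a, b) *
      zt n L a b ^ 2 := by
  have r0 : 0 ≤ (Reg w (L + 3 / 2) (3 / 2 + 2 * L / 3)).indicator (fun _ => (1 : ℝ)) (a, b) :=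
    indicator_nonneg (fun _ _ => zero_le_one) _
  have zs : ∀ t, t ∉ Icc 2 (3 / 2 + 2 * L / 3) → s0 L t = 0 ∧ s1 L t = 0 ∧ s2 L t = 0 :=
    fun t ht => ⟨indicator_of_notMem ht _, indicator_of_notMem ht _, indicator_of_notMem ht _⟩
  have z2 : ∀ t, t ≤ -w → g2 L t = 0 := fun t ht =>
    indicator_of_notMem (fun h => by linarith [h.1]) _
  have z1 : ∀ t, -w < t → g1 n L w t = 0 := fun t ht =>
    indicator_of_notMem (fun h => by linarith [h.2]) _
  rcases le_or_gt a (-w) with h | h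
  · obtain ⟨e0, e1, e2⟩ := zs a fun k => by linarith [k.1]
    have := pot_one (n := n) hL hw h r0 (b := b) fun hb =>
      indicator_of_mem (show (a, b) ∈ Reg _ _ _ from Or.inl ⟨h, hb⟩) _
    rw [e0, e1, e2, z2 a h]; linarith
  rcases le_or_gt b (-w) with h' | h'
  · obtain ⟨e0, e1, e2⟩ := zs b fun k => by linarith [k.1]
    have := pot_one (n := n) hL hw h' r0 (b := a) fun hb =>
      indicator_of_mem (show (a, b) ∈ Reg _ _ _ from Or.inr (Or.inl ⟨h', hb⟩)) _
    rw [e0, e1, e2, z2 b h', zt_comm]; linarith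
  rw [z1 a h, z1 b h']
  have n0 := mul_nonneg r0 (sq_nonneg (zt n L a b))
  by_cases ha : a ∈ Icc 2 (3 / 2 + 2 * L / 3)
  swap
  · obtain ⟨e0, e1, e2⟩ := zs a ha
    rw [e0, e1, e2]; linarith
  by_cases hb : b ∈ Icc 2 (3 / 2 + 2 * L / 3)
  swap
  · obtain ⟨e0, e1, e2⟩ := zs b hb
    rw [e0, e1, e2]; linarith
  unfold s0 s1 s2 zt
  simp only [indicator_of_mem ha, indicator_of_mem hb]
  rw [indicator_of_mem (show (a, b) ∈ Reg _ _ _ from Or.inr (Or.inr ⟨ha.2, hb.2⟩)),
    chi_one (by linarith) hn (abs_le.2 ⟨by linarith [ha.1], by linarith [ha.2]⟩)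
      (abs_le.2 ⟨by linarith [hb.1], by linarith [hb.2]⟩)]
  apply le_of_eq; ring

theorem numeric {L U X I1 I2 J A0 A1 A2 R c : ℝ} (hL : 10 ^ 6 ≤ L)
    (hU : U = (π / (2 * (L + 8))) ^ 2) (X0 : 0 ≤ X) (hX : X ≤ 2 * R)
    (hR : R ≤ L / 20000 * (L + 2)) (i0 : 0 ≤ I1) (i1 : I1 ≤ (π / (2 * L)) ^ 2 * (1 + L / 2))
    (i2 : L / 2 - 1 / 4 ≤ I2) (hJ : J ≤ L / 500 + 2 + 0.2268 * L) (a0 : A0 = 2 * L / 3 - 1 / 2)
    (a1 : 0 ≤ A1) (a1' : A1 ≤ 0.3484 * L) (a2 : 0.2254 * L - 3 / 4 ≤ A2) (hc : c ≤ 1 / 200) :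
    I1 * (X + J) + c + ((X + J) * I1 + c) -
      U * (X * I2 + I2 * X + (A0 * A0 - 2 * (A1 * A1) + A2 * A2)) ≤ -0.04 := by
  have p1 := pi_gt_d4
  have p2 := pi_lt_d4
  have L0 : 0 < L := by linarith
  obtain ⟨P, hP⟩ : ∃ P, P = π ^ 2 / 4 := ⟨_, rfl⟩
  have P1 : 2.4672 ≤ P := by rw [hP]; nlinarith
  have P2 : P ≤ 2.4675 := by rw [hP]; nlinarith
  have eU : U = P / (L + 8) ^ 2 := by rw [hU, hP]; field_simp; norm_num
  have eI : (π / (2 * L)) ^ 2 = P / L ^ 2 := by rw [hP]; field_simp; norm_num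
  rw [eI] at i1
  have U1 : P / L ^ 2 * (1 - 16 / L) ≤ U := by
    rw [eU, le_div_iff₀ (by positivity)]
    have : P / L ^ 2 * (1 - 16 / L) * (L + 8) ^ 2 = P * (1 - (192 * L + 1024) / L ^ 3) := by
      field_simp; ring
    rw [this]
    exact mul_le_of_le_one_right (by linarith) (sub_le_self _ (by positivity))
  have l16 : 16 / L ≤ 16 / 10 ^ 6 := by gcongr
  have U2 : 2.467 / L ^ 2 ≤ U := by
    refine le_trans ?_ U1
    rw [div_mul_eq_mul_div]
    gcongr
    nlinarith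
  have U0 : 0 ≤ U := le_trans (by positivity) U2
  have d1 : I1 - U * I2 ≤ 25 / L ^ 2 := by
    have h1 : P / L ^ 2 * (1 - 16 / L) * (L / 2 - 1 / 4) ≤ U * I2 :=
      mul_le_mul U1 i2 (by linarith) U0
    have h2 : P / L ^ 2 * (1 + L / 2) - P / L ^ 2 * (1 - 16 / L) * (L / 2 - 1 / 4) =
        P * (37 / 4 - 4 / L) / L ^ 2 := by field_simp; ring
    have h3 : P * (37 / 4 - 4 / L) / L ^ 2 ≤ 25 / L ^ 2 := by
      gcongr
      have : 0 ≤ 4 / L := by positivity
      nlinarith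
    linarith
  have d2 : X * (I1 - U * I2) ≤ 0.0026 := by
    calc _ ≤ X * (25 / L ^ 2) := by gcongr
      _ ≤ 2 * (L / 20000 * (L + 2)) * (25 / L ^ 2) := by gcongr; linarith
      _ = (L + 2) / (400 * L) := by field_simp; ring
      _ ≤ _ := by rw [div_le_iff₀ (by positivity)]; linarith
  have d3 : I1 * J ≤ 0.2825 := by
    calc _ ≤ I1 * (0.2289 * L) := by gcongr; linarith
      _ ≤ P / L ^ 2 * (1 + L / 2) * (0.2289 * L) := by gcongr
      _ = P * (0.2289 * (1 + L / 2)) / L := by field_simp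
      _ ≤ 2.4675 * (0.2289 * (1 + L / 2)) / L := by gcongr
      _ ≤ _ := by rw [div_le_iff₀ L0]; linarith
  have d4 : 0.622 ≤ U * (A0 * A0 - 2 * (A1 * A1) + A2 * A2) := by
    have b0 : 0.6666 * L * (0.6666 * L) ≤ A0 * A0 :=
      mul_self_le_mul_self (by positivity) (by linarith)
    have b1 : A1 * A1 ≤ 0.3484 * L * (0.3484 * L) := mul_self_le_mul_self a1 a1'
    have b2 : 0.2253 * L * (0.2253 * L) ≤ A2 * A2 :=
      mul_self_le_mul_self (by positivity) (by linarith)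
    calc (0.622 : ℝ) ≤ 2.467 / L ^ 2 * (0.2523 * L ^ 2) := by
          rw [show 2.467 / L ^ 2 * (0.2523 * L ^ 2) = 2.467 * 0.2523 by field_simp]; norm_num
      _ ≤ _ := mul_le_mul U2 (by nlinarith) (by positivity) U0
  nlinarith

theorem energy {U s : ℝ} (hL : 10 ^ 6 ≤ L) (hn : 80000 ≤ n) (hLn : 4 ^ n ≤ L / 20000)
    (w0 : 0 < w) (hw : w ≤ L / 500) (hU : U = (π / (2 * (L + 8))) ^ 2) {Y : ℝ × ℝ → ℝ}
    (iY : Integrable Y) (zY : ∫ q, Y q = 0)
    (hY : ∀ q, Y q ≤ zt' n L q.1 q.2 ^ 2 + zt' n L q.2 q.1 ^ 2 - (-s + U *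
      (Reg w (L + 3 / 2) (3 / 2 + 2 * L / 3)).indicator (fun _ => (1 : ℝ)) q) * zt n L q.1 q.2 ^ 2) :
    0.01 / (4 ^ n * (L + 2)) ^ 2 ≤ s := by
  have L1 : 1 ≤ L := by linarith
  have n0 : 0 < n := by omega
  have cp := continuous_pf L
  have U0 : 0 ≤ U := by rw [hU]; positivity
  have R0 : 0 < 4 ^ n * (L + 2) := by positivity
  have j1 : Integrable (g1 n L w) :=
    int_ind (((continuous_chi n (L + 2)).comp (Continuous.prodMk_right 0)).pow 2) _ _
  have j2 : Integrable (g2 L) := int_ind (by fun_prop) _ _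
  have j4 : Integrable (g4 L w) := int_ind (by fun_prop) _ _
  have k0 : Integrable (s0 L) := int_ind continuous_const _ _
  have k1 : Integrable (s1 L) := int_ind cp _ _
  have k2 : Integrable (s2 L) := int_ind (by fun_prop) _ _
  have ip := integrable_pf'_sq L1
  have ib := integrable_box (4 ^ n * (L + 2))
  have j14 : Integrable fun t => g1 n L w t + g4 L w t := j1.add j4
  have hc : HasI (fun q => cutS n (L + 2) q.1 q.2) (400 / n) := hasI_cut (by linarith) n0
  have H := ((((HasI.prod ip j14).add hc).add ((HasI.prod j14 ip).add hc)).sub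
    ((((HasI.prod j1 j2).add (HasI.prod j2 j1)).add (((HasI.prod k0 k0).sub
      ((HasI.prod k1 k1).const_mul 2)).add (HasI.prod k2 k2))).const_mul U)).add
    ((HasI.prod ib ib).const_mul (max s 0))
  have key := integral_mono iY H.1 fun q => by
    have a1 := grad_le (n := n) (w := w) L1 q.1 q.2
    have a2 := grad_le (n := n) (w := w) L1 q.2 q.1
    have a3 := mul_le_mul_of_nonneg_left (pot_le L1 w0 n0 q.1 q.2) U0
    have a4 := mul_le_mul (le_max_left s 0) (zt_sq_le (n := n) (by linarith : 0 < L) q.1 q.2)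
      (sq_nonneg _) (le_max_right _ _)
    have a5 : cutS n (L + 2) q.2 q.1 = cutS n (L + 2) q.1 q.2 := by
      unfold cutS; simp only [mul_comm (box _ q.2)]
    have a6 := hY q
    simp only [Prod.mk.eta] at a3
    simp only
    linarith
  rw [H.2, zY, integral_add j1 j4, integral_box R0.le] at key
  have hX : ∫ t, g1 n L w t ≤ 2 * (4 ^ n * (L + 2)) := by
    rw [← integral_box R0.le]
    refine integral_mono j1 ib fun t => indicator_apply_le' (fun ht => ?_) fun _ => box_nonneg _ _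
    have c := chi_mem n (L + 2) 0 t
    rw [box_one (abs_le.2 ⟨ht.1, by linarith [ht.2]⟩)]
    exact pow_le_one₀ c.1 c.2
  have hn' : (80000 : ℝ) ≤ n := by exact_mod_cast hn
  have num := numeric hL hU (integral_nonneg g1_nonneg) hX
    (mul_le_mul_of_nonneg_right hLn (by linarith)) (integral_nonneg fun t => sq_nonneg (pf' L t))
    (I1_le L1) (I2_ge L1) ((J_le L1 w0.le).trans (by linarith))
    (A0 := ∫ t, s0 L t) (by unfold s0; rw [integral_ind_const _ (by linarith)]; ring)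
    (integral_nonneg fun t => indicator_nonneg (fun x _ => (pf_mem (by linarith) x).1) t)
    (L1_le L1) (L2_ge L1) (c := 400 / n) (by rw [div_le_iff₀ (by linarith)]; linarith)
  have fin : 0.01 / (4 ^ n * (L + 2)) ^ 2 ≤ max s 0 := by
    rw [div_le_iff₀ (by positivity)]
    unfold g2 g4 s1 s2 at key
    linarith
  exact (le_max_iff.1 fin).resolve_right (not_le.2 (by positivity))

end Pool.Agent.Lib.MP_6e1ed0_an
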