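import Pool.Agent.Lib.MP_6e1ed0_an.Iter

/-! Existence of a positive classical solution on every 1-Lipschitz epigraph. -/

namespace Pool.Agent.Lib.MP_6e1ed0_an

open Set Filter Topology Laplacian MeasureTheory Metric
open scoped ContDiff

theorem hasDerivAt_gauss (α t : ℝ) :
    HasDerivAt (fun t => Real.exp (-α * t ^ 2)) (Real.exp (-α * t ^ 2) * (-α * (2 * t))) t := by
  have := (((hasDerivAt_id' t).fun_pow 2).const_mul (-α)).exp
  simpa using this

theorem L2.gauss (α : ℝ) (q : ℝ × ℝ) :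
    L2 (fun x => Real.exp (-α * x.1 ^ 2) * Real.exp (-α * x.2 ^ 2)) q
      ((4 * α ^ 2 * (q.1 ^ 2 + q.2 ^ 2) - 4 * α) *
        (Real.exp (-α * q.1 ^ 2) * Real.exp (-α * q.2 ^ 2))) := by
  have h : ∀ t, HasDerivAt (fun t => Real.exp (-α * t ^ 2) * (-α * (2 * t)))
      (Real.exp (-α * t ^ 2) * (-α * (2 * t)) * (-α * (2 * t)) +
        Real.exp (-α * t ^ 2) * (-α * 2)) t := fun t => by
    have := (hasDerivAt_gauss α t).fun_mul (((hasDerivAt_id' t).const_mul 2).const_mul (-α))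
    simpa using this
  refine (L2.prod (hasDerivAt_gauss α) (h q.1) (hasDerivAt_gauss α) (h q.2)).of_eq ?_
  ring

/-- One step of the boundary barrier. -/
theorem barrier {u c F : E2 → ℝ} (hu : ContDiff ℝ 2 u) (u0 : ∀ x, 0 ≤ u x) (c0 : ∀ x, 0 ≤ c x)
    {Cf ρ M ε : ℝ} (hF : ∀ x, F x ≤ Cf) (hCf : 0 ≤ Cf) (h : ∀ x, Δ u x = c x * u x - F x) (o : E2)
    (hρ : 0 < ρ) (hε : 0 < ε) (hM0 : 0 ≤ M)
    (hM : ∀ q : ℝ × ℝ, q.1 ^ 2 + q.2 ^ 2 ≤ 9 * ρ ^ 2 → u (fr o ex ey q) ≤ M)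
    (hc : ∀ q : ℝ × ℝ, q.1 ^ 2 + q.2 ^ 2 ≤ ρ ^ 2 →
      4 / ρ ^ 2 * (M / (1 - Real.exp (-9))) ≤ c (fr o ex ey q) * ε) :
    u (fr o ex ey (0, 2 * ρ)) ≤
      ε + (1 - Real.exp (-4)) / (1 - Real.exp (-9)) * M + (Cf + 1) * (5 * ρ ^ 2 / 4) := by
  have e9 : 0 < 1 - Real.exp (-9) := by
    have := Real.exp_lt_one_iff.2 (show (-9 : ℝ) < 0 by norm_num); linarith
  set α := 1 / ρ ^ 2 with hα
  have α0 : 0 < α := by positivity
  set A := M / (1 - Real.exp (-9)) with hA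
  have A0 : 0 ≤ A := by positivity
  have G1 : ∀ q : ℝ × ℝ, Real.exp (-α * q.1 ^ 2) * Real.exp (-α * q.2 ^ 2) ≤ 1 := fun q => by
    rw [← Real.exp_add, Real.exp_le_one_iff]
    nlinarith [sq_nonneg q.1, sq_nonneg q.2]
  have key := maxp (C := {q : ℝ × ℝ | q.1 ^ 2 + q.2 ^ 2 ≤ 9 * ρ ^ 2})
    (D := {q : ℝ × ℝ | q.1 ^ 2 + q.2 ^ 2 < 9 * ρ ^ 2})
    (isClosed_le (by fun_prop) continuous_const) (isOpen_lt (by fun_prop) continuous_const)
    (fun q (hq : _ < _) => hq.le)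
    (w := fun q => ε + A * (1 - Real.exp (-α * q.1 ^ 2) * Real.exp (-α * q.2 ^ 2)) +
      (Cf + 1) / 4 * (9 * ρ ^ 2 - ((q.1 - 0) ^ 2 + (q.2 - 0) ^ 2)) - u (fr o ex ey q))
    (B := M) (c := 0) (κ := 1) ?_ ?_ ?_ le_rfl zero_le_one (Or.inr one_pos) ?_ (0, 2 * ρ)
    (by show (0 : ℝ) ^ 2 + (2 * ρ) ^ 2 ≤ 9 * ρ ^ 2; nlinarith)
  · have e1 : -α * (2 * ρ) ^ 2 = -4 := by rw [hα]; field_simp; ring
    simp only [e1] at key
    have e2 : (1 - Real.exp (-4)) / (1 - Real.exp (-9)) * M = A * (1 - Real.exp (-4)) := by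
      rw [hA]; ring
    rw [e2]
    simp only [ne_eq, OfNat.ofNat_ne_zero, not_false_eq_true, zero_pow, mul_zero, Real.exp_zero,
      one_mul, sub_zero, zero_add] at key
    nlinarith
  · have := hu.continuous
    have := continuous_fr o ex ey
    fun_prop
  · intro q hq
    have h1 : q.1 ^ 2 + q.2 ^ 2 ≤ 9 * ρ ^ 2 := hq
    have h2 := hM q h1
    have h3 := mul_nonneg A0 (sub_nonneg.2 (G1 q))
    have h4 : 0 ≤ (Cf + 1) / 4 * (9 * ρ ^ 2 - ((q.1 - 0) ^ 2 + (q.2 - 0) ^ 2)) :=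
      mul_nonneg (by positivity) (by simp only [sub_zero]; linarith)
    linarith
  · intro q hq hq'
    have h1 : q.1 ^ 2 + q.2 ^ 2 ≤ 9 * ρ ^ 2 := hq
    have h0 : q.1 ^ 2 + q.2 ^ 2 = 9 * ρ ^ 2 := le_antisymm h1 (not_lt.1 hq')
    have h2 := hM q h1
    have e1 : Real.exp (-α * q.1 ^ 2) * Real.exp (-α * q.2 ^ 2) = Real.exp (-9) := by
      rw [← Real.exp_add, ← mul_add, h0, hα]; congr 1; field_simp
    have e2 : A * (1 - Real.exp (-9)) = M := by rw [hA]; field_simp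
    simp only [e1, e2, sub_zero, h0]
    linarith
  · intro q hq hneg
    have h1 : q.1 ^ 2 + q.2 ^ 2 < 9 * ρ ^ 2 := hq
    refine ⟨_, (((L2.const ε q).add (((L2.const 1 q).sub (L2.gauss α q)).const_mul A)).add
      (((L2.const (9 * ρ ^ 2) q).sub (L2.sq 0 0 q)).const_mul ((Cf + 1) / 4))).sub
      (L2.std hu.contDiffAt), ?_⟩
    have h3 := mul_nonneg A0 (sub_nonneg.2 (G1 q))
    have h4 : 0 ≤ (Cf + 1) / 4 * (9 * ρ ^ 2 - ((q.1 - 0) ^ 2 + (q.2 - 0) ^ 2)) :=
      mul_nonneg (by positivity) (by simp only [sub_zero]; linarith)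
    have h5 : ε ≤ u (fr o ex ey q) := by linarith
    have h6 := hF (fr o ex ey q)
    have h7 : 0 < Real.exp (-α * q.1 ^ 2) * Real.exp (-α * q.2 ^ 2) := by positivity
    rw [h]
    set G := Real.exp (-α * q.1 ^ 2) * Real.exp (-α * q.2 ^ 2) with hG
    by_cases hin : q.1 ^ 2 + q.2 ^ 2 ≤ ρ ^ 2
    · have h8 := hc q hin
      have h9 : c (fr o ex ey q) * ε ≤ c (fr o ex ey q) * u (fr o ex ey q) :=
        mul_le_mul_of_nonneg_left h5 (c0 _)
      have h10 : 4 / ρ ^ 2 = 4 * α := by rw [hα]; ring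
      rw [h10] at h8
      have h11 : 0 ≤ A * (4 * α ^ 2 * (q.1 ^ 2 + q.2 ^ 2) * G) := by positivity
      have h12 : A * (4 * α * G) ≤ A * (4 * α * 1) := by gcongr; exact G1 q
      nlinarith
    · have h8 : 1 ≤ α * (q.1 ^ 2 + q.2 ^ 2) := by
        rw [hα, one_div_mul_eq_div, le_div_iff₀ (by positivity)]; linarith
      have h9 : 0 ≤ A * ((4 * α ^ 2 * (q.1 ^ 2 + q.2 ^ 2) - 4 * α) * G) :=
        mul_nonneg A0 (mul_nonneg (by nlinarith) h7.le)
      have h10 := mul_nonneg (c0 (fr o ex ey q)) (u0 (fr o ex ey q))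
      nlinarith

theorem lip_le {φ : ℝ → ℝ} (hφ : LipschitzWith 1 φ) (x y : ℝ) : φ x ≤ φ y + |x - y| := by
  have := hφ.dist_le_mul x y
  rw [Real.dist_eq, Real.dist_eq, NNReal.coe_one, one_mul] at this
  linarith [le_abs_self (φ x - φ y)]

theorem isOpen_epi {φ : ℝ → ℝ} (hφ : Continuous φ) : IsOpen (epi φ) :=
  isOpen_lt (by fun_prop) (by fun_prop)

theorem exists_solution {f : ℝ → ℝ} {L α t0 : ℝ} (hf : Good f L α t0) {φ : ℝ → ℝ}
    (hφ : LipschitzWith 1 φ) : ∃ u, IsSolution f (epi φ) u := by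
  have cφ := hφ.continuous
  have hΩ := isOpen_epi cφ
  obtain ⟨ϑ, ϑ1, ϑ2, ϑ3⟩ := (isOpen_lt (by fun_prop) (by fun_prop) :
    IsOpen {p : E2 | p 1 < φ (p 0)}).exists_contDiff_support_eq (n := 1)
  have ϑm : ∀ x, ϑ x ∈ Icc (0 : ℝ) 1 := fun x => ϑ3 ⟨x, rfl⟩
  have ϑ0 : ∀ x ∈ epi φ, ϑ x = 0 := fun x hx => by
    by_contra h
    have h1 : x ∈ Function.support ϑ := h
    rw [ϑ1] at h1
    exact lt_asymm (show φ (x 0) < x 1 from hx) h1
  have ϑp : ∀ x : E2, x 1 < φ (x 0) → 0 < ϑ x := fun x hx => by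
    have h1 : x ∈ Function.support ϑ := by rw [ϑ1]; exact hx
    exact lt_of_le_of_ne (ϑm x).1 (Ne.symm h1)
  choose w w1 w2 w3 w4 w5 using fun n : ℕ => pen_exists hf (c := fun x => n * ϑ x)
    (contDiff_const.mul ϑ2) (C := n) (fun x => mul_nonneg n.cast_nonneg (ϑm x).1)
    (fun x => mul_le_of_le_one_right n.cast_nonneg (ϑm x).2)
  have dec : ∀ n x, w (n + 1) x ≤ w n x := fun n => w4 n _ (w1 _) (w2 _) fun x => by
    have := mul_nonneg (ϑm x).1 (w2 (n + 1) x).1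
    rw [w3]; push_cast; nlinarith
  have anti : ∀ x, Antitone fun n => w n x := fun x => antitone_nat_of_succ_le fun n => dec n x
  set u : E2 → ℝ := fun x => ⨅ n, w n x with hu
  have bdd : ∀ x, BddBelow (range fun n => w n x) := fun x =>
    ⟨0, by rintro _ ⟨j, rfl⟩; exact (w2 j x).1⟩
  have lim : ∀ x, Tendsto (fun n => w n x) atTop (𝓝 (u x)) := fun x =>
    tendsto_atTop_ciInf (anti x) (bdd x)
  have ule : ∀ n x, u x ≤ w n x := fun n x => ciInf_le (bdd x) n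
  have um : ∀ x, u x ∈ Icc (0 : ℝ) 1 := fun x =>
    isClosed_Icc.mem_of_tendsto (lim x) (Eventually.of_forall fun j => w2 j x)
  have usc : ∀ p, ∀ ε > 0, ∃ n, ∀ᶠ x in 𝓝 p, w n x < u p + ε := by
    intro p ε hε
    obtain ⟨n, hn⟩ := ((lim p).eventually (gt_mem_nhds (by linarith : u p < u p + ε))).exists
    exact ⟨n, (w1 n).continuous.continuousAt.eventually (gt_mem_nhds hn)⟩
  have zero : ∀ p ∉ epi φ, u p = 0 := by
    intro p hp
    have hp' : p 1 ≤ φ (p 0) := not_lt.1 hp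
    by_contra hne
    have hm : 0 < u p := lt_of_le_of_ne (um p).1 (Ne.symm hne)
    have e9 : 0 < 1 - Real.exp (-9) := by
      have := Real.exp_lt_one_iff.2 (show (-9 : ℝ) < 0 by norm_num); linarith
    set θ := (1 - Real.exp (-4)) / (1 - Real.exp (-9)) with hθ
    have θ1 : θ < 1 := by
      rw [hθ, div_lt_one e9]
      have := Real.exp_lt_exp.2 (show (-9 : ℝ) < -4 by norm_num); linarith
    set ε := u p * (1 - θ) / 4 with hεdef
    have hε : 0 < ε := by have : 0 < 1 - θ := by linarith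
                          positivity
    obtain ⟨n0, hn0⟩ := usc p ε hε
    obtain ⟨R, hR, hball⟩ := nhds_basis_closedBall.eventually_iff.1 hn0
    obtain ⟨ρ, hρ, ρ1, ρ2⟩ : ∃ ρ > 0, 8 * ρ ≤ R ∧ (L + 1) * (5 * ρ ^ 2 / 4) ≤ ε := by
      have t1 : Tendsto (fun ρ : ℝ => 8 * ρ) (𝓝[>] 0) (𝓝 (8 * 0)) :=
        tendsto_nhdsWithin_of_tendsto_nhds (Continuous.tendsto (by fun_prop) 0)
      have t2 : Tendsto (fun ρ : ℝ => (L + 1) * (5 * ρ ^ 2 / 4)) (𝓝[>] 0)
          (𝓝 ((L + 1) * (5 * 0 ^ 2 / 4))) :=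
        tendsto_nhdsWithin_of_tendsto_nhds (Continuous.tendsto (by fun_prop) 0)
      obtain ⟨ρ, h⟩ := ((t1.eventually (ge_mem_nhds (by simpa using hR))).and
        ((t2.eventually (ge_mem_nhds (by simpa using hε))).and self_mem_nhdsWithin)).exists
      exact ⟨ρ, h.2.2, h.1, h.2.1⟩
    set o : E2 := p - (2 * ρ) • ey with ho
    have o0 : o 0 = p 0 := by simp [ho]
    have o1 : o 1 = p 1 - 2 * ρ := by simp [ho]
    have op : fr o ex ey (0, 2 * ρ) = p := by simp [fr, ho]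
    obtain ⟨q0, hq0, hmin⟩ := ((isCompact_closedBall (0 : ℝ × ℝ) ρ).inter_left
      (isClosed_le (by fun_prop) continuous_const :
        IsClosed {q : ℝ × ℝ | q.1 ^ 2 + q.2 ^ 2 ≤ ρ ^ 2})).exists_isMinOn
      ⟨0, by simp; positivity, by simp [hρ.le]⟩
      (ϑ2.continuous.comp (continuous_fr o ex ey)).continuousOn
    have pos : 0 < ϑ (fr o ex ey q0) := by
      apply ϑp
      rw [fr_std_zero, fr_std_one, o0, o1]
      have h1 := lip_le hφ (p 0) (p 0 + q0.1)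
      have h2 : q0.1 ^ 2 + q0.2 ^ 2 ≤ ρ ^ 2 := hq0.1
      have h3 : |p 0 - (p 0 + q0.1)| = |q0.1| := by rw [← abs_neg]; congr 1; ring
      have h4 : |q0.1| + q0.2 < 2 * ρ := by
        by_contra h
        push Not at h
        nlinarith [sq_abs q0.1, sq_nonneg (|q0.1| - q0.2)]
      linarith
    obtain ⟨n1, hn1⟩ := exists_nat_ge (4 / ρ ^ 2 * ((u p + ε) / (1 - Real.exp (-9))) /
      (ϑ (fr o ex ey q0) * ε))
    rw [div_le_iff₀ (by positivity)] at hn1
    have hb := barrier (w1 (max n0 n1)) (fun x => (w2 _ x).1)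
      (fun x => mul_nonneg (max n0 n1).cast_nonneg (ϑm x).1) (fun x => hf.le (w2 _ x)) hf.L0
      (w3 (max n0 n1)) o hρ hε (M := u p + ε) (by positivity) (fun q hq => by
        refine (anti _ (le_max_left n0 n1)).trans (hball ?_).le
        have h1 : q ∈ Icc (-(3 * ρ)) (3 * ρ) ×ˢ Icc (-(3 * ρ)) (3 * ρ) := by
          constructor <;> exact abs_le.1 (abs_le_of_sq_le_sq' (by nlinarith [sq_nonneg q.1, sq_nonneg q.2]) (by positivity) |> abs_le.2)
        have h2 := dist_fr_le (p := o) (e := ex) (e' := ey) (by simp) (by simp) h1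
        have h3 : dist o p = 2 * ρ := by
          rw [dist_eq_norm, ho, sub_sub_cancel_left, norm_neg, norm_smul]
          simp [hρ.le]
        have := dist_triangle (fr o ex ey q) o p
        simp only [mem_closedBall] at h2 ⊢
        linarith) (fun q hq => by
        have h1 : q ∈ closedBall (0 : ℝ × ℝ) ρ := by
          rw [mem_closedBall_zero_iff, Prod.norm_def, max_le_iff, Real.norm_eq_abs,
            Real.norm_eq_abs]
          constructor <;> exact abs_le.2 (abs_le_of_sq_le_sq' (by nlinarith [sq_nonneg q.1, sq_nonneg q.2]) hρ.le)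
        have h2 : ϑ (fr o ex ey q0) ≤ ϑ (fr o ex ey q) := hmin ⟨hq, h1⟩
        have h3 : (n1 : ℝ) ≤ (max n0 n1 : ℕ) := by exact_mod_cast le_max_right n0 n1
        refine hn1.trans ?_
        rw [mul_assoc]
        gcongr)
    rw [op] at hb
    have h1 := ule (max n0 n1) p
    have h2 : θ * ε ≤ ε := mul_le_of_le_one_left hε.le θ1.le
    have h3 : u p * (1 - θ) = 4 * ε := by rw [hεdef]; ring
    nlinarith
  obtain ⟨l1, l2⟩ := limit_weak hΩ (w := w) (u := u) (F := fun x => -f (u x)) (A := 1) (B := L)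
    (fun n => (w1 n).contDiffOn)
    (fun n x _ => abs_le.2 ⟨by linarith [(w2 n x).1], (w2 n x).2⟩)
    (fun n x hx => by
      rw [w3, ϑ0 x hx]
      have := hf.le (w2 n x)
      have := hf.nn _ (w2 n x)
      exact abs_le.2 ⟨by linarith, by linarith [hf.L0]⟩)
    (fun x _ => lim x) (fun x hx => by
      refine ((hf.c1.continuous.tendsto _).comp (lim x)).neg.congr fun n => ?_
      rw [w3, ϑ0 x hx]; simp)
  have r1 := reg1 hΩ l1 (hf.c1.continuous.comp_continuousOn l1).neg l2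
  obtain ⟨r2, r3⟩ := reg2 hΩ l1 (hf.c1.comp_contDiffOn r1).neg l2
  refine ⟨u, r2, fun p _ => ContinuousAt.continuousWithinAt ?_, fun p hp => zero p ?_,
    fun p hp => ⟨?_, (um p).2⟩, fun p hp => by rw [r3 p hp, neg_neg]; rfl⟩
  · by_cases hp : p ∈ epi φ
    · exact l1.continuousAt (hΩ.mem_nhds hp)
    · rw [ContinuousAt, tendsto_order]
      refine ⟨fun a ha => Eventually.of_forall fun x => ?_, fun a ha => ?_⟩
      · rw [zero p hp] at ha; exact ha.trans_le (um x).1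
      · obtain ⟨n, hn⟩ := usc p (a - u p) (by linarith)
        filter_upwards [hn] with x hx
        linarith [ule n x]
  · rw [hΩ.frontier_eq] at hp; exact hp.2
  · have hp' : φ (p 0) < p 1 := hp
    have hπ : 0 < Real.pi / α := div_pos Real.pi_pos hf.α0
    set δ := min (p 1 - φ (p 0)) (Real.pi / α) / 2 with hδ
    have δ0 : 0 < δ := by have := lt_min (sub_pos.2 hp') hπ
                          positivity
    have δ1 : δ < p 1 - φ (p 0) := by
      have := min_le_left (p 1 - φ (p 0)) (Real.pi / α); linarith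
    have δ2 : δ < Real.pi / α := by
      have := min_le_right (p 1 - φ (p 0)) (Real.pi / α); linarith
    have hsq : ∀ q ∈ Sq α (p 0 + p 1 - δ) (p 1 - p 0 - δ), rot q ∈ epi φ := by
      intro q hq
      show φ (rot q 0) < rot q 1
      rw [rot_zero, rot_one]
      have h1 := lip_le hφ ((q.1 - q.2) / 2) (p 0)
      have h2 := hq.1.1
      have h3 := hq.2.1
      have h4 : |(q.1 - q.2) / 2 - p 0| ≤ (q.1 + q.2) / 2 - (p 1 - δ) :=
        abs_le.2 ⟨by linarith, by linarith⟩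
      linarith
    have hq : (p 0 + p 1, p 1 - p 0) ∈ Sq α (p 0 + p 1 - δ) (p 1 - p 0 - δ) :=
      ⟨⟨by simp only; linarith, by simp only; linarith⟩,
        ⟨by simp only; linarith, by simp only; linarith⟩⟩
    have h1 : t0 * bump α (p 0 + p 1 - δ) (p 1 - p 0 - δ) (p 0 + p 1, p 1 - p 0) ≤ u p := by
      refine ge_of_tendsto' (lim p) fun n => ?_
      have := w5 n _ _ (fun q hq => by rw [ϑ0 _ (hsq q hq), mul_zero]) _ hq
      rwa [rot_inv] at this
    refine lt_of_lt_of_le (mul_pos hf.t0pos ?_) h1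
    have h2 : 0 < Real.sin (α * δ) := Real.sin_pos_of_pos_of_lt_pi (mul_pos hf.α0 δ0)
      (by rw [lt_div_iff₀ hf.α0] at δ2; linarith)
    simp only [bump, sub_sub_cancel]
    positivity

end Pool.Agent.Lib.MP_6e1ed0_an
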