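import Pool.Agent.Lib.MP_6e1ed0_an.Energy

/-! Choice of the parameters and comparison of the two principal eigenvalues. -/

namespace Pool.Agent.Lib.MP_6e1ed0_an

open Set Filter Topology MeasureTheory Real Metric

theorem near_rot {q : ℝ × ℝ} {y : E2} (h : y ∈ closedBall (rot q) (1 / 10)) :
    |y 0 + y 1 - q.1| ≤ 1 / 5 ∧ |y 1 - y 0 - q.2| ≤ 1 / 5 := by
  have h0 := abs_le.1 ((PiLp.dist_apply_le y (rot q) 0).trans h)
  have h1 := abs_le.1 ((PiLp.dist_apply_le y (rot q) 1).trans h)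
  rw [rot_zero] at h0
  rw [rot_one] at h1
  exact ⟨abs_le.2 ⟨by linarith [h0.1, h1.1], by linarith [h0.2, h1.2]⟩,
    abs_le.2 ⟨by linarith [h0.2, h1.1], by linarith [h0.1, h1.2]⟩⟩

theorem zt_zero {n : ℕ} {L : ℝ} (hL : 0 < L) {q : ℝ × ℝ}
    (h : q ∉ {q : ℝ × ℝ | 1 ≤ max q.1 q.2} ∩ closedBall 0 (4 ^ n * (L + 2))) :
    zt n L q.1 q.2 = 0 := by
  by_contra h0
  refine h ⟨?_, ?_⟩
  · by_contra h1
    have h2 : max q.1 q.2 < 1 := not_le.1 h1
    unfold zt at h0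
    rw [(pf_low ((le_max_left _ _).trans h2.le)).1,
      (pf_low ((le_max_right _ _).trans h2.le)).1] at h0
    simp at h0
  · rw [mem_closedBall_zero_iff, Prod.norm_def, max_le_iff, norm_eq_abs, norm_eq_abs]
    constructor
    · by_contra h1
      unfold zt at h0
      rw [chi_comm, chi_high (by linarith) (not_le.1 h1).le] at h0
      simp at h0
    · by_contra h1
      unfold zt at h0
      rw [chi_high (by linarith) (not_le.1 h1).le] at h0
      simp at h0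

theorem pot_near {N L U v : ℝ} (hN : 1000 ≤ N) (hL : L = N ^ 2) (h : Par U v)
    (hv : 2 * v ≤ exp (-(L + 3))) {u : E2 → ℝ}
    (hu : IsSolution (ff U v) (epi fun x => -|x|) u) {q : ℝ × ℝ} {y : E2}
    (hy : y ∈ closedBall (rot q) (1 / 10)) (up : 1 / 4 ≤ max (y 0 + y 1) (y 1 - y 0)) :
    U * (Reg (2 * N) (L + 3 / 2) (3 / 2 + 2 * L / 3)).indicator (fun _ => (1 : ℝ)) q ≤
      PP U v (u y) := by
  have L6 : 10 ^ 6 ≤ L := by nlinarith
  have N0 : 0 < N := by linarith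
  obtain ⟨ε, hε⟩ : ∃ ε, ε = 1 / N := ⟨_, rfl⟩
  have ε0 : 0 < ε := by rw [hε]; positivity
  have eL : ε ^ 2 * L = 1 := by rw [hL, hε]; field_simp
  have e1 : ε ^ 2 ≤ 1 / 1000 := by nlinarith [sq_nonneg ε]
  have e2 : π / (2 * ε) ≤ 2 * N - 1 / 5 := by
    rw [show π / (2 * ε) = π / 2 * N by rw [hε]; field_simp]
    nlinarith [pi_lt_d2]
  have e3 : -(L + 3) ≤ -(1 + ε ^ 2 / 2) * (L + 3 / 2 + 1 / 5) := by nlinarith
  have e4 : 1 ≤ (1 + ε ^ 2 / 2) ^ 2 - ε ^ 2 := by nlinarith [sq_nonneg (ε ^ 2)]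
  have e5 : -(L + 3) ≤ -(29 / 20) * (3 / 2 + 2 * L / 3 + 1 / 5 + 6) := by linarith
  by_cases hq' : q ∈ Reg (2 * N) (L + 3 / 2) (3 / 2 + 2 * L / 3)
  swap
  · rw [indicator_of_notMem hq', mul_zero]; exact h.PP_nonneg _
  rw [indicator_of_mem hq', mul_one, ← rot_inv y]
  obtain ⟨a, b⟩ := near_rot hy
  rw [abs_le] at a b
  refine pot_ge h hu ε0 (by positivity) e4 e2 (hv.trans (exp_le_exp.2 e3))
    (hv.trans (exp_le_exp.2 e5)) (lt_max_iff.1 (lt_of_lt_of_le (by norm_num) up)) ?_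
  rcases hq' with k | k | k
  · exact Or.inl ⟨by simp only; linarith [k.1, a.2], by simp only; linarith [k.2, b.2]⟩
  · exact Or.inr (Or.inl ⟨by simp only; linarith [k.1, b.2], by simp only; linarith [k.2, a.2]⟩)
  · exact Or.inr (Or.inr ⟨by simp only; linarith [k.1, a.2], by simp only; linarith [k.2, b.2]⟩)

theorem up_near {q : ℝ × ℝ} (hq : 1 / 2 < max q.1 q.2) {y : E2}
    (hy : y ∈ closedBall (rot q) (1 / 10)) : 1 / 4 ≤ max (y 0 + y 1) (y 1 - y 0) := by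
  obtain ⟨a, b⟩ := near_rot hy
  rcases lt_max_iff.1 hq with k | k
  · exact le_max_of_le_left (by linarith [(abs_le.1 a).1])
  · exact le_max_of_le_right (by linarith [(abs_le.1 b).1])

theorem sub_near {R : ℝ} {q : ℝ × ℝ}
    (hq : q ∈ {q : ℝ × ℝ | 1 / 2 < max q.1 q.2} ∩ ball 0 (R + 1 / 2)) :
    closedBall (rot q) (1 / 10) ⊆
      rot '' ({q : ℝ × ℝ | 1 / 4 ≤ max q.1 q.2} ∩ closedBall 0 (R + 1)) := fun y hy => by
  refine ⟨(y 0 + y 1, y 1 - y 0), ⟨up_near hq.1 hy, ?_⟩, rot_inv y⟩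
  obtain ⟨a, b⟩ := near_rot hy
  have k := hq.2
  rw [mem_ball_zero_iff, Prod.norm_def, max_lt_iff, norm_eq_abs, norm_eq_abs, abs_lt,
    abs_lt] at k
  rw [mem_closedBall_zero_iff, Prod.norm_def, max_le_iff, norm_eq_abs, norm_eq_abs, abs_le,
    abs_le]
  rw [abs_le] at a b
  exact ⟨⟨by linarith [k.1.1, a.1], by linarith [k.1.2, a.2]⟩,
    ⟨by linarith [k.2.1, b.1], by linarith [k.2.2, b.2]⟩⟩

theorem zt_da (n : ℕ) (L : ℝ) (q : ℝ × ℝ) :
    HasDerivAt (fun t : ℝ => zt n L (q + t • ((1 : ℝ), (0 : ℝ))).1 (q + t • ((1 : ℝ), (0 : ℝ))).2)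
      (zt' n L q.1 q.2) 0 := by
  have := HasDerivAt.comp_const_add (f := fun a => zt n L a q.2) (f' := zt' n L q.1 q.2) q.1 0
    (by rw [add_zero]; exact hasDerivAt_zt n L q.1 q.2)
  simpa using this

theorem zt_db (n : ℕ) (L : ℝ) (q : ℝ × ℝ) :
    HasDerivAt (fun t : ℝ => zt n L (q + t • ((0 : ℝ), (1 : ℝ))).1 (q + t • ((0 : ℝ), (1 : ℝ))).2)
      (zt' n L q.2 q.1) 0 := by
  have := HasDerivAt.comp_const_add (f := fun a => zt n L a q.1) (f' := zt' n L q.2 q.1) q.2 0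
    (by rw [add_zero]; exact hasDerivAt_zt n L q.2 q.1)
  simpa [zt_comm n L q.1] using this

theorem G_bound {n : ℕ} {N L U v l : ℝ} (hN : 1000 ≤ N) (hL : L = N ^ 2) (hn : 80000 ≤ n)
    (hLn : 4 ^ n ≤ L / 20000) (hU : U = (π / (2 * (L + 8))) ^ 2) (h : Par U v)
    (hv : 2 * v ≤ exp (-(L + 3))) {u ψ : E2 → ℝ}
    (hu : IsSolution (ff U v) (epi fun x => -|x|) u)
    (hψ : IsSupersolution (fun p => ff' U v (u p)) (epi fun x => -|x|) l ψ) :
    0.01 / (4 ^ n * (L + 2)) ^ 2 ≤ 1 - l / 2 := by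
  have L6 : 10 ^ 6 ≤ L := by nlinarith
  have hw : 2 * N ≤ L / 500 := by nlinarith
  obtain ⟨R, hR⟩ : ∃ R, R = 4 ^ n * (L + 2) := ⟨_, rfl⟩
  have cm : Continuous fun q : ℝ × ℝ => max q.1 q.2 := by fun_prop
  have cK : IsCompact ({q : ℝ × ℝ | 1 / 4 ≤ max q.1 q.2} ∩ closedBall 0 (R + 1)) :=
    (isCompact_closedBall _ _).inter_left (isClosed_le continuous_const cm)
  obtain ⟨Φ, hΦ, hP⟩ := mollify_super hψ (cK.image continuous_rot) (δ := 1 / 10) (by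
    rintro _ ⟨q, hq, rfl⟩
    exact rot_mem_G (lt_max_iff.1 (lt_of_lt_of_le (by norm_num) hq.1))) (by norm_num)
  have cC : IsCompact ({q : ℝ × ℝ | 1 ≤ max q.1 q.2} ∩ closedBall 0 R) :=
    (isCompact_closedBall _ _).inter_left (isClosed_le continuous_const cm)
  have hs : tsupport (fun q : ℝ × ℝ => zt n L q.1 q.2) ⊆
      {q : ℝ × ℝ | 1 ≤ max q.1 q.2} ∩ closedBall 0 R :=
    closure_minimal (fun q hq => by_contra fun h => hq (zt_zero (by linarith) (hR ▸ h)))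
      cC.isClosed
  have oN : IsOpen ({q : ℝ × ℝ | 1 / 2 < max q.1 q.2} ∩ ball 0 (R + 1 / 2)) :=
    (isOpen_lt continuous_const cm).inter isOpen_ball
  have t1 : HasCompactSupport fun q : ℝ × ℝ => zt n L q.1 q.2 :=
    cC.of_isClosed_subset (isClosed_tsupport _) hs
  have t2 : tsupport (fun q : ℝ × ℝ => zt n L q.1 q.2) ⊆
      {q : ℝ × ℝ | 1 / 2 < max q.1 q.2} ∩ ball 0 (R + 1 / 2) := hs.trans fun q hq =>
    ⟨lt_of_lt_of_le (show (1 : ℝ) / 2 < 1 by norm_num) hq.1,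
      closedBall_subset_ball (show R < R + 1 / 2 by linarith) hq.2⟩
  have t3 : Continuous fun q : ℝ × ℝ => zt' n L q.2 q.1 :=
    Continuous.comp (g := fun q : ℝ × ℝ => zt' n L q.1 q.2) (f := Prod.swap)
      (continuous_zt' n L) continuous_swap
  have t4 : ∀ q ∈ {q : ℝ × ℝ | 1 / 2 < max q.1 q.2} ∩ ball 0 (R + 1 / 2),
      Laplacian.laplacian Φ (rot q) ≤ -(2 * (-(1 - l / 2) + U *
      (Reg (2 * N) (L + 3 / 2) (3 / 2 + 2 * L / 3)).indicator (fun _ => (1 : ℝ)) q)) *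
        Φ (rot q) := fun q hq => (hP _ (sub_near hq)).2 _ fun y hy => by
    have key := pot_near hN hL h hv hu hy (up_near hq.1 hy)
    simp only [ff']
    linarith
  obtain ⟨Y, iY, zY, hY⟩ := picone oN hΦ (continuous_zt n L) (continuous_zt' n L) t3 t1 t2
    (fun q hq => (hP _ (sub_near hq)).1) (zt_da n L) (zt_db n L) t4
  exact energy L6 hn hLn (w := 2 * N) (by linarith) hw hU iY zY hY

theorem compare {n : ℕ} {N : ℝ} (hN : 1000 ≤ N) (hn : 80000 ≤ n) (hLn : 4 ^ n ≤ N ^ 2 / 20000) :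
    ∃ U v, Par U v ∧ ∀ uQ uG : E2 → ℝ, IsSolution (ff U v) (epi fun x => |x|) uQ →
      IsSolution (ff U v) (epi fun x => -|x|) uG →
      princEig (fun p => ff' U v (uG p)) (epi fun x => -|x|) <
        princEig (fun p => ff' U v (uQ p)) (epi fun x => |x|) := by
  obtain ⟨L, hL⟩ : ∃ L, L = N ^ 2 := ⟨_, rfl⟩
  rw [← hL] at hLn
  have L6 : 10 ^ 6 ≤ L := by nlinarith
  obtain ⟨x, hx⟩ : ∃ x, x = π / (2 * (L + 8)) := ⟨_, rfl⟩
  have x0 : 0 < x := by rw [hx]; positivity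
  have x1 : x * (L + 8) = π / 2 := by rw [hx]; field_simp
  have p4 := pi_lt_four
  have x2 : x ≤ 1 / 100 := by nlinarith
  have two : ∀ t, 2 * exp t ≤ exp (t + 1) := fun t => by
    rw [exp_add]; nlinarith [add_one_le_exp 1, exp_pos t]
  have h : Par (x ^ 2) (exp (-(L + 4))) := ⟨by positivity, by nlinarith, exp_pos _, by
    rw [exp_neg, inv_eq_one_div]
    exact one_div_le_one_div_of_le (by norm_num) (by linarith [add_one_le_exp (L + 4)])⟩
  refine ⟨_, _, h, fun uQ uG hQ hG => ?_⟩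
  have pos : 0 < 0.01 / (4 ^ n * (L + 2)) ^ 2 := by positivity
  calc _ ≤ ((2 - 2 * (0.01 / (4 ^ n * (L + 2)) ^ 2) : ℝ) : EReal) := by
        refine sSup_le ?_
        rintro _ ⟨l, rfl, ψ, hψ⟩
        have := G_bound hN hL hn hLn (by rw [hx]) h
          ((two _).trans (exp_le_exp.2 (by linarith))) hG hψ
        exact EReal.coe_le_coe_iff.2 (by linarith)
    _ < ((2 : ℝ) : EReal) := EReal.coe_lt_coe_iff.2 (by linarith)
    _ ≤ _ := le_sSup (s := {e : EReal | ∃ l : ℝ, e = l ∧ ∃ ψ, IsSupersolution _ _ l ψ})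
        ⟨2, rfl, super_Q h (θ := 7 * x) (l := L + 6) (by linarith) (by positivity)
        (by linarith) (by nlinarith) (by nlinarith)
        ((two _).trans (exp_le_exp.2 (by nlinarith [mul_pos x0 x0]))) hQ⟩

theorem main : ∃ U v, Par U v ∧ ∀ uQ uG : E2 → ℝ, IsSolution (ff U v) (epi fun x => |x|) uQ →
    IsSolution (ff U v) (epi fun x => -|x|) uG →
    princEig (fun p => ff' U v (uG p)) (epi fun x => -|x|) <
      princEig (fun p => ff' U v (uQ p)) (epi fun x => |x|) := by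
  obtain ⟨n, hn⟩ : ∃ n : ℕ, 80000 ≤ n := ⟨_, le_rfl⟩
  have h4 : (1 : ℝ) ≤ 4 ^ n := one_le_pow₀ (by norm_num)
  exact compare (N := 1000 * 4 ^ n) (by linarith) hn (by nlinarith)

end Pool.Agent.Lib.MP_6e1ed0_an
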