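import Pool.Agent.Lib.MP_6e1ed0_an.QSuper

/-! A priori estimates for solutions on the domain with a reentrant corner. -/

namespace Pool.Agent.Lib.MP_6e1ed0_an

open Set Filter Topology Laplacian

variable {U v : ℝ}

theorem mem_closure_epi {φ : ℝ → ℝ} {p : E2} (h : φ (p 0) ≤ p 1) : p ∈ closure (epi φ) := by
  have t : Tendsto (fun t : ℝ => p + t • ey) (𝓝[>] 0) (𝓝 p) := by
    have : Continuous fun t : ℝ => p + t • ey := by fun_prop
    exact tendsto_nhdsWithin_of_tendsto_nhds (by simpa using this.tendsto 0)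
  refine mem_closure_of_tendsto t ?_
  filter_upwards [self_mem_nhdsWithin] with t ht
  have : (0 : ℝ) < t := ht
  show φ ((p + t • ey) 0) < (p + t • ey) 1
  simp; linarith

theorem IsSolution.bdry {f φ : ℝ → ℝ} (hφ : Continuous φ) {u : E2 → ℝ}
    (hu : IsSolution f (epi φ) u) {p : E2} (h : φ (p 0) = p 1) : u p = 0 := by
  refine hu.2.2.1 p ?_
  rw [(isOpen_epi hφ).frontier_eq]
  exact ⟨mem_closure_epi h.le, fun h' => (ne_of_lt h') h⟩

theorem IsSolution.mem {f φ : ℝ → ℝ} (hφ : Continuous φ) {u : E2 → ℝ}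
    (hu : IsSolution f (epi φ) u) {p : E2} (h : φ (p 0) ≤ p 1) : 0 ≤ u p ∧ u p ≤ 1 := by
  rcases eq_or_lt_of_le h with e | e
  · rw [hu.bdry hφ e]; exact ⟨le_rfl, zero_le_one⟩
  · exact ⟨(hu.2.2.2.1 p e).1.le, (hu.2.2.2.1 p e).2⟩

/-- A solution above a half-line, in rotated coordinates. -/
structure SolG (U v : ℝ) (W : ℝ × ℝ → ℝ) : Prop where
  cont : ContinuousOn W {q | 0 ≤ q.2}
  le1 : ∀ q : ℝ × ℝ, 0 ≤ q.2 → W q ≤ 1
  zero : ∀ q : ℝ × ℝ, q.1 ≤ 0 → q.2 = 0 → W q = 0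
  eq : ∀ q : ℝ × ℝ, 0 < q.2 → L2 W q (-FF U v (W q))

theorem cos_nonneg_aff {ε c t : ℝ} (hε : 0 < ε)
    (ht : t ∈ Icc (c - Real.pi / (2 * ε)) (c + Real.pi / (2 * ε))) :
    0 ≤ Real.cos (ε * (t - c)) := by
  have e : ε * (Real.pi / (2 * ε)) = Real.pi / 2 := by field_simp
  refine Real.cos_nonneg_of_neg_pi_div_two_le_of_le ?_ ?_
  · have := mul_le_mul_of_nonneg_left ht.1 hε.le
    nlinarith
  · have := mul_le_mul_of_nonneg_left ht.2 hε.le
    nlinarith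

theorem cos_zero_aff {ε c t : ℝ} (hε : 0 < ε)
    (ht : t ∈ Icc (c - Real.pi / (2 * ε)) (c + Real.pi / (2 * ε)))
    (ht' : t ∉ Ioo (c - Real.pi / (2 * ε)) (c + Real.pi / (2 * ε))) :
    Real.cos (ε * (t - c)) = 0 := by
  have e : ε * (Real.pi / (2 * ε)) = Real.pi / 2 := by field_simp
  rcases eq_or_lt_of_le ht.1 with h | h
  · rw [← h, sub_sub_cancel_left, mul_neg, Real.cos_neg, e, Real.cos_pi_div_two]
  rcases eq_or_lt_of_le ht.2 with h' | h'
  · rw [h', add_sub_cancel_left, e, Real.cos_pi_div_two]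
  exact (ht' ⟨h, h'⟩).elim

theorem L2.cos_exp (ε c μ d : ℝ) (q : ℝ × ℝ) :
    L2 (fun x => Real.cos (ε * (x.1 - c)) * Real.exp (-μ * (x.2 - d))) q
      ((μ ^ 2 - ε ^ 2) * (Real.cos (ε * (q.1 - c)) * Real.exp (-μ * (q.2 - d)))) := by
  refine (L2.prod (hasDerivAt_cos_aff ε c) ((hasDerivAt_sin_aff ε c q.1).fun_neg.mul_const ε)
    (hasDerivAt_exp_aff μ d) ((hasDerivAt_exp_aff μ d q.2).mul_const (-μ))).of_eq ?_
  ring

theorem SolG.strip (h : Par U v) {W : ℝ × ℝ → ℝ} (hW : SolG U v W) {ε μ : ℝ} (hε : 0 < ε)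
    (hμ : 0 ≤ μ) (hμε : 1 ≤ μ ^ 2 - ε ^ 2) {q : ℝ × ℝ} (h1 : q.1 ≤ -(Real.pi / (2 * ε)))
    (h2 : 0 ≤ q.2) : Real.exp (-μ * q.2) ≤ 1 - W q := by
  have hw : 0 < Real.pi / (2 * ε) := by positivity
  have z1 : ∀ x : ℝ × ℝ, 0 ≤ x.2 →
      Real.cos (ε * (x.1 - q.1)) * Real.exp (-μ * (x.2 - 0)) ≤ 1 := fun x hx =>
    mul_le_one₀ (Real.cos_le_one _) (Real.exp_pos _).le
      (Real.exp_le_one_iff.2 (by nlinarith))
  have := maxp (C := Icc (q.1 - Real.pi / (2 * ε)) (q.1 + Real.pi / (2 * ε)) ×ˢ Ici (0 : ℝ))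
    (D := Ioo (q.1 - Real.pi / (2 * ε)) (q.1 + Real.pi / (2 * ε)) ×ˢ Ioi (0 : ℝ))
    (isClosed_Icc.prod isClosed_Ici) (isOpen_Ioo.prod isOpen_Ioi)
    (prod_mono Ioo_subset_Icc_self Ioi_subset_Ici_self)
    (w := fun x => 1 - W x - Real.cos (ε * (x.1 - q.1)) * Real.exp (-μ * (x.2 - 0)))
    (B := 1) (c := 1) (κ := 0)
    ((continuousOn_const.sub (hW.cont.mono fun x hx => hx.2)).sub (by fun_prop))
    (fun x hx => by linarith [z1 x hx.2, hW.le1 x hx.2])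
    (fun x hx hx' => by
      by_cases e : x.1 ∈ Ioo (q.1 - Real.pi / (2 * ε)) (q.1 + Real.pi / (2 * ε))
      · have e2 : x.2 = 0 := le_antisymm (not_lt.1 fun h => hx' ⟨e, h⟩) hx.2
        rw [hW.zero x (by linarith [e.2]) e2]
        linarith [z1 x hx.2]
      · rw [cos_zero_aff hε hx.1 e]
        linarith [hW.le1 x hx.2])
    zero_le_one le_rfl (Or.inl one_pos) (fun x hx _ => by
      refine ⟨_, ((L2.const 1 x).sub (hW.eq x hx.2)).sub (L2.cos_exp ε q.1 μ 0 x), ?_⟩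
      have f := h.FF_le (hW.le1 x (le_of_lt hx.2))
      have z0 := mul_nonneg (cos_nonneg_aff hε (Ioo_subset_Icc_self hx.1))
        (Real.exp_pos (-μ * (x.2 - 0))).le
      nlinarith) q ⟨⟨by linarith, by linarith⟩, h2⟩
  simp only [sub_self, mul_zero, Real.cos_zero, sub_zero, one_mul] at this
  linarith

theorem rot_le_G {q : ℝ × ℝ} (h : 0 ≤ q.1 ∨ 0 ≤ q.2) : -|rot q 0| ≤ rot q 1 := by
  rw [rot_zero, rot_one]
  rcases h with h | h
  · linarith [le_abs_self ((q.1 - q.2) / 2)]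
  · linarith [neg_abs_le ((q.1 - q.2) / 2)]

theorem rot_mem_G {q : ℝ × ℝ} (h : 0 < q.1 ∨ 0 < q.2) : rot q ∈ epi fun x => -|x| := by
  show -|rot q 0| < rot q 1
  rw [rot_zero, rot_one]
  rcases h with h | h
  · linarith [le_abs_self ((q.1 - q.2) / 2)]
  · linarith [neg_abs_le ((q.1 - q.2) / 2)]

theorem cG : Continuous fun x : ℝ => -|x| := continuous_abs.neg

theorem L2_rot_G {u : E2 → ℝ} (hu : IsSolution (ff U v) (epi fun x => -|x|) u) {q : ℝ × ℝ}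
    (h : 0 < q.1 ∨ 0 < q.2) : L2 (fun q => u (rot q)) q (-FF U v (u (rot q))) := by
  refine (L2.rot (hu.1.contDiffAt ((isOpen_epi cG).mem_nhds (rot_mem_G h)))).of_eq ?_
  have := hu.2.2.2.2 _ (rot_mem_G h)
  unfold ff at this; linarith

theorem solG_one {u : E2 → ℝ} (hu : IsSolution (ff U v) (epi fun x => -|x|) u) :
    SolG U v fun q => u (rot q) where
  cont := hu.2.1.comp continuous_rot.continuousOn fun q hq =>
    mem_closure_epi (rot_le_G (Or.inr hq))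
  le1 := fun q hq => (hu.mem cG (rot_le_G (Or.inr hq))).2
  zero := fun q h1 h2 => hu.bdry cG (by
    rw [rot_zero, rot_one, h2, abs_of_nonpos (by linarith)]; ring)
  eq := fun q hq => L2_rot_G hu (Or.inr hq)

theorem solG_two {u : E2 → ℝ} (hu : IsSolution (ff U v) (epi fun x => -|x|) u) :
    SolG U v fun q => u (rot (q.2, q.1)) where
  cont := hu.2.1.comp (continuous_rot.comp (by fun_prop)).continuousOn fun q hq =>
    mem_closure_epi (rot_le_G (Or.inl hq))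
  le1 := fun q hq => (hu.mem cG (rot_le_G (q := (q.2, q.1)) (Or.inl hq))).2
  zero := fun q h1 h2 => hu.bdry cG (by
    rw [rot_zero, rot_one, h2, abs_of_nonneg (by simp only; linarith)]; ring)
  eq := fun q hq => L2.swap (W := fun q => u (rot q)) (L2_rot_G hu (Or.inl hq))

theorem corner (h : Par U v) {u : E2 → ℝ} (hu : IsSolution (ff U v) (epi fun x => -|x|) u)
    {p : E2} (hp : -|p 0| ≤ p 1) : Real.exp (-(29 / 20) * (p 1 + |p 0| + 6)) ≤ 1 - u p := by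
  set w := Real.pi / (2 * (3 / 10)) with hw
  have w0 : 0 < w := by positivity
  have w6 : w ≤ 6 := by
    rw [hw, div_le_iff₀ (by norm_num)]; linarith [Real.pi_lt_d2]
  have f0 : ∀ x : ℝ × ℝ, fr 0 ex ey x 0 = x.1 := fun x => by simp [fr_std_zero]
  have f1 : ∀ x : ℝ × ℝ, fr 0 ex ey x 1 = x.2 := fun x => by simp [fr_std_one]
  have m : ∀ x : ℝ × ℝ, -|x.1| ≤ x.2 → -|fr 0 ex ey x 0| ≤ fr 0 ex ey x 1 := fun x hx => by
    rwa [f0, f1]
  have z1 : ∀ x : ℝ × ℝ, x.1 ∈ Icc (p 0 - w) (p 0 + w) → -|x.1| ≤ x.2 →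
      Real.cos (3 / 10 * (x.1 - p 0)) * Real.exp (-(29 / 20) * (x.2 - (-|p 0| - 6))) ≤ 1 :=
    fun x hx hx' => mul_le_one₀ (Real.cos_le_one _) (Real.exp_pos _).le
      (Real.exp_le_one_iff.2 (by
        have : |x.1| ≤ |p 0| + 6 := abs_le.2
          ⟨by linarith [hx.1, neg_abs_le (p 0)], by linarith [hx.2, le_abs_self (p 0)]⟩
        linarith))
  have := maxp (C := {x : ℝ × ℝ | x.1 ∈ Icc (p 0 - w) (p 0 + w)} ∩ {x | -|x.1| ≤ x.2})
    (D := {x : ℝ × ℝ | x.1 ∈ Ioo (p 0 - w) (p 0 + w)} ∩ {x | -|x.1| < x.2})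
    ((isClosed_Icc.preimage continuous_fst).inter (isClosed_le (by fun_prop) continuous_snd))
    ((isOpen_Ioo.preimage continuous_fst).inter (isOpen_lt (by fun_prop) continuous_snd))
    (fun x hx => ⟨Ioo_subset_Icc_self hx.1, le_of_lt (a := -|x.1|) (b := x.2) hx.2⟩)
    (w := fun x => 1 - u (fr 0 ex ey x) -
      Real.cos (3 / 10 * (x.1 - p 0)) * Real.exp (-(29 / 20) * (x.2 - (-|p 0| - 6))))
    (B := 1) (c := 2) (κ := 0)
    ((continuousOn_const.sub (hu.2.1.comp (continuous_fr 0 ex ey).continuousOn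
      fun x hx => mem_closure_epi (m x hx.2))).sub (by fun_prop))
    (fun x hx => by linarith [z1 x hx.1 hx.2, (hu.mem cG (m x hx.2)).2])
    (fun x hx hx' => by
      by_cases e : x.1 ∈ Ioo (p 0 - w) (p 0 + w)
      · have e2 : -|x.1| = x.2 := le_antisymm hx.2 (not_lt.1 fun h => hx' ⟨e, h⟩)
        rw [hu.bdry cG (by rw [f0, f1]; exact e2)]
        linarith [z1 x hx.1 hx.2]
      · rw [cos_zero_aff (by norm_num) hx.1 e]
        linarith [(hu.mem cG (m x hx.2)).2])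
    zero_le_two le_rfl (Or.inl two_pos) (fun x hx _ => by
      have mx : fr 0 ex ey x ∈ epi fun x => -|x| := by
        show -|fr 0 ex ey x 0| < fr 0 ex ey x 1
        rw [f0, f1]; exact hx.2
      refine ⟨_, ((L2.const 1 x).sub (L2.std (hu.1.contDiffAt
        ((isOpen_epi cG).mem_nhds mx)))).sub (L2.cos_exp (3 / 10) (p 0) (29 / 20) _ x), ?_⟩
      have f := h.FF_le (hu.2.2.2.1 _ mx).2
      have e := hu.2.2.2.2 _ mx
      have z0 := mul_nonneg (cos_nonneg_aff (ε := 3 / 10) (by norm_num) (Ioo_subset_Icc_self hx.1))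
        (Real.exp_pos (-(29 / 20) * (x.2 - (-|p 0| - 6)))).le
      unfold ff at e
      nlinarith) (p 0, p 1) ⟨⟨by simp only; linarith, by simp only; linarith⟩, hp⟩
  simp only [sub_self, mul_zero, Real.cos_zero, one_mul, fr_std_inv] at this
  rw [show p 1 + |p 0| + 6 = p 1 - (-|p 0| - 6) by ring]
  linarith

/-- The region where the potential is switched on. -/
def Reg (w T A : ℝ) : Set (ℝ × ℝ) :=
  {q | (q.1 ≤ -w ∧ q.2 ≤ T) ∨ (q.2 ≤ -w ∧ q.1 ≤ T) ∨ (q.1 ≤ A ∧ q.2 ≤ A)}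

theorem pot_ge (h : Par U v) {u : E2 → ℝ} (hu : IsSolution (ff U v) (epi fun x => -|x|) u)
    {ε μ w T A : ℝ} (hε : 0 < ε) (hμ : 0 ≤ μ) (hμε : 1 ≤ μ ^ 2 - ε ^ 2)
    (hw : Real.pi / (2 * ε) ≤ w) (hT : 2 * v ≤ Real.exp (-μ * T))
    (hA : 2 * v ≤ Real.exp (-(29 / 20) * (A + 6))) {q : ℝ × ℝ} (hq : 0 < q.1 ∨ 0 < q.2)
    (hR : q ∈ Reg w T A) : U ≤ PP U v (u (rot q)) := by
  have w0 : 0 < Real.pi / (2 * ε) := by positivity
  refine h.PP_ge ?_
  rcases hR with ⟨r1, r2⟩ | ⟨r1, r2⟩ | ⟨r1, r2⟩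
  · have h2 : 0 < q.2 := hq.resolve_left (by linarith)
    refine hT.trans (le_trans ?_ ((solG_one hu).strip h hε hμ hμε (by linarith) h2.le))
    exact Real.exp_le_exp.2 (by nlinarith)
  · have h2 : 0 < q.1 := hq.resolve_right (by linarith)
    refine hT.trans (le_trans ?_ ((solG_two hu).strip h hε hμ hμε (q := (q.2, q.1))
      (by simp only; linarith) h2.le))
    exact Real.exp_le_exp.2 (by simp only; nlinarith)
  · refine hA.trans (le_trans ?_ (corner h hu (rot_le_G (hq.imp le_of_lt le_of_lt))))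
    refine Real.exp_le_exp.2 ?_
    rw [rot_zero, rot_one]
    have : |(q.1 - q.2) / 2| ≤ A - (q.1 + q.2) / 2 := abs_le.2 ⟨by linarith, by linarith⟩
    linarith

end Pool.Agent.Lib.MP_6e1ed0_an
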