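import Pool.Agent.Lib.MP_6e1ed0_an.Resolvent

/-! Monotone iteration for the penalised equation on the whole plane. -/

namespace Pool.Agent.Lib.MP_6e1ed0_an

open Set Filter Topology Laplacian MeasureTheory Metric
open scoped ContDiff

/-- The assumptions on the reaction used in the existence proof. -/
structure Good (f : ℝ → ℝ) (L α t0 : ℝ) : Prop where
  c1 : ContDiff ℝ 1 f
  f0 : f 0 = 0
  f1 : f 1 = 0
  L0 : 0 ≤ L
  nn : ∀ s ∈ Icc (0 : ℝ) 1, 0 ≤ f s
  mono : ∀ s ∈ Icc (0 : ℝ) 1, ∀ t ∈ Icc (0 : ℝ) 1, s ≤ t → f s + L * s ≤ f t + L * t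
  α0 : 0 < α
  t0pos : 0 < t0
  t01 : t0 ≤ 1
  kpp : ∀ s ∈ Icc (0 : ℝ) t0, 4 * α ^ 2 * s ≤ f s

theorem Good.le {f : ℝ → ℝ} {L α t0 : ℝ} (h : Good f L α t0) {s : ℝ} (hs : s ∈ Icc (0 : ℝ) 1) :
    f s ≤ L := by
  have := h.mono s hs 1 ⟨zero_le_one, le_rfl⟩ hs.2
  rw [h.f1] at this
  nlinarith [hs.1, h.L0]

theorem cmp_sub {w z : E2 → ℝ} (hw : ContDiff ℝ 2 w) (hz : ContDiff ℝ 2 z) {A B K : ℝ}
    (hA : ∀ x, |w x| ≤ A) (hB : ∀ x, |z x| ≤ B) (hK : 0 < K)
    (h : ∀ x, Δ w x - K * w x ≤ Δ z x - K * z x) (x : E2) : z x ≤ w x := by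
  have := cmp_glob (hw.sub hz) (B := A + B) (a := 0) (b := 0) (fun y => by
    have := abs_le.1 (hA y)
    have := abs_le.1 (hB y)
    linarith) hK le_rfl (fun y => by
      have := h y
      rw [lap_sub hw.contDiffAt hz.contDiffAt]; linarith) x
  linarith

/-- The square carrying a bump. -/
def Sq (α a0 b0 : ℝ) : Set (ℝ × ℝ) := Icc a0 (a0 + Real.pi / α) ×ˢ Icc b0 (b0 + Real.pi / α)

/-- The product of sines on the square. -/
noncomputable def bump (α a0 b0 : ℝ) (q : ℝ × ℝ) : ℝ :=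
  Real.sin (α * (q.1 - a0)) * Real.sin (α * (q.2 - b0))

theorem hasDerivAt_sin_aff (α c t : ℝ) :
    HasDerivAt (fun t => Real.sin (α * (t - c))) (Real.cos (α * (t - c)) * α) t := by
  have := (((hasDerivAt_id' t).sub_const c).const_mul α).sin
  simpa using this

theorem hasDerivAt_cos_aff (α c t : ℝ) :
    HasDerivAt (fun t => Real.cos (α * (t - c))) (-Real.sin (α * (t - c)) * α) t := by
  have := (((hasDerivAt_id' t).sub_const c).const_mul α).cos
  simpa using this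

theorem L2.bump (α a0 b0 : ℝ) (q : ℝ × ℝ) :
    L2 (bump α a0 b0) q (-(2 * α ^ 2) * bump α a0 b0 q) := by
  have := L2.prod (q := q) (hasDerivAt_sin_aff α a0) ((hasDerivAt_cos_aff α a0 q.1).mul_const α)
    (hasDerivAt_sin_aff α b0) ((hasDerivAt_cos_aff α b0 q.2).mul_const α)
  refine this.of_eq ?_
  unfold MP_6e1ed0_an.bump; ring

theorem sin_mem {α c t : ℝ} (hα : 0 < α) (ht : t ∈ Icc c (c + Real.pi / α)) :
    0 ≤ Real.sin (α * (t - c)) := by
  refine Real.sin_nonneg_of_nonneg_of_le_pi (mul_nonneg hα.le (by linarith [ht.1])) ?_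
  have : t - c ≤ Real.pi / α := by linarith [ht.2]
  rw [le_div_iff₀ hα] at this; linarith

theorem bump_mem {α a0 b0 : ℝ} (hα : 0 < α) {q : ℝ × ℝ} (hq : q ∈ Sq α a0 b0) :
    bump α a0 b0 q ∈ Icc (0 : ℝ) 1 :=
  ⟨mul_nonneg (sin_mem hα hq.1) (sin_mem hα hq.2),
    mul_le_one₀ (Real.sin_le_one _) (sin_mem hα hq.2) (Real.sin_le_one _)⟩

theorem bump_bdry {α a0 b0 : ℝ} (hα : 0 < α) {q : ℝ × ℝ} (hq : q ∈ Sq α a0 b0)
    (h : q ∉ Ioo a0 (a0 + Real.pi / α) ×ˢ Ioo b0 (b0 + Real.pi / α)) : bump α a0 b0 q = 0 := by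
  have key : ∀ c t, t ∈ Icc c (c + Real.pi / α) → t ∉ Ioo c (c + Real.pi / α) →
      Real.sin (α * (t - c)) = 0 := by
    intro c t h1 h2
    rcases eq_or_lt_of_le h1.1 with e | e
    · simp [← e]
    rcases eq_or_lt_of_le h1.2 with e' | e'
    · rw [e', add_sub_cancel_left, mul_div_cancel₀ _ hα.ne', Real.sin_pi]
    exact (h2 ⟨e, e'⟩).elim
  unfold bump
  by_cases h1 : q.1 ∈ Ioo a0 (a0 + Real.pi / α)
  · rw [key b0 q.2 hq.2 fun h2 => h ⟨h1, h2⟩, mul_zero]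
  · rw [key a0 q.1 hq.1 h1, zero_mul]

theorem continuous_bump (α a0 b0 : ℝ) : Continuous (bump α a0 b0) := by
  unfold bump; fun_prop

theorem cmp_bump {w g : E2 → ℝ} (hw : ContDiff ℝ 2 w) (h0 : ∀ x, 0 ≤ w x) {K α a0 b0 t : ℝ}
    (hK : 0 < K) (hα : 0 < α) (ht : 0 ≤ t) (h : ∀ x, Δ w x = K * w x - g x)
    (hg : ∀ q ∈ Sq α a0 b0, (K + 4 * α ^ 2) * (t * bump α a0 b0 q) ≤ g (rot q)) :
    ∀ q ∈ Sq α a0 b0, t * bump α a0 b0 q ≤ w (rot q) := by
  intro q hq
  have := maxp (C := Sq α a0 b0) (D := Ioo a0 (a0 + Real.pi / α) ×ˢ Ioo b0 (b0 + Real.pi / α))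
    (isClosed_Icc.prod isClosed_Icc) (isOpen_Ioo.prod isOpen_Ioo)
    (prod_mono Ioo_subset_Icc_self Ioo_subset_Icc_self)
    (w := fun q => w (rot q) - t * bump α a0 b0 q) (B := t) (c := K / 2) (κ := 0)
    (((hw.continuous.comp continuous_rot).sub
      (continuous_const.mul (continuous_bump _ _ _))).continuousOn)
    (fun q hq => by
      have := h0 (rot q)
      have := mul_le_mul_of_nonneg_left (bump_mem hα hq).2 ht
      linarith)
    (fun q hq hq' => by rw [bump_bdry hα hq hq']; simpa using h0 (rot q))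
    (by positivity) le_rfl (Or.inl (by positivity)) (fun q hq _ => by
      refine ⟨_, (L2.rot hw.contDiffAt).sub ((L2.bump α a0 b0 q).const_mul t), ?_⟩
      have := hg q (prod_mono Ioo_subset_Icc_self Ioo_subset_Icc_self hq)
      rw [h]; linarith) q hq
  linarith

/-- Existence of the maximal solution of the penalised problem. -/
theorem pen_exists {f : ℝ → ℝ} {L α t0 : ℝ} (hf : Good f L α t0) {c : E2 → ℝ}
    (hc : ContDiff ℝ 1 c) {C : ℝ} (c0 : ∀ x, 0 ≤ c x) (cC : ∀ x, c x ≤ C) :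
    ∃ u : E2 → ℝ, ContDiff ℝ 2 u ∧ (∀ x, u x ∈ Icc (0 : ℝ) 1) ∧
      (∀ x, Δ u x = c x * u x - f (u x)) ∧
      (∀ z : E2 → ℝ, ContDiff ℝ 2 z → (∀ x, z x ∈ Icc (0 : ℝ) 1) →
        (∀ x, c x * z x - f (z x) ≤ Δ z x) → ∀ x, z x ≤ u x) ∧
      ∀ a0 b0, (∀ q ∈ Sq α a0 b0, c (rot q) = 0) →
        ∀ q ∈ Sq α a0 b0, t0 * bump α a0 b0 q ≤ u (rot q) := by
  have C0 : 0 ≤ C := (c0 0).trans (cC 0)
  set K := C + L + 1 with hKdef
  have hK : 0 < K := by linarith [hf.L0]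
  set g : E2 → ℝ → ℝ := fun x s => f s + (K - c x) * s with hg
  have gmono : ∀ x, ∀ s ∈ Icc (0 : ℝ) 1, ∀ t ∈ Icc (0 : ℝ) 1, s ≤ t → g x s ≤ g x t := by
    intro x s hs t ht hst
    have h1 := hf.mono s hs t ht hst
    have h2 : 0 ≤ (K - c x - L) * (t - s) :=
      mul_nonneg (by linarith [cC x]) (by linarith)
    simp only [hg]; nlinarith
  have g0 : ∀ x, ∀ s ∈ Icc (0 : ℝ) 1, 0 ≤ g x s := fun x s hs => by
    have := gmono x 0 ⟨le_rfl, zero_le_one⟩ s hs hs.1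
    simpa [hg, hf.f0] using this
  have g1 : ∀ x, ∀ s ∈ Icc (0 : ℝ) 1, g x s ≤ K := fun x s hs => by
    have := gmono x s hs 1 ⟨zero_le_one, le_rfl⟩ hs.2
    simp only [hg, hf.f1] at this ⊢
    linarith [c0 x]
  have ab : ∀ {z : E2 → ℝ}, (∀ x, z x ∈ Icc (0 : ℝ) 1) → ∀ x, |z x| ≤ 1 := fun h x =>
    abs_le.2 ⟨by linarith [(h x).1], (h x).2⟩
  let S := {u : E2 → ℝ // ContDiff ℝ 2 u ∧ ∀ x, u x ∈ Icc (0 : ℝ) 1}
  have step : ∀ u : S, ∃ w : S, ∀ x, Δ w.1 x = K * w.1 x - g x (u.1 x) := by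
    intro u
    have u1 : ContDiff ℝ 1 u.1 := u.2.1.of_le (by norm_num)
    obtain ⟨w, w1, ⟨A, w2⟩, w3⟩ := resolvent hK (g := fun x => g x (u.1 x))
      ((hf.c1.comp u1).add ((contDiff_const.sub hc).mul u1)) (B := K) fun x =>
        abs_le.2 ⟨by linarith [g0 x _ (u.2.2 x)], g1 x _ (u.2.2 x)⟩
    refine ⟨⟨w, w1, fun x => ⟨?_, ?_⟩⟩, w3⟩
    · refine cmp_sub (z := fun _ => 0) w1 contDiff_const w2 (B := 0) (by simp) hK (fun y => ?_) x
      have := g0 y _ (u.2.2 y)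
      rw [w3]; simp only [InnerProductSpace.laplacian_const, Pi.zero_apply]; linarith
    · refine cmp_sub (w := fun _ => 1) contDiff_const w1 (A := 1) (by simp) w2 hK (fun y => ?_) x
      have := g1 y _ (u.2.2 y)
      rw [w3]; simp only [InnerProductSpace.laplacian_const, Pi.zero_apply]; linarith
  choose T hT using step
  let one : S := ⟨fun _ => 1, contDiff_const, fun _ => ⟨zero_le_one, le_rfl⟩⟩
  let v : ℕ → S := fun j => T^[j] one
  have vs : ∀ j, v (j + 1) = T (v j) := fun j => Function.iterate_succ_apply' T j one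
  have Tmono : ∀ a b : S, (∀ x, a.1 x ≤ b.1 x) → ∀ x, (T a).1 x ≤ (T b).1 x := by
    intro a b hab
    refine cmp_sub (T b).2.1 (T a).2.1 (ab (T b).2.2) (ab (T a).2.2) hK fun y => ?_
    have := gmono y _ (a.2.2 y) _ (b.2.2 y) (hab y)
    rw [hT, hT]; linarith
  have dec : ∀ j x, (v (j + 1)).1 x ≤ (v j).1 x := by
    intro j
    induction j with
    | zero => exact fun x => ((v 1).2.2 x).2
    | succ j ih =>
      intro x
      have := Tmono _ _ ih x
      rwa [← vs, ← vs] at this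
  set u : E2 → ℝ := fun x => ⨅ j, (v j).1 x with hu
  have lim : ∀ x, Tendsto (fun j => (v j).1 x) atTop (𝓝 (u x)) := fun x =>
    tendsto_atTop_ciInf (antitone_nat_of_succ_le fun j => dec j x)
      ⟨0, by rintro _ ⟨j, rfl⟩; exact ((v j).2.2 x).1⟩
  have um : ∀ x, u x ∈ Icc (0 : ℝ) 1 := fun x =>
    isClosed_Icc.mem_of_tendsto (lim x) (Eventually.of_forall fun j => (v j).2.2 x)
  obtain ⟨l1, l2⟩ := limit_weak isOpen_univ (w := fun j => (v (j + 1)).1) (u := u)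
    (F := fun x => c x * u x - f (u x)) (A := 1) (B := K)
    (fun j => (v (j + 1)).2.1.contDiffOn) (fun j x _ => ab (v (j + 1)).2.2 x)
    (fun j x _ => by
      have h1 := g0 x _ ((v j).2.2 x)
      have h2 := g1 x _ ((v j).2.2 x)
      have h3 := (T (v j)).2.2 x
      rw [vs, hT]
      exact abs_le.2 ⟨by nlinarith [h3.1], by nlinarith [h3.2]⟩)
    (fun x _ => (lim x).comp (tendsto_add_atTop_nat 1)) (fun x _ => by
      have h1 := (((lim x).comp (tendsto_add_atTop_nat 1)).const_mul K).sub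
        (((hf.c1.continuous.tendsto _).comp (lim x)).add ((lim x).const_mul (K - c x)))
      have e : K * u x - (f (u x) + (K - c x) * u x) = c x * u x - f (u x) := by ring
      rw [e] at h1
      refine h1.congr fun j => ?_
      simp only [Function.comp, vs, hT, hg])
  have r1 := reg1 isOpen_univ l1 ((hc.continuous.continuousOn.mul l1).sub
    (hf.c1.continuous.comp_continuousOn l1)) l2
  obtain ⟨r2, r3⟩ := reg2 isOpen_univ l1 ((hc.contDiffOn.mul r1).sub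
    (hf.c1.comp_contDiffOn r1)) l2
  refine ⟨u, contDiffOn_univ.1 r2, um, fun x => r3 x (mem_univ x), fun z z1 z2 z3 x => ?_,
    fun a0 b0 hsq q hq => ?_⟩
  · have : ∀ j x, z x ≤ (v j).1 x := by
      intro j
      induction j with
      | zero => exact fun x => (z2 x).2
      | succ j ih =>
        rw [vs]
        refine cmp_sub (T _).2.1 z1 (ab (T _).2.2) (ab z2) hK fun y => ?_
        have h1 := gmono y _ (z2 y) _ ((v j).2.2 y) (ih y)
        have h2 := z3 y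
        rw [hT]; simp only [hg] at h1 ⊢; linarith
    exact ge_of_tendsto' (lim x) fun j => this j x
  · have bm : ∀ q ∈ Sq α a0 b0, t0 * bump α a0 b0 q ∈ Icc 0 t0 := fun q hq =>
      ⟨mul_nonneg hf.t0pos.le (bump_mem hf.α0 hq).1,
        mul_le_of_le_one_right hf.t0pos.le (bump_mem hf.α0 hq).2⟩
    have : ∀ j, ∀ q ∈ Sq α a0 b0, t0 * bump α a0 b0 q ≤ (v j).1 (rot q) := by
      intro j
      induction j with
      | zero => exact fun q hq => (bm q hq).2.trans hf.t01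
      | succ j ih =>
        rw [vs]
        refine cmp_bump (T _).2.1 (fun x => ((T _).2.2 x).1) hK hf.α0 hf.t0pos.le (hT _)
          fun q hq => ?_
        have h1 := gmono (rot q) _ ⟨(bm q hq).1, (bm q hq).2.trans hf.t01⟩ _
          ((v j).2.2 (rot q)) (ih q hq)
        have h2 := hf.kpp _ (bm q hq)
        simp only [hg, hsq q hq] at h1 ⊢
        linarith
    exact ge_of_tendsto' (lim _) fun j => this j q hq

end Pool.Agent.Lib.MP_6e1ed0_an
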