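import Pool.Agent.Lib.MP_6e1ed0_an.GSide

/-! Mollified supersolutions and the Picone inequality. -/

namespace Pool.Agent.Lib.MP_6e1ed0_an

open Set Filter Topology Laplacian MeasureTheory Metric
open scoped ContDiff

theorem LocL2.locInt {Ω K : Set E2} {g : E2 → ℝ} (hg : LocL2 Ω g) (hK : IsCompact K)
    (hKΩ : K ⊆ Ω) : LocallyIntegrable (K.indicator g) := by
  have : IsFiniteMeasure (volume.restrict K) := isFiniteMeasure_restrict.2 hK.measure_ne_top
  exact (IntegrableOn.integrable_indicator ((hg K hKΩ hK).integrable one_le_two)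
    hK.measurableSet).locallyIntegrable

theorem LocL2.integrable_mul {Ω K : Set E2} {g θ : E2 → ℝ} (hg : LocL2 Ω g) (hK : IsCompact K)
    (hKΩ : K ⊆ Ω) (t : Test K θ) : Integrable fun x => g x * θ x := by
  have := (hg.locInt hK hKΩ).integrable_smul_right_of_hasCompactSupport t.1.continuous t.2.1
  refine this.congr (Eventually.of_forall fun x => ?_)
  by_cases hx : x ∈ tsupport θ
  · simp [indicator_of_mem (t.2.2 hx)]
  · simp [image_eq_zero_of_notMem_tsupport hx]

theorem mollify_super {V ψ : E2 → ℝ} {Ω K : Set E2} {l δ : ℝ}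
    (h : IsSupersolution V Ω l ψ) (hK : IsCompact K) (hKΩ : K ⊆ Ω) (hδ : 0 < δ) :
    ∃ Φ : E2 → ℝ, ContDiff ℝ ∞ Φ ∧ ∀ x, closedBall x δ ⊆ K → 0 < Φ x ∧
      ∀ c, (∀ y ∈ closedBall x δ, c ≤ V y + l) → Δ Φ x ≤ -c * Φ x := by
  obtain ⟨hc, hpos, D, DD, h0, h1, h2, h3⟩ := h
  set ρ := (bmp δ hδ).normed volume with hρ
  have li := h0.locInt hK hKΩ
  refine ⟨mol ρ (K.indicator ψ), contDiff_mol (test_bmp δ hδ) li, fun x hx => ?_⟩
  have tB : Test (closedBall x δ) fun y => ρ (x - y) :=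
    test_reflect (test_bmp δ hδ) (tsupport_bmp δ hδ) Subset.rfl
  have tK : Test K fun y => ρ (x - y) := ⟨tB.1, tB.2.1, tB.2.2.trans hx⟩
  have e0 : mol ρ (K.indicator ψ) x = ∫ y, ψ y * ρ (x - y) := by
    rw [mol_eq]; exact integral_congr_test tK fun y hy => indicator_of_mem hy ψ
  have ρ0 : ∀ y, 0 ≤ ρ y := fun y => (bmp δ hδ).nonneg_normed y
  have off : ∀ y ∉ closedBall x δ, ρ (x - y) = 0 := fun y hy =>
    image_eq_zero_of_notMem_tsupport (f := fun y => ρ (x - y)) fun h => hy (tB.2.2 h)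
  have iψ := h0.integrable_mul hK hKΩ tK
  constructor
  · obtain ⟨y0, hy0, hmin⟩ := (isCompact_closedBall x δ).exists_isMinOn
      ⟨x, mem_closedBall_self hδ.le⟩ (hc.mono (hx.trans hKΩ))
    have e1 : ∫ y, ψ y0 * ρ (x - y) = ψ y0 := by
      rw [integral_const_mul, integral_sub_left_eq_self ρ volume x, hρ,
        ContDiffBump.integral_normed, mul_one]
    rw [e0]
    refine (hpos y0 (hKΩ (hx hy0))).trans_le (e1.symm.le.trans (integral_mono
      ((tB.1.continuous.integrable_of_hasCompactSupport tB.2.1).const_mul _) iψ fun y => ?_))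
    by_cases hy : y ∈ closedBall x δ
    · exact mul_le_mul_of_nonneg_right (hmin hy) (ρ0 _)
    · simp [off y hy]
  · intro c hcV
    have key : ∀ i : Fin 2, ∫ y, ψ y * dd (EuclideanSpace.single i 1)
        (dd (EuclideanSpace.single i 1) fun y => ρ (x - y)) y = ∫ y, DD i i y * ρ (x - y) := by
      intro i
      have t1 := tK.dd (EuclideanSpace.single i 1)
      have a := (h1 i).2 _ t1.1 t1.2.1 (t1.2.2.trans hKΩ)
      have b := (h2 i i).2 _ tK.1 tK.2.1 (tK.2.2.trans hKΩ)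
      unfold dd at a ⊢
      rw [a, b, neg_neg]
    rw [lap_mol (test_bmp δ hδ) li, e0,
      integral_congr_test tK.lap (fun y hy => indicator_of_mem hy ψ), lap_fun tK.1]
    simp only [mul_add]
    rw [integral_add (h0.integrable_mul hK hKΩ ((tK.dd _).dd _))
      (h0.integrable_mul hK hKΩ ((tK.dd _).dd _)), key, key,
      ← integral_add ((h2 0 0).1.integrable_mul hK hKΩ tK) ((h2 1 1).1.integrable_mul hK hKΩ tK),
      ← integral_const_mul]
    refine integral_mono_ae (((h2 0 0).1.integrable_mul hK hKΩ tK).add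
      ((h2 1 1).1.integrable_mul hK hKΩ tK)) (iψ.const_mul _) ?_
    filter_upwards [h3] with y hy
    by_cases hb : y ∈ closedBall x δ
    · have a := hy (hKΩ (hx hb))
      have b := mul_le_mul_of_nonneg_right (hcV y hb) (hpos y (hKΩ (hx hb))).le
      have := mul_le_mul_of_nonneg_right (show DD 0 0 y + DD 1 1 y ≤ -c * ψ y by linarith)
        (ρ0 (x - y))
      linarith
    · simp [off y hb]

theorem lineDeriv_rot_a {G : E2 → ℝ} (hG : ContDiff ℝ ∞ G) (q : ℝ × ℝ) :
    HasDerivAt (fun t : ℝ => G (rot (q + t • (1, 0)))) (dd ea G (rot q)) 0 := by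
  have hl : HasDerivAt (fun t : ℝ => rot q + t • ea) ea 0 := by
    simpa using ((hasDerivAt_id (0 : ℝ)).smul_const ea).const_add (rot q)
  have h1 : HasFDerivAt G (fderiv ℝ G (rot q)) (rot q + (0 : ℝ) • ea) := by
    simpa using (hG.differentiable (by simp) (rot q)).hasFDerivAt
  have e : (fun t : ℝ => G (rot (q + t • (1, 0)))) = G ∘ fun t : ℝ => rot q + t • ea := by
    funext t
    simp only [Function.comp, rot, fr, Prod.fst_add, Prod.smul_fst, smul_eq_mul, mul_one,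
      Prod.snd_add, Prod.smul_snd, mul_zero, add_zero, add_smul]
    congr 1; abel
  rw [e]; exact h1.comp_hasDerivAt (0 : ℝ) hl

theorem lineDeriv_rot_b {G : E2 → ℝ} (hG : ContDiff ℝ ∞ G) (q : ℝ × ℝ) :
    HasDerivAt (fun t : ℝ => G (rot (q + t • (0, 1)))) (dd eb G (rot q)) 0 := by
  have hl : HasDerivAt (fun t : ℝ => rot q + t • eb) eb 0 := by
    simpa using ((hasDerivAt_id (0 : ℝ)).smul_const eb).const_add (rot q)
  have h1 : HasFDerivAt G (fderiv ℝ G (rot q)) (rot q + (0 : ℝ) • eb) := by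
    simpa using (hG.differentiable (by simp) (rot q)).hasFDerivAt
  have e : (fun t : ℝ => G (rot (q + t • (0, 1)))) = G ∘ fun t : ℝ => rot q + t • eb := by
    funext t
    simp only [Function.comp, rot, fr, Prod.fst_add, Prod.smul_fst, smul_eq_mul, mul_one,
      Prod.snd_add, Prod.smul_snd, mul_zero, add_zero, add_smul]
    congr 1; abel
  rw [e]; exact h1.comp_hasDerivAt (0 : ℝ) hl

theorem lap_rot {G : E2 → ℝ} (hG : ContDiff ℝ ∞ G) (x : E2) :
    dd ea (dd ea G) x + dd eb (dd eb G) x = Δ G x / 2 := by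
  have h2 : ContDiffAt ℝ 2 G x := (hG.of_le two_le_inf).contDiffAt
  rw [dd_dd h2, dd_dd h2, lap_eq]
  simp only [Hs, ea, eb, map_smul, map_add, map_sub, _root_.smul_apply, _root_.add_apply,
    _root_.sub_apply, smul_eq_mul]
  ring

theorem integrable_mul_cs {N : Set (ℝ × ℝ)} (hN : IsOpen N) {g η ζ : ℝ × ℝ → ℝ}
    (hg : ContinuousOn g N) (hη : Continuous η) (hζ : Continuous ζ) (hs : HasCompactSupport ζ)
    (hsub : tsupport ζ ⊆ N) : Integrable fun q => ζ q * η q * g q := by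
  have h1 : tsupport (fun q => ζ q * η q * g q) ⊆ tsupport ζ :=
    (tsupport_mul_subset_left (f := fun q => ζ q * η q) (g := g)).trans
      (tsupport_mul_subset_left (f := ζ) (g := η))
  exact (((hζ.mul hη).continuousOn.mul hg).continuous_of_tsupport_subset hN
    (h1.trans hsub)).integrable_of_hasCompactSupport
    (hs.of_isClosed_subset (isClosed_tsupport _) h1)

theorem picone_dir {N : Set (ℝ × ℝ)} (hN : IsOpen N) {G G1 G2 ζ ζ1 : ℝ × ℝ → ℝ} {e : ℝ × ℝ}
    (cG : Continuous G) (cG1 : Continuous G1) (cG2 : Continuous G2) (cζ : Continuous ζ)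
    (cζ1 : Continuous ζ1) (hs : HasCompactSupport ζ) (hsub : tsupport ζ ⊆ N)
    (pos : ∀ q ∈ N, 0 < G q)
    (d0 : ∀ q, HasDerivAt (fun t : ℝ => G (q + t • e)) (G1 q) 0)
    (d1 : ∀ q, HasDerivAt (fun t : ℝ => G1 (q + t • e)) (G2 q) 0)
    (dz : ∀ q, HasDerivAt (fun t : ℝ => ζ (q + t • e)) (ζ1 q) 0) :
    ∃ Y : ℝ × ℝ → ℝ, Integrable Y ∧ ∫ q, Y q = 0 ∧
      ∀ q, Y q ≤ ζ1 q ^ 2 + ζ q ^ 2 * (G2 q / G q) := by
  have c1 : ContinuousOn (fun q => G1 q / G q) N :=
    cG1.continuousOn.div cG.continuousOn fun q hq => (pos q hq).ne'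
  have c2 : ContinuousOn (fun q => (G2 q * G q - G1 q * G1 q) / G q ^ 2) N :=
    ContinuousOn.div (by fun_prop) (by fun_prop) fun q hq => (pow_pos (pos q hq) 2).ne'
  have i1 := integrable_mul_cs hN c1 (η := fun q => 2 * ζ1 q) (by fun_prop) cζ hs hsub
  have i2 := integrable_mul_cs hN c2 cζ cζ hs hsub
  have i3 := integrable_mul_cs hN c1 cζ cζ hs hsub
  have key := integral_bilinear_hasLineDerivAt_right_eq_neg_left_of_integrable
    (μ := (volume : Measure (ℝ × ℝ))) (B := ContinuousLinearMap.mul ℝ ℝ)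
    (f := fun q => ζ q * ζ q) (f' := fun q => ζ q * (2 * ζ1 q)) (g := fun q => G1 q / G q)
    (g' := fun q => (G2 q * G q - G1 q * G1 q) / G q ^ 2) (v := e) i1 i2 i3
    (fun q _ => by
      have := (dz q).fun_mul (dz q)
      refine HasDerivAt.congr_deriv this ?_
      simp only [zero_smul, add_zero]; ring)
    (fun q hq => by
      have hq2 := pos q (hsub (tsupport_mul_subset_left (f := ζ) (g := ζ) hq))
      have := (d1 q).fun_div (d0 q) (by simpa using hq2.ne')
      refine HasDerivAt.congr_deriv this ?_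
      simp only [zero_smul, add_zero])
  refine ⟨fun q => ζ q * ζ q * ((G2 q * G q - G1 q * G1 q) / G q ^ 2) +
    ζ q * (2 * ζ1 q) * (G1 q / G q), i2.add i1, ?_, fun q => ?_⟩
  · rw [integral_add i2 i1]
    simp only [ContinuousLinearMap.mul_apply'] at key
    rw [key]; ring
  · by_cases hq : q ∈ tsupport ζ
    · have hq2 := pos q (hsub hq)
      have e1 : (G2 q * G q - G1 q * G1 q) / G q ^ 2 = G2 q / G q - (G1 q / G q) ^ 2 := by
        field_simp
      simp only [e1]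
      nlinarith [sq_nonneg (ζ1 q - ζ q * (G1 q / G q))]
    · simp only [image_eq_zero_of_notMem_tsupport hq]
      nlinarith [sq_nonneg (ζ1 q)]

theorem picone {N : Set (ℝ × ℝ)} (hN : IsOpen N) {Φ : E2 → ℝ} (hΦ : ContDiff ℝ ∞ Φ)
    {ζ ζa ζb c : ℝ × ℝ → ℝ} (cζ : Continuous ζ) (ca : Continuous ζa) (cb : Continuous ζb)
    (hs : HasCompactSupport ζ) (hsub : tsupport ζ ⊆ N) (pos : ∀ q ∈ N, 0 < Φ (rot q))
    (da : ∀ q, HasDerivAt (fun t : ℝ => ζ (q + t • (1, 0))) (ζa q) 0)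
    (db : ∀ q, HasDerivAt (fun t : ℝ => ζ (q + t • (0, 1))) (ζb q) 0)
    (hc : ∀ q ∈ N, Δ Φ (rot q) ≤ -(2 * c q) * Φ (rot q)) :
    ∃ Y : ℝ × ℝ → ℝ, Integrable Y ∧ ∫ q, Y q = 0 ∧
      ∀ q, Y q ≤ ζa q ^ 2 + ζb q ^ 2 - c q * ζ q ^ 2 := by
  have cr := continuous_rot
  obtain ⟨Y1, a1, a2, a3⟩ := picone_dir hN (hΦ.continuous.comp cr)
    ((contDiff_dd hΦ ea).continuous.comp cr)
    ((contDiff_dd (contDiff_dd hΦ ea) ea).continuous.comp cr) cζ ca hs hsub pos
    (lineDeriv_rot_a hΦ) (lineDeriv_rot_a (contDiff_dd hΦ ea)) da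
  obtain ⟨Y2, b1, b2, b3⟩ := picone_dir hN (hΦ.continuous.comp cr)
    ((contDiff_dd hΦ eb).continuous.comp cr)
    ((contDiff_dd (contDiff_dd hΦ eb) eb).continuous.comp cr) cζ cb hs hsub pos
    (lineDeriv_rot_b hΦ) (lineDeriv_rot_b (contDiff_dd hΦ eb)) db
  refine ⟨fun q => Y1 q + Y2 q, a1.add b1, by rw [integral_add a1 b1, a2, b2, add_zero],
    fun q => ?_⟩
  have a4 := a3 q
  have b4 := b3 q
  simp only [Function.comp] at a4 b4
  by_cases hq : q ∈ tsupport ζ
  · have hq2 := pos q (hsub hq)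
    have h1 : dd ea (dd ea Φ) (rot q) / Φ (rot q) + dd eb (dd eb Φ) (rot q) / Φ (rot q) ≤ -c q := by
      rw [← add_div, lap_rot hΦ, div_le_iff₀ hq2]
      linarith [hc q (hsub hq)]
    have := mul_le_mul_of_nonneg_left h1 (sq_nonneg (ζ q))
    linarith
  · rw [image_eq_zero_of_notMem_tsupport hq] at a4 b4 ⊢
    linarith

end Pool.Agent.Lib.MP_6e1ed0_an
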