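import Pool.Agent.Lib.MP_6e1ed0_an.Picone

/-! The one-dimensional profile of the test function and its integrals. -/

namespace Pool.Agent.Lib.MP_6e1ed0_an

open Set Filter Topology MeasureTheory Real

theorem hasDerivAt_sin_min (x : ℝ) :
    HasDerivAt (fun x => sin (min x (π / 2))) (cos (min x (π / 2))) x := by
  rcases lt_trichotomy x (π / 2) with h | h | h
  · rw [min_eq_left h.le]
    refine (hasDerivAt_sin x).congr_of_eventuallyEq ?_
    filter_upwards [Iio_mem_nhds h] with y hy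
    rw [min_eq_left (le_of_lt hy)]
  · subst h
    have a : HasDerivWithinAt (fun x => sin (min x (π / 2))) 0 (Iic (π / 2)) (π / 2) := by
      have := (hasDerivAt_sin (π / 2)).hasDerivWithinAt (s := Iic (π / 2))
      rw [cos_pi_div_two] at this
      exact this.congr (fun y hy => by rw [min_eq_left hy]) (by simp)
    have b : HasDerivWithinAt (fun x => sin (min x (π / 2))) 0 (Ici (π / 2)) (π / 2) :=
      (hasDerivWithinAt_const (π / 2) (Ici (π / 2)) (1 : ℝ)).congr
        (fun y hy => by rw [min_eq_right hy, sin_pi_div_two]) (by simp)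
    have := a.union b
    rw [Iic_union_Ici, hasDerivWithinAt_univ] at this
    simpa using this
  · rw [min_eq_right h.le, cos_pi_div_two]
    refine (hasDerivAt_const x (1 : ℝ)).congr_of_eventuallyEq ?_
    filter_upwards [Ioi_mem_nhds h] with y hy
    rw [min_eq_right (le_of_lt hy), sin_pi_div_two]

/-- The inner phase. -/
noncomputable def jm (t : ℝ) : ℝ := ((max (-1 + 1 * t) 0) ^ 2 - (max (-2 + 1 * t) 0) ^ 2) / 2
noncomputable def jm' (t : ℝ) : ℝ := max (-1 + 1 * t) 0 - max (-2 + 1 * t) 0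

theorem hasDerivAt_jm (t : ℝ) : HasDerivAt jm (jm' t) t := by
  have := ((hasDerivAt_pp_aff 0 (-1) 1 t).fun_sub (hasDerivAt_pp_aff 0 (-2) 1 t)).div_const 2
  refine this.congr_deriv ?_
  unfold jm'; push_cast; ring

theorem jm_low {t : ℝ} (h : t ≤ 1) : jm t = 0 ∧ jm' t = 0 := by
  unfold jm jm'
  rw [max_eq_right (by linarith), max_eq_right (by linarith)]; simp

theorem jm_high {t : ℝ} (h : 2 ≤ t) : jm t = t - 3 / 2 ∧ jm' t = 1 := by
  unfold jm jm'
  rw [max_eq_left (by linarith), max_eq_left (by linarith)]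
  constructor <;> ring

theorem jm_nonneg (t : ℝ) : 0 ≤ jm t ∧ 0 ≤ jm' t ∧ jm' t ≤ 1 := by
  rcases le_total t 1 with h | h
  · simp [jm_low h]
  rcases le_total 2 t with h2 | h2
  · rw [(jm_high h2).1, (jm_high h2).2]; exact ⟨by linarith, zero_le_one, le_rfl⟩
  unfold jm jm'
  rw [max_eq_left (by linarith), max_eq_right (by linarith)]
  exact ⟨by nlinarith, by linarith, by linarith⟩

/-- The profile `p` and its derivative. -/
noncomputable def pf (L t : ℝ) : ℝ := 1 - sin (min (π / (2 * L) * jm t) (π / 2))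
noncomputable def pf' (L t : ℝ) : ℝ :=
  -(cos (min (π / (2 * L) * jm t) (π / 2)) * (π / (2 * L) * jm' t))

theorem hasDerivAt_pf (L t : ℝ) : HasDerivAt (pf L) (pf' L t) t :=
  ((hasDerivAt_sin_min _).comp t ((hasDerivAt_jm t).const_mul (π / (2 * L)))).const_sub 1

theorem continuous_pf (L : ℝ) : Continuous (pf L) := by unfold pf jm; fun_prop
theorem continuous_pf' (L : ℝ) : Continuous (pf' L) := by unfold pf' jm jm'; fun_prop

variable {L : ℝ}

theorem pf_mem (hL : 0 < L) (t : ℝ) : 0 ≤ pf L t ∧ pf L t ≤ 1 := by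
  have h0 : 0 ≤ min (π / (2 * L) * jm t) (π / 2) :=
    le_min (mul_nonneg (by positivity) (jm_nonneg t).1) (by positivity)
  have h1 := sin_nonneg_of_nonneg_of_le_pi h0 ((min_le_right _ _).trans (by linarith [pi_pos]))
  unfold pf
  exact ⟨by linarith [sin_le_one (min (π / (2 * L) * jm t) (π / 2))], by linarith⟩

theorem pf_low {t : ℝ} (h : t ≤ 1) : pf L t = 1 ∧ pf' L t = 0 := by
  unfold pf pf'
  rw [(jm_low h).1, (jm_low h).2, mul_zero, min_eq_left (by positivity)]; simp

theorem pf_high (hL : 1 ≤ L) {t : ℝ} (h : L + 3 / 2 ≤ t) : pf L t = 0 ∧ pf' L t = 0 := by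
  unfold pf pf'
  have : π / 2 ≤ π / (2 * L) * (t - 3 / 2) := by
    calc π / 2 = π / (2 * L) * L := by field_simp
      _ ≤ _ := by gcongr; linarith
  rw [(jm_high (by linarith)).1, min_eq_right this]; simp

theorem pf_mid (hL : 1 ≤ L) {t : ℝ} (h : 2 ≤ t) (h' : t ≤ L + 3 / 2) :
    pf L t = 1 - sin (π / (2 * L) * (t - 3 / 2)) ∧
    pf' L t = -(cos (π / (2 * L) * (t - 3 / 2)) * (π / (2 * L))) := by
  unfold pf pf'
  have : π / (2 * L) * (t - 3 / 2) ≤ π / 2 := by
    calc _ ≤ π / (2 * L) * L := by gcongr; linarith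
      _ = _ := by field_simp
  rw [(jm_high h).1, (jm_high h).2, min_eq_left this]; simp

theorem int_ind {g : ℝ → ℝ} (hg : Continuous g) (a b : ℝ) :
    Integrable ((Icc a b).indicator g) :=
  (hg.continuousOn.integrableOn_compact isCompact_Icc).integrable_indicator measurableSet_Icc

theorem integral_ind {g G : ℝ → ℝ} (hg : Continuous g) (h : ∀ t, HasDerivAt G (g t) t) {a b : ℝ}
    (hab : a ≤ b) : ∫ t, (Icc a b).indicator g t = G b - G a := by
  rw [integral_indicator measurableSet_Icc, integral_Icc_eq_integral_Ioc,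
    ← intervalIntegral.integral_of_le hab]
  exact intervalIntegral.integral_eq_sub_of_hasDerivAt (fun t _ => h t) (hg.intervalIntegrable _ _)

theorem integral_ind_const (c : ℝ) {a b : ℝ} (hab : a ≤ b) :
    ∫ t, (Icc a b).indicator (fun _ => c) t = c * (b - a) := by
  rw [integral_ind continuous_const (G := fun t => c * t) (fun t => by
    simpa using (hasDerivAt_id' t).const_mul c) hab]; ring

theorem anti_sc {θ : ℝ} (hθ : θ ≠ 0) (t : ℝ) :
    HasDerivAt (fun t => sin (θ * (t - 3 / 2)) * cos (θ * (t - 3 / 2)) / (2 * θ))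
      (1 / 2 - sin (θ * (t - 3 / 2)) ^ 2) t := by
  have := ((hasDerivAt_sin_aff θ (3 / 2) t).fun_mul (hasDerivAt_cos_aff θ (3 / 2) t)).div_const
    (2 * θ)
  refine this.congr_deriv ?_
  have e := sin_sq_add_cos_sq (θ * (t - 3 / 2))
  generalize sin (θ * (t - 3 / 2)) = s at *
  generalize cos (θ * (t - 3 / 2)) = c at *
  field_simp
  linear_combination e

theorem anti_c {θ : ℝ} (hθ : θ ≠ 0) (t : ℝ) :
    HasDerivAt (fun t => cos (θ * (t - 3 / 2)) / θ) (-sin (θ * (t - 3 / 2))) t := by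
  refine ((hasDerivAt_cos_aff θ (3 / 2) t).div_const θ).congr_deriv ?_
  field_simp

theorem integrable_pf'_sq (hL : 1 ≤ L) : Integrable fun t => pf' L t ^ 2 := by
  refine ((continuous_pf' L).pow 2).integrable_of_hasCompactSupport
    (HasCompactSupport.intro (isCompact_Icc (a := 1) (b := L + 3 / 2)) fun t ht => ?_)
  rcases le_total t 1 with h | h
  · simp [(pf_low (L := L) h).2]
  · have : L + 3 / 2 ≤ t := by
      by_contra h'; exact ht ⟨h, (not_le.1 h').le⟩
    simp [(pf_high hL this).2]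

theorem I1_le (hL : 1 ≤ L) : ∫ t, pf' L t ^ 2 ≤ (π / (2 * L)) ^ 2 * (1 + L / 2) := by
  set θ := π / (2 * L) with hθ
  have θ0 : 0 < θ := by positivity
  have θL : θ * L = π / 2 := by rw [hθ]; field_simp
  have c1 : Continuous fun t => θ ^ 2 * (1 - sin (θ * (t - 3 / 2)) ^ 2) := by fun_prop
  have h : ∫ t, pf' L t ^ 2 ≤ ∫ t, ((Icc 1 2).indicator (fun _ => θ ^ 2) t +
      (Icc (3 / 2) (L + 3 / 2)).indicator
        (fun t => θ ^ 2 * (1 - sin (θ * (t - 3 / 2)) ^ 2)) t) := by
    refine integral_mono (integrable_pf'_sq hL)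
      ((int_ind continuous_const _ _).add (int_ind c1 _ _)) fun t => ?_
    have n1 : 0 ≤ (Icc (1 : ℝ) 2).indicator (fun _ => θ ^ 2) t :=
      indicator_nonneg (fun _ _ => by positivity) t
    have n2 : 0 ≤ (Icc (3 / 2) (L + 3 / 2)).indicator
        (fun t => θ ^ 2 * (1 - sin (θ * (t - 3 / 2)) ^ 2)) t :=
      indicator_nonneg (fun s _ => mul_nonneg (by positivity) (by linarith [sin_sq_le_one (θ * (s - 3 / 2))])) t
    show pf' L t ^ 2 ≤ _ + _
    rcases le_total t 1 with h1 | h1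
    · rw [(pf_low h1).2]; linarith
    rcases le_total t 2 with h2 | h2
    · rw [indicator_of_mem (show t ∈ Icc 1 2 from ⟨h1, h2⟩)]
      have a := jm_nonneg t
      have b := cos_sq_le_one (min (θ * jm t) (π / 2))
      have c : jm' t ^ 2 ≤ 1 := by nlinarith [a.2.1, a.2.2]
      have d : cos (min (θ * jm t) (π / 2)) ^ 2 * jm' t ^ 2 ≤ 1 :=
        mul_le_one₀ b (by positivity) c
      have e : pf' L t ^ 2 = θ ^ 2 * (cos (min (θ * jm t) (π / 2)) ^ 2 * jm' t ^ 2) := by
        unfold pf'; ring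
      have := mul_le_mul_of_nonneg_left d (sq_nonneg θ)
      linarith
    rcases le_total t (L + 3 / 2) with h3 | h3
    · rw [indicator_of_mem (show t ∈ Icc (3 / 2) (L + 3 / 2) from ⟨by linarith, h3⟩),
        (pf_mid hL h2 h3).2, ← cos_sq']
      linarith
    · rw [(pf_high hL h3).2]; linarith
  rw [integral_add (int_ind continuous_const _ _) (int_ind c1 _ _),
    integral_ind_const _ (by norm_num), integral_ind c1
      (G := fun t => θ ^ 2 * (t / 2 + sin (θ * (t - 3 / 2)) * cos (θ * (t - 3 / 2)) / (2 * θ)))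
      (fun t => ((((hasDerivAt_id' t).div_const 2).fun_add (anti_sc θ0.ne' t)).const_mul
        (θ ^ 2)).congr_deriv (by ring)) (by linarith)] at h
  simp only [add_sub_cancel_right, θL, cos_pi_div_two, sub_self, mul_zero, sin_zero, zero_mul,
    zero_div, add_zero] at h
  linarith

theorem I2_ge (hL : 1 ≤ L) :
    L / 2 - 1 / 4 ≤ ∫ t, (Icc 0 (L + 3 / 2)).indicator (fun t => (1 - pf L t) ^ 2) t := by
  set θ := π / (2 * L) with hθ
  have θ0 : 0 < θ := by positivity
  have θL : θ * L = π / 2 := by rw [hθ]; field_simp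
  have θ2 : θ ≤ π / 2 := by nlinarith
  have c1 : Continuous fun t => sin (θ * (t - 3 / 2)) ^ 2 := by fun_prop
  have cp := continuous_pf L
  refine le_trans ?_ (integral_mono (int_ind c1 2 (L + 3 / 2)) (int_ind (by fun_prop) _ _)
    fun t => ?_)
  · rw [integral_ind c1
      (G := fun t => t / 2 - sin (θ * (t - 3 / 2)) * cos (θ * (t - 3 / 2)) / (2 * θ))
      (fun t => (((hasDerivAt_id' t).div_const 2).fun_sub (anti_sc θ0.ne' t)).congr_deriv
        (by ring)) (by linarith)]
    simp only [add_sub_cancel_right, θL, cos_pi_div_two, mul_zero, zero_div, sub_zero]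
    have : 0 ≤ sin (θ * (2 - 3 / 2)) * cos (θ * (2 - 3 / 2)) / (2 * θ) :=
      div_nonneg (mul_nonneg (sin_nonneg_of_nonneg_of_le_pi (by positivity) (by linarith [pi_pos]))
        (cos_nonneg_of_neg_pi_div_two_le_of_le (by linarith [pi_pos]) (by linarith))) (by positivity)
    linarith
  · by_cases ht : t ∈ Icc 2 (L + 3 / 2)
    · rw [indicator_of_mem ht, indicator_of_mem (show t ∈ Icc 0 (L + 3 / 2) from
        ⟨by linarith [ht.1], ht.2⟩), (pf_mid hL ht.1 ht.2).1]
      simp [hθ]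
    · rw [indicator_of_notMem ht]
      exact indicator_nonneg (fun _ _ => by positivity) t

theorem anti_G {θ : ℝ} (hθ : θ ≠ 0) (t : ℝ) :
    HasDerivAt (fun t => 3 / 2 * t + 2 * (cos (θ * (t - 3 / 2)) / θ) -
      sin (θ * (t - 3 / 2)) * cos (θ * (t - 3 / 2)) / (2 * θ))
      ((1 - sin (θ * (t - 3 / 2))) ^ 2) t :=
  ((((hasDerivAt_id' t).const_mul (3 / 2)).fun_add ((anti_c hθ t).const_mul 2)).fun_sub
    (anti_sc hθ t)).congr_deriv (by ring)

theorem inv_theta (hL : 1 ≤ L) : 0.6366 * L ≤ 1 / (π / (2 * L)) ∧ 1 / (π / (2 * L)) ≤ 0.6367 * L := by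
  have := pi_gt_d4
  have := pi_lt_d4
  rw [one_div_div, le_div_iff₀ pi_pos, div_le_iff₀ pi_pos]
  constructor <;> nlinarith

theorem J_le (hL : 1 ≤ L) {w : ℝ} (hw : 0 ≤ w) :
    ∫ t, (Icc (-w) (L + 3 / 2)).indicator (fun t => pf L t ^ 2) t ≤ w + 2 + 0.2268 * L := by
  set θ := π / (2 * L) with hθ
  have θ0 : 0 < θ := by positivity
  have θL : θ * L = π / 2 := by rw [hθ]; field_simp
  have c1 : Continuous fun t => (1 - sin (θ * (t - 3 / 2))) ^ 2 := by fun_prop
  have cp := continuous_pf L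
  refine (integral_mono (int_ind (by fun_prop) _ _)
    ((int_ind (continuous_const (y := (1 : ℝ))) (-w) 2).add (int_ind c1 (3 / 2) (L + 3 / 2)))
    fun t => ?_).trans ?_
  · have n1 : 0 ≤ (Icc (-w) 2).indicator (fun _ => (1 : ℝ)) t :=
      indicator_nonneg (fun _ _ => zero_le_one) t
    have n2 : 0 ≤ (Icc (3 / 2) (L + 3 / 2)).indicator
        (fun t => (1 - sin (θ * (t - 3 / 2))) ^ 2) t := indicator_nonneg (fun s _ => by positivity) t
    simp only [Pi.add_apply]
    by_cases ht : t ∈ Icc (-w) (L + 3 / 2)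
    · rw [indicator_of_mem ht]
      rcases le_total t 2 with h2 | h2
      · rw [indicator_of_mem (show t ∈ Icc (-w) 2 from ⟨ht.1, h2⟩)]
        have := pf_mem (L := L) (by linarith) t
        nlinarith [this.1, this.2]
      · rw [indicator_of_mem (show t ∈ Icc (3 / 2) (L + 3 / 2) from ⟨by linarith, ht.2⟩),
          (pf_mid hL h2 ht.2).1]
        linarith
    · rw [indicator_of_notMem ht]; linarith
  · simp only [Pi.add_apply]
    rw [integral_add (int_ind continuous_const _ _) (int_ind c1 _ _),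
      integral_ind_const _ (by linarith), integral_ind c1 (anti_G θ0.ne') (by linarith)]
    simp only [add_sub_cancel_right, θL, cos_pi_div_two, sub_self, mul_zero, sin_zero, zero_mul,
      zero_div, add_zero, cos_zero, sub_zero]
    have : 0.6366 * L ≤ 1 / θ := (inv_theta hL).1
    linarith

theorem L1_le (hL : 1 ≤ L) :
    ∫ t, (Icc 2 (3 / 2 + 2 * L / 3)).indicator (pf L) t ≤ 0.3484 * L := by
  set θ := π / (2 * L) with hθ
  have θ0 : 0 < θ := by positivity
  have θL : θ * L = π / 2 := by rw [hθ]; field_simp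
  have θ2 : θ ≤ 2 := by nlinarith [pi_lt_four]
  have c1 : Continuous fun t => 1 - sin (θ * (t - 3 / 2)) := by fun_prop
  rw [show (Icc 2 (3 / 2 + 2 * L / 3)).indicator (pf L) = (Icc 2 (3 / 2 + 2 * L / 3)).indicator
      fun t => 1 - sin (θ * (t - 3 / 2)) from
    indicator_congr fun t ht => (pf_mid hL ht.1 (by linarith [ht.2])).1,
    integral_ind c1 (G := fun t => t + cos (θ * (t - 3 / 2)) / θ)
      (fun t => ((hasDerivAt_id' t).fun_add (anti_c θ0.ne' t)).congr_deriv (by ring))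
      (by linarith)]
  have e : θ * (3 / 2 + 2 * L / 3 - 3 / 2) = π / 3 := by linarith
  rw [e, cos_pi_div_three]
  have h1 := one_sub_sq_div_two_le_cos (x := θ * (2 - 3 / 2))
  have h2 : 1 / θ - θ / 8 ≤ cos (θ * (2 - 3 / 2)) / θ := by
    rw [le_div_iff₀ θ0]
    have : (1 / θ - θ / 8) * θ = 1 - θ ^ 2 / 8 := by field_simp
    rw [this]; linarith
  have : 0.6366 * L ≤ 1 / θ := (inv_theta hL).1
  have e2 : 1 / 2 / θ = 1 / θ / 2 := by ring
  rw [e2]
  linarith

theorem L2_ge (hL : 1 ≤ L) : 0.2254 * L - 3 / 4 ≤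
    ∫ t, (Icc 2 (3 / 2 + 2 * L / 3)).indicator (fun t => pf L t ^ 2) t := by
  set θ := π / (2 * L) with hθ
  have θ0 : 0 < θ := by positivity
  have θL : θ * L = π / 2 := by rw [hθ]; field_simp
  have θ2 : θ ≤ π / 2 := by nlinarith
  have c1 : Continuous fun t => (1 - sin (θ * (t - 3 / 2))) ^ 2 := by fun_prop
  rw [show (Icc 2 (3 / 2 + 2 * L / 3)).indicator (fun t => pf L t ^ 2) =
      (Icc 2 (3 / 2 + 2 * L / 3)).indicator fun t => (1 - sin (θ * (t - 3 / 2))) ^ 2 from
    indicator_congr fun t ht => by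
      show pf L t ^ 2 = _
      rw [(pf_mid hL ht.1 (by linarith [ht.2])).1],
    integral_ind c1 (anti_G θ0.ne') (by linarith)]
  have e : θ * (3 / 2 + 2 * L / 3 - 3 / 2) = π / 3 := by linarith
  rw [e, cos_pi_div_three, sin_pi_div_three]
  have h1 : 0 ≤ sin (θ * (2 - 3 / 2)) * cos (θ * (2 - 3 / 2)) / (2 * θ) :=
    div_nonneg (mul_nonneg (sin_nonneg_of_nonneg_of_le_pi (by positivity) (by linarith [pi_pos]))
      (cos_nonneg_of_neg_pi_div_two_le_of_le (by linarith [pi_pos]) (by linarith))) (by positivity)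
  have h2 : cos (θ * (2 - 3 / 2)) / θ ≤ 1 / θ := by gcongr; exact cos_le_one _
  have h3 : √3 ≤ 1.7321 := by
    rw [sqrt_le_iff]; constructor <;> norm_num
  have h4 : 1 / θ ≤ 0.6367 * L := (inv_theta hL).2
  have h5 : √3 / 2 * (1 / 2) / (2 * θ) = √3 / 8 * (1 / θ) := by field_simp; ring
  have h6 : √3 / 8 * (1 / θ) ≤ 1.7321 / 8 * (0.6367 * L) := by gcongr
  have e2 : 1 / 2 / θ = 1 / θ / 2 := by ring
  rw [h5, e2]
  linarith

end Pool.Agent.Lib.MP_6e1ed0_an
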