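import Pool.Agent.Lib.MP_6e1ed0_an.React

/-! A priori estimates for solutions on the quadrant. -/

namespace Pool.Agent.Lib.MP_6e1ed0_an

open Set Filter Topology Laplacian

variable {U v : ℝ}

/-- A solution on the quadrant, in rotated coordinates. -/
structure SolQ (U v : ℝ) (W : ℝ × ℝ → ℝ) : Prop where
  cont : ∀ q : ℝ × ℝ, 0 < q.1 → 0 < q.2 → ContinuousAt W q
  pos : ∀ q : ℝ × ℝ, 0 < q.1 → 0 < q.2 → 0 < W q
  le1 : ∀ q : ℝ × ℝ, 0 < q.1 → 0 < q.2 → W q ≤ 1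
  eq : ∀ q : ℝ × ℝ, 0 < q.1 → 0 < q.2 → L2 W q (-FF U v (W q))

theorem rot_mem_Q {q : ℝ × ℝ} (h1 : 0 < q.1) (h2 : 0 < q.2) : rot q ∈ epi fun x => |x| := by
  show |rot q 0| < rot q 1
  rw [rot_zero, rot_one, abs_lt]; constructor <;> linarith

theorem solQ_of {u : E2 → ℝ} (hu : IsSolution (ff U v) (epi fun x => |x|) u) :
    SolQ U v fun q => u (rot q) := by
  have hΩ := isOpen_epi (φ := fun x => |x|) continuous_abs
  have c : ∀ q : ℝ × ℝ, 0 < q.1 → 0 < q.2 → ContDiffAt ℝ 2 u (rot q) := fun q h1 h2 =>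
    hu.1.contDiffAt (hΩ.mem_nhds (rot_mem_Q h1 h2))
  refine ⟨fun q h1 h2 => (c q h1 h2).continuousAt.comp continuous_rot.continuousAt,
    fun q h1 h2 => (hu.2.2.2.1 _ (rot_mem_Q h1 h2)).1,
    fun q h1 h2 => (hu.2.2.2.1 _ (rot_mem_Q h1 h2)).2,
    fun q h1 h2 => (L2.rot (c q h1 h2)).of_eq ?_⟩
  have := hu.2.2.2.2 _ (rot_mem_Q h1 h2)
  unfold ff at this; linarith

theorem SolQ.bump_le (h : Par U v) {W : ℝ × ℝ → ℝ} (hW : SolQ U v W) {a0 b0 : ℝ} (ha : 0 < a0)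
    (hb : 0 < b0) : ∀ q ∈ Sq 3 a0 b0, 1 / 20 * bump 3 a0 b0 q ≤ W q := by
  have m1 : ∀ q ∈ Sq 3 a0 b0, 0 < q.1 := fun q hq => ha.trans_le hq.1.1
  have m2 : ∀ q ∈ Sq 3 a0 b0, 0 < q.2 := fun q hq => hb.trans_le hq.2.1
  have hπ : 0 < Real.pi / 3 := by positivity
  obtain ⟨p, hp, hmax⟩ := (isCompact_Icc.prod isCompact_Icc : IsCompact (Sq 3 a0 b0)).exists_isMaxOn
    ⟨(a0, b0), ⟨⟨le_rfl, by linarith⟩, ⟨le_rfl, by linarith⟩⟩⟩
    (f := fun q => bump 3 a0 b0 q / W q) fun q hq =>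
      ((continuous_bump _ _ _).continuousAt.div (hW.cont q (m1 q hq) (m2 q hq))
        (hW.pos q (m1 q hq) (m2 q hq)).ne').continuousWithinAt
  set μ := bump 3 a0 b0 p / W p with hμ
  have Wp := hW.pos p (m1 p hp) (m2 p hp)
  have hle : ∀ q ∈ Sq 3 a0 b0, bump 3 a0 b0 q ≤ μ * W q := fun q hq => by
    have : bump 3 a0 b0 q / W q ≤ μ := hmax hq
    rwa [div_le_iff₀ (hW.pos q (m1 q hq) (m2 q hq))] at this
  have heq : bump 3 a0 b0 p = μ * W p := by rw [hμ]; field_simp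
  have hμ20 : μ ≤ 20 := by
    by_contra hc
    push Not at hc
    have hin : p ∈ Ioo a0 (a0 + Real.pi / 3) ×ˢ Ioo b0 (b0 + Real.pi / 3) := by
      by_contra hn
      rw [bump_bdry (by norm_num) hp hn] at heq
      nlinarith
    have hlm : IsLocalMin (fun q => μ * W q - bump 3 a0 b0 q) p := by
      filter_upwards [(isOpen_Ioo.prod isOpen_Ioo).mem_nhds hin] with q hq
      have := hle q (prod_mono Ioo_subset_Icc_self Ioo_subset_Icc_self hq)
      linarith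
    have h1 := (((hW.eq p (m1 p hp) (m2 p hp)).const_mul μ).sub
      (L2.bump 3 a0 b0 p)).nonneg_of_isLocalMin hlm
    have h2 := (bump_mem (α := 3) (by norm_num) hp).2
    have h3 : W p ≤ 1 / 20 := by nlinarith
    have h4 := h.FF_kpp Wp h3
    rw [heq] at h1
    nlinarith
  intro q hq
  have := hle q hq
  have := hW.pos q (m1 q hq) (m2 q hq)
  nlinarith

theorem sin_lower {x : ℝ} (h0 : 0 < x) (h1 : x ≤ 1 / 14) :
    14 / 5 * x ≤ Real.sin (3 * (99 / 100 * x)) := by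
  have := Real.sin_ge_sub_cube (x := 3 * (99 / 100 * x)) (by positivity)
  have h2 : x ^ 2 ≤ 1 / 196 := by nlinarith
  nlinarith

theorem SolQ.lower (h : Par U v) {W : ℝ × ℝ → ℝ} (hW : SolQ U v W) {q : ℝ × ℝ} (h1 : 0 < q.1)
    (h2 : 0 < q.2) : 1 / 500 * (min (14 * q.1) 1 * min (14 * q.2) 1) ≤ W q := by
  have key : ∀ a : ℝ, 0 < a → 0 < a - 99 / 100 * min a (1 / 14) ∧
      a ∈ Icc (a - 99 / 100 * min a (1 / 14)) (a - 99 / 100 * min a (1 / 14) + Real.pi / 3) ∧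
      1 / 5 * min (14 * a) 1 ≤ Real.sin (3 * (a - (a - 99 / 100 * min a (1 / 14)))) := by
    intro a ha
    have m1 := min_le_left a (1 / 14)
    have m2 := min_le_right a (1 / 14)
    have m3 : 0 < min a (1 / 14) := lt_min ha (by norm_num)
    refine ⟨by linarith, ⟨by linarith, by linarith [Real.pi_gt_three]⟩, ?_⟩
    have e : min (14 * a) 1 = 14 * min a (1 / 14) := by
      rw [mul_min_of_nonneg _ _ (by norm_num : (0 : ℝ) ≤ 14)]; norm_num
    rw [sub_sub_cancel, e]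
    linarith [sin_lower m3 m2]
  obtain ⟨a1, a2, a3⟩ := key _ h1
  obtain ⟨b1, b2, b3⟩ := key _ h2
  have := hW.bump_le h a1 b1 q ⟨a2, b2⟩
  unfold bump at this
  have p1 : 0 ≤ min (14 * q.1) 1 := le_min (by positivity) zero_le_one
  have p2 : 0 ≤ min (14 * q.2) 1 := le_min (by positivity) zero_le_one
  have := mul_le_mul a3 b3 (by positivity) (le_trans (by positivity) a3)
  linarith

theorem hasDerivAt_exp_aff (ν c t : ℝ) :
    HasDerivAt (fun t => Real.exp (-ν * (t - c))) (Real.exp (-ν * (t - c)) * -ν) t := by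
  have := (((hasDerivAt_id' t).sub_const c).const_mul (-ν)).exp
  simpa using this

theorem SolQ.decay (h : Par U v) {W : ℝ × ℝ → ℝ} (hW : SolQ U v W) {q : ℝ × ℝ}
    (h1 : 1 / 14 ≤ q.1) (h2 : 1 / 14 ≤ q.2) :
    1 - W q ≤ Real.exp (-(1 - U) * (q.1 - 1 / 14)) + Real.exp (-(1 - U) * (q.2 - 1 / 14)) := by
  have m1 : ∀ q ∈ Ici (1 / 14 : ℝ) ×ˢ Ici (1 / 14 : ℝ), 0 < q.1 := fun q hq =>
    lt_of_lt_of_le (by norm_num) hq.1
  have m2 : ∀ q ∈ Ici (1 / 14 : ℝ) ×ˢ Ici (1 / 14 : ℝ), 0 < q.2 := fun q hq =>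
    lt_of_lt_of_le (by norm_num) hq.2
  have hU : 0 < 1 - U := by linarith [h.U1]
  have := maxp (C := Ici (1 / 14 : ℝ) ×ˢ Ici (1 / 14 : ℝ)) (D := Ioi (1 / 14) ×ˢ Ioi (1 / 14))
    (isClosed_Ici.prod isClosed_Ici) (isOpen_Ioi.prod isOpen_Ioi)
    (prod_mono Ioi_subset_Ici_self Ioi_subset_Ici_self)
    (w := fun q => Real.exp (-(1 - U) * (q.1 - 1 / 14)) + Real.exp (-(1 - U) * (q.2 - 1 / 14)) -
      (1 - W q)) (B := 1) (c := 1 - U) (κ := 0)
    (ContinuousOn.sub (by fun_prop) (continuousOn_const.sub fun q hq =>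
      (hW.cont q (m1 q hq) (m2 q hq)).continuousWithinAt))
    (fun q hq => by
      have := hW.pos q (m1 q hq) (m2 q hq)
      have := Real.exp_pos (-(1 - U) * (q.1 - 1 / 14))
      have := Real.exp_pos (-(1 - U) * (q.2 - 1 / 14))
      linarith)
    (fun q hq hq' => by
      have := hW.pos q (m1 q hq) (m2 q hq)
      have := Real.exp_pos (-(1 - U) * (q.1 - 1 / 14))
      have := Real.exp_pos (-(1 - U) * (q.2 - 1 / 14))
      by_cases e1 : q.1 = 1 / 14
      · simp only [e1, sub_self, mul_zero, Real.exp_zero]; linarith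
      by_cases e2 : q.2 = 1 / 14
      · simp only [e2, sub_self, mul_zero, Real.exp_zero]; linarith
      exact (hq' ⟨lt_of_le_of_ne hq.1 (Ne.symm e1), lt_of_le_of_ne hq.2 (Ne.symm e2)⟩).elim)
    hU.le le_rfl (Or.inl hU) (fun q hq _ => by
      have hq2 := prod_mono Ioi_subset_Ici_self Ioi_subset_Ici_self hq
      refine ⟨_, ((L2.fst (hasDerivAt_exp_aff (1 - U) (1 / 14))
        ((hasDerivAt_exp_aff (1 - U) (1 / 14) q.1).mul_const (-(1 - U)))).add
        (L2.snd (hasDerivAt_exp_aff (1 - U) (1 / 14))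
        ((hasDerivAt_exp_aff (1 - U) (1 / 14) q.2).mul_const (-(1 - U))))).sub
        ((L2.const 1 q).sub (hW.eq q (m1 q hq2) (m2 q hq2))), ?_⟩
      have l := hW.lower h (m1 q hq2) (m2 q hq2)
      have a1 : (1 / 14 : ℝ) < q.1 := hq.1
      have a2 : (1 / 14 : ℝ) < q.2 := hq.2
      rw [min_eq_right (by linarith), min_eq_right (by linarith)] at l
      have f := h.FF_ge (by linarith : 1 / 500 ≤ W q) (hW.le1 q (m1 q hq2) (m2 q hq2))
      have p1 := Real.exp_pos (-(1 - U) * (q.1 - 1 / 14))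
      have p2 := Real.exp_pos (-(1 - U) * (q.2 - 1 / 14))
      have p3 := mul_pos (mul_pos hU h.U0) (add_pos p1 p2)
      nlinarith) q ⟨h1, h2⟩
  linarith

/-- The one-dimensional majorant of the potential. -/
noncomputable def Wt (U l t : ℝ) : ℝ := 1000 * max (1 - 14 * t) 0 + if t < l then U else 0

theorem SolQ.pot_le (h : Par U v) {W : ℝ × ℝ → ℝ} (hW : SolQ U v W) {l : ℝ} (hl : 1 / 14 ≤ l)
    (hv : 2 * Real.exp (-(1 - U) * (l - 1 / 14)) ≤ v) {q : ℝ × ℝ} (h1 : 0 < q.1) (h2 : 0 < q.2) :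
    PP U v (W q) ≤ Wt U l q.1 + Wt U l q.2 := by
  have hU : 0 < 1 - U := by linarith [h.U1]
  have p1 := le_max_right (1 - 14 * q.1) 0
  have p2 := le_max_right (1 - 14 * q.2) 0
  have U0 := h.U0
  by_cases hc : q.1 < l ∨ q.2 < l
  · have l1 := hW.lower h h1 h2
    have e : ∀ t : ℝ, max (1 - 14 * t) 0 = 1 - min (14 * t) 1 := fun t => by
      rcases le_total (14 * t) 1 with h | h
      · rw [min_eq_left h, max_eq_left (by linarith)]
      · rw [min_eq_right h, max_eq_right (by linarith)]; ring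
    have k : max (1 - 500 * W q) 0 ≤ max (1 - 14 * q.1) 0 + max (1 - 14 * q.2) 0 := by
      refine max_le ?_ (by linarith)
      rw [e, e]
      nlinarith [min_le_right (14 * q.1) 1, min_le_right (14 * q.2) 1]
    have := h.PP_le (W q)
    unfold Wt
    rcases hc with hc | hc
    · rw [if_pos hc]; split_ifs <;> linarith
    · rw [if_pos hc]; split_ifs <;> linarith
  · push Not at hc
    have d := hW.decay h (hl.trans hc.1) (hl.trans hc.2)
    have e1 : Real.exp (-(1 - U) * (q.1 - 1 / 14)) ≤ Real.exp (-(1 - U) * (l - 1 / 14)) :=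
      Real.exp_le_exp.2 (by nlinarith [hc.1])
    have e2 : Real.exp (-(1 - U) * (q.2 - 1 / 14)) ≤ Real.exp (-(1 - U) * (l - 1 / 14)) :=
      Real.exp_le_exp.2 (by nlinarith [hc.2])
    rw [h.PP_zero (by linarith)]
    unfold Wt
    rw [if_neg (not_lt.2 hc.1), if_neg (not_lt.2 hc.2)]
    linarith

end Pool.Agent.Lib.MP_6e1ed0_an
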