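import Pool.Agent.Lib.MP_6e1ed0_an.QSide

/-! The positive supersolution on the quadrant. -/

namespace Pool.Agent.Lib.MP_6e1ed0_an

open Set Filter Topology Laplacian MeasureTheory

/-- The phase function and its two derivatives. -/
noncomputable def j0 (l t : ℝ) : ℝ :=
  3 / 98 + t / 7 - 18 / 49 * ((max (1 + -14 * t) 0) ^ 3 / 6 - (max (1 + -14 * t) 0) ^ 4 / 12) -
    ((max (-l + 1 * t) 0) ^ 3 - 2 * (max (-l - 1 + 1 * t) 0) ^ 3 +
      (max (-l - 2 + 1 * t) 0) ^ 3) / 42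

noncomputable def j1 (l t : ℝ) : ℝ :=
  1 / 7 + 36 / 7 * ((max (1 + -14 * t) 0) ^ 2 / 2 - (max (1 + -14 * t) 0) ^ 3 / 3) -
    ((max (-l + 1 * t) 0) ^ 2 - 2 * (max (-l - 1 + 1 * t) 0) ^ 2 +
      (max (-l - 2 + 1 * t) 0) ^ 2) / 14

noncomputable def j2 (l t : ℝ) : ℝ :=
  -72 * (max (1 + -14 * t) 0 - (max (1 + -14 * t) 0) ^ 2) -
    (max (-l + 1 * t) 0 - 2 * max (-l - 1 + 1 * t) 0 + max (-l - 2 + 1 * t) 0) / 7

theorem hasDerivAt_j0 (l t : ℝ) : HasDerivAt (j0 l) (j1 l t) t := by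
  have := ((((hasDerivAt_id' t).div_const 7).const_add (3 / 98)).fun_sub
    ((((hasDerivAt_pp_aff 1 1 (-14) t).div_const 6).fun_sub
      ((hasDerivAt_pp_aff 2 1 (-14) t).div_const 12)).const_mul (18 / 49))).fun_sub
    ((((hasDerivAt_pp_aff 1 (-l) 1 t).fun_sub
      ((hasDerivAt_pp_aff 1 (-l - 1) 1 t).const_mul 2)).fun_add
      (hasDerivAt_pp_aff 1 (-l - 2) 1 t)).div_const 42)
  refine this.congr_deriv ?_
  unfold j1
  push_cast; ring

theorem hasDerivAt_j1 (l t : ℝ) : HasDerivAt (j1 l) (j2 l t) t := by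
  have := (((((hasDerivAt_pp_aff 0 1 (-14) t).div_const 2).fun_sub
      ((hasDerivAt_pp_aff 1 1 (-14) t).div_const 3)).const_mul (36 / 7)).const_add (1 / 7)).fun_sub
    ((((hasDerivAt_pp_aff 0 (-l) 1 t).fun_sub
      ((hasDerivAt_pp_aff 0 (-l - 1) 1 t).const_mul 2)).fun_add
      (hasDerivAt_pp_aff 0 (-l - 2) 1 t)).div_const 14)
  refine this.congr_deriv ?_
  unfold j2
  push_cast; ring

theorem continuous_j2 (l : ℝ) : Continuous (j2 l) := by unfold j2; fun_prop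

theorem e_bounds (x : ℝ) :
    6 * (x - 1) ≤ (max x 0) ^ 3 - 2 * (max (x - 1) 0) ^ 3 + (max (x - 2) 0) ^ 3 ∧
    (max x 0) ^ 3 - 2 * (max (x - 1) 0) ^ 3 + (max (x - 2) 0) ^ 3 ≤ 6 * max x 0 ∧
    0 ≤ max x 0 - 2 * max (x - 1) 0 + max (x - 2) 0 := by
  rcases le_total x 0 with h0 | h0
  · rw [max_eq_right h0, max_eq_right (by linarith), max_eq_right (by linarith)]
    refine ⟨by linarith, by norm_num, by norm_num⟩
  rcases le_total x 1 with h1 | h1
  · rw [max_eq_left h0, max_eq_right (by linarith), max_eq_right (by linarith)]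
    have : 0 ≤ x ^ 3 := by positivity
    have : x ^ 3 ≤ x := by nlinarith [mul_nonneg h0 h0]
    refine ⟨by linarith, by linarith, by linarith⟩
  rcases le_total x 2 with h2 | h2
  · rw [max_eq_left h0, max_eq_left (by linarith), max_eq_right (by linarith)]
    have h3 : 0 ≤ (2 - x) ^ 3 := pow_nonneg (by linarith) 3
    have h4 : (2 - x) ^ 3 ≤ 1 := pow_le_one₀ (by linarith) (by linarith)
    refine ⟨by nlinarith, by nlinarith, by linarith⟩
  · rw [max_eq_left h0, max_eq_left (by linarith), max_eq_left (by linarith)]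
    refine ⟨by nlinarith, by nlinarith, by linarith⟩

theorem j_facts {l t : ℝ} (hl : 1 / 14 ≤ l) (ht : 0 < t) :
    0 < j0 l t ∧ j0 l t ≤ 3 / 98 + (l + 1) / 7 ∧ (t < l → 1 / 7 ≤ j1 l t) ∧
    j2 l t ≤ -1008 * (max (1 - 14 * t) 0 * t) ∧ (t ≤ 1 / 14 → j0 l t ≤ t) := by
  obtain ⟨e1, e2, e3⟩ := e_bounds (t - l)
  unfold j0 j1 j2
  rw [show -l + 1 * t = t - l by ring, show -l - 1 + 1 * t = t - l - 1 by ring,
    show -l - 2 + 1 * t = t - l - 2 by ring, show 1 + -14 * t = 1 - 14 * t by ring]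
  set y := max (1 - 14 * t) 0 with hy
  have y0 : 0 ≤ y := le_max_right _ _
  have y1 : y ≤ 1 := max_le (by linarith) zero_le_one
  have y3 : 0 ≤ y ^ 3 := by positivity
  have y2 : 0 ≤ y ^ 2 := by positivity
  have n0 : 0 ≤ y ^ 3 / 6 - y ^ 4 / 12 := by nlinarith
  have n1 : y ^ 3 / 6 - y ^ 4 / 12 ≤ 1 / 12 := by
    have := mul_nonneg (sub_nonneg.2 y1) (add_nonneg (add_nonneg zero_le_one y0)
      (mul_nonneg y2 (sub_nonneg.2 y1)))
    nlinarith
  have m1 : max (t - l) 0 < t := max_lt (by linarith) ht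
  refine ⟨by linarith, by linarith, fun h => ?_, ?_, fun h => ?_⟩
  · rw [max_eq_right (by linarith : t - l ≤ 0), max_eq_right (by linarith : t - l - 1 ≤ 0),
      max_eq_right (by linarith : t - l - 2 ≤ 0)]
    have : 0 ≤ y ^ 2 / 2 - y ^ 3 / 3 := by nlinarith
    linarith
  · have : y - y ^ 2 = 14 * (y * t) := by
      rcases le_total (1 - 14 * t) 0 with h | h
      · rw [hy, max_eq_right h]; ring
      · rw [hy, max_eq_left h]; ring
    linarith
  · rw [max_eq_right (by linarith : t - l ≤ 0), max_eq_right (by linarith : t - l - 1 ≤ 0),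
      max_eq_right (by linarith : t - l - 2 ≤ 0)]
    have e : t = (1 - y) / 14 := by rw [hy, max_eq_left (by linarith)]; ring
    have := mul_nonneg (pow_nonneg (sub_nonneg.2 y1) 3) (add_nonneg zero_le_one y0)
    nlinarith

/-- The one-dimensional supersolution. -/
noncomputable def h0 (θ l t : ℝ) : ℝ := Real.sin (θ * j0 l t)
noncomputable def h1 (θ l t : ℝ) : ℝ := Real.cos (θ * j0 l t) * (θ * j1 l t)
noncomputable def h2 (θ l t : ℝ) : ℝ :=
  -Real.sin (θ * j0 l t) * (θ * j1 l t) * (θ * j1 l t) + Real.cos (θ * j0 l t) * (θ * j2 l t)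

theorem hasDerivAt_h0 (θ l t : ℝ) : HasDerivAt (h0 θ l) (h1 θ l t) t :=
  ((hasDerivAt_j0 l t).const_mul θ).sin

theorem hasDerivAt_h1 (θ l t : ℝ) : HasDerivAt (h1 θ l) (h2 θ l t) t :=
  ((hasDerivAt_j0 l t).const_mul θ).cos.fun_mul ((hasDerivAt_j1 l t).const_mul θ)

theorem contDiff_h0 (θ l : ℝ) : ContDiff ℝ 2 (h0 θ l) := by
  have c0 : Continuous (j0 l) := continuous_iff_continuousAt.2 fun t =>
    (hasDerivAt_j0 l t).continuousAt
  have c1 : Continuous (j1 l) := continuous_iff_continuousAt.2 fun t =>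
    (hasDerivAt_j1 l t).continuousAt
  have c2 := continuous_j2 l
  rw [show (2 : WithTop ℕ∞) = 1 + 1 from rfl, contDiff_succ_iff_deriv]
  refine ⟨fun t => (hasDerivAt_h0 θ l t).differentiableAt, by simp, ?_⟩
  rw [show deriv (h0 θ l) = h1 θ l from funext fun t => (hasDerivAt_h0 θ l t).deriv,
    contDiff_one_iff_deriv]
  refine ⟨fun t => (hasDerivAt_h1 θ l t).differentiableAt, ?_⟩
  rw [show deriv (h1 θ l) = h2 θ l from funext fun t => (hasDerivAt_h1 θ l t).deriv]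
  unfold h2; fun_prop

theorem h_facts {U θ l t : ℝ} (hl : 1 / 14 ≤ l) (θ0 : 0 < θ) (θ1 : θ ≤ 1)
    (hθ : θ * (3 / 98 + (l + 1) / 7) ≤ Real.pi / 2) (hU : U ≤ θ ^ 2 / 49) (ht : 0 < t) :
    0 < h0 θ l t ∧ h2 θ l t + Wt U l t * h0 θ l t ≤ 0 := by
  obtain ⟨a1, a2, a3, a4, a5⟩ := j_facts hl ht
  have b0 : 0 < θ * j0 l t := mul_pos θ0 a1
  have b1 : θ * j0 l t ≤ Real.pi / 2 := (mul_le_mul_of_nonneg_left a2 θ0.le).trans hθ
  have s0 : 0 < Real.sin (θ * j0 l t) :=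
    Real.sin_pos_of_pos_of_lt_pi b0 (by linarith [Real.pi_pos])
  have c0 : 0 ≤ Real.cos (θ * j0 l t) :=
    Real.cos_nonneg_of_neg_pi_div_two_le_of_le (by linarith [Real.pi_pos]) b1
  refine ⟨s0, ?_⟩
  unfold h2 Wt h0
  have k1 : (if t < l then U else 0) ≤ (θ * j1 l t) * (θ * j1 l t) := by
    split_ifs with h
    · have := a3 h
      have h3 : θ * (1 / 7) ≤ θ * j1 l t := mul_le_mul_of_nonneg_left this θ0.le
      nlinarith
    · exact mul_self_nonneg _
  have k2 : 1000 * max (1 - 14 * t) 0 * Real.sin (θ * j0 l t) ≤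
      -(Real.cos (θ * j0 l t) * (θ * j2 l t)) := by
    have y0 : 0 ≤ max (1 - 14 * t) 0 := le_max_right _ _
    have yt : 0 ≤ max (1 - 14 * t) 0 * t := mul_nonneg y0 ht.le
    have k3 : θ * (1008 * (max (1 - 14 * t) 0 * t)) ≤ -(θ * j2 l t) := by nlinarith
    rcases le_total t (1 / 14) with h | h
    · have h3 := a5 h
      have h4 : θ * j0 l t ≤ 1 / 14 := by nlinarith
      have h5 : 1000 / 1008 ≤ Real.cos (θ * j0 l t) := by
        have := Real.one_sub_sq_div_two_le_cos (x := θ * j0 l t)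
        nlinarith
      have h6 : Real.sin (θ * j0 l t) ≤ θ * t :=
        (Real.sin_le b0.le).trans (mul_le_mul_of_nonneg_left h3 θ0.le)
      have h7 := mul_le_mul h5 k3 (by positivity) c0
      have h8 := mul_le_mul_of_nonneg_left h6 y0
      nlinarith
    · rw [max_eq_right (by linarith)] at k3 ⊢
      have := mul_le_mul_of_nonneg_left k3 c0
      simp only [mul_zero, zero_mul] at this ⊢
      linarith
  have := mul_le_mul_of_nonneg_left k1 s0.le
  nlinarith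

theorem locL2_of_continuous {Ω : Set E2} {g : E2 → ℝ} (hg : Continuous g) : LocL2 Ω g := by
  intro K _ hK
  obtain ⟨C, hC⟩ := hK.exists_bound_of_continuousOn hg.continuousOn
  have : IsFiniteMeasure (volume.restrict K) := isFiniteMeasure_restrict.2 hK.measure_ne_top
  exact MemLp.of_bound hg.aestronglyMeasurable C
    ((ae_restrict_iff' hK.measurableSet).2 (Eventually.of_forall hC))

theorem isSupersolution_of_contDiff {Ω : Set E2} (hΩ : IsOpen Ω) {V ψ : E2 → ℝ} {l : ℝ}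
    (hψ : ContDiff ℝ 2 ψ) (pos : ∀ p ∈ Ω, 0 < ψ p)
    (h : ∀ p ∈ Ω, Δ ψ p + (V p + l) * ψ p ≤ 0) : IsSupersolution V Ω l ψ := by
  have c1 : ∀ e, ContDiff ℝ 1 (dd e ψ) := fun e =>
    contDiffOn_univ.1 (contDiffOn_dd isOpen_univ hψ.contDiffOn e)
  have c2 : ∀ e e', Continuous (dd e' (dd e ψ)) := fun e e' =>
    continuousOn_univ.1 (continuousOn_dd isOpen_univ (c1 e).contDiffOn e')
  refine ⟨hψ.continuous.continuousOn, pos, fun i => dd (EuclideanSpace.single i 1) ψ,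
    fun i j => dd (EuclideanSpace.single j 1) (dd (EuclideanSpace.single i 1) ψ),
    locL2_of_continuous hψ.continuous, fun i => ⟨locL2_of_continuous (c1 _).continuous,
      fun θ t1 t2 t3 => ibp hΩ (hψ.of_le (by norm_num)).contDiffOn ⟨t1, t2, t3⟩ _⟩,
    fun i j => ⟨locL2_of_continuous (c2 _ _),
      fun θ t1 t2 t3 => ibp hΩ (c1 _).contDiffOn ⟨t1, t2, t3⟩ _⟩,
    Eventually.of_forall fun p hp => ?_⟩
  have := h p hp
  rwa [lap_dd hψ.contDiffAt] at this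

theorem super_Q {U v θ l : ℝ} (h : Par U v) (hl : 1 / 14 ≤ l) (θ0 : 0 < θ) (θ1 : θ ≤ 1)
    (hθ : θ * (3 / 98 + (l + 1) / 7) ≤ Real.pi / 2) (hU : U ≤ θ ^ 2 / 49)
    (hv : 2 * Real.exp (-(1 - U) * (l - 1 / 14)) ≤ v) {u : E2 → ℝ}
    (hu : IsSolution (ff U v) (epi fun x => |x|) u) :
    ∃ ψ, IsSupersolution (fun p => ff' U v (u p)) (epi fun x => |x|) 2 ψ := by
  have hW := solQ_of hu
  have ch := contDiff_h0 θ l
  set ψ : E2 → ℝ := fun p => h0 θ l (p 0 + p 1) * h0 θ l (p 1 - p 0) with hψ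
  have cψ : ContDiff ℝ 2 ψ := (ch.comp (by fun_prop)).mul (ch.comp (by fun_prop))
  have mem : ∀ p ∈ epi fun x => |x|, 0 < p 0 + p 1 ∧ 0 < p 1 - p 0 := fun p hp => by
    have : |p 0| < p 1 := hp
    rw [abs_lt] at this
    constructor <;> linarith [this.1, this.2]
  refine ⟨ψ, isSupersolution_of_contDiff (isOpen_epi continuous_abs) cψ (fun p hp =>
    mul_pos (h_facts hl θ0 θ1 hθ hU (mem p hp).1).1 (h_facts hl θ0 θ1 hθ hU (mem p hp).2).1)
    fun p hp => ?_⟩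
  obtain ⟨m1, m2⟩ := mem p hp
  obtain ⟨a1, a2⟩ := h_facts hl θ0 θ1 hθ hU m1
  obtain ⟨b1, b2⟩ := h_facts hl θ0 θ1 hθ hU m2
  have l1 := L2.rot (q := (p 0 + p 1, p 1 - p 0)) cψ.contDiffAt
  have l2 := L2.prod (q := (p 0 + p 1, p 1 - p 0)) (hasDerivAt_h0 θ l) (hasDerivAt_h1 θ l _)
    (hasDerivAt_h0 θ l) (hasDerivAt_h1 θ l _)
  have e : (fun x => ψ (rot x)) = fun x : ℝ × ℝ => h0 θ l x.1 * h0 θ l x.2 := by
    funext x
    simp only [hψ, rot_zero, rot_one]
    congr 2 <;> ring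
  rw [e, rot_inv] at l1
  have l3 := l1.unique l2
  have l4 := hW.pot_le h hl hv (q := (p 0 + p 1, p 1 - p 0)) m1 m2
  simp only [rot_inv] at l3 l4
  have l5 := mul_le_mul_of_nonneg_right l4 (mul_pos a1 b1).le
  have l6 := mul_le_mul_of_nonneg_right a2 b1.le
  have l7 := mul_le_mul_of_nonneg_right b2 a1.le
  simp only [hψ, ff'] at l3 ⊢
  nlinarith

end Pool.Agent.Lib.MP_6e1ed0_an
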