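import Pool.Agent.Lib.MP_6e1ed0_an.Exist

/-! The reaction term. -/

namespace Pool.Agent.Lib.MP_6e1ed0_an

open Set Filter Topology

theorem hasDerivAt_pp (n : ℕ) (x : ℝ) :
    HasDerivAt (fun x : ℝ => (max x 0) ^ (n + 2)) ((n + 2) * (max x 0) ^ (n + 1)) x := by
  have h1 : ∀ y : ℝ, HasDerivAt (fun x : ℝ => x ^ (n + 2)) ((n + 2) * y ^ (n + 1)) y := fun y => by
    have := hasDerivAt_pow (n + 2) y
    simpa using this
  rcases lt_trichotomy x 0 with h | h | h
  · rw [max_eq_right h.le]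
    have : (fun x : ℝ => (max x 0) ^ (n + 2)) =ᶠ[𝓝 x] fun _ => 0 := by
      filter_upwards [Iio_mem_nhds h] with y hy
      rw [max_eq_right (le_of_lt hy)]; simp
    simpa using (hasDerivAt_const x (0 : ℝ)).congr_of_eventuallyEq this
  · subst h
    have a : HasDerivWithinAt (fun x : ℝ => (max x 0) ^ (n + 2)) 0 (Iic 0) 0 :=
      (hasDerivWithinAt_const (0 : ℝ) (Iic 0) (0 : ℝ)).congr
        (fun y hy => by rw [max_eq_right hy]; simp) (by simp)
    have b : HasDerivWithinAt (fun x : ℝ => (max x 0) ^ (n + 2)) 0 (Ici 0) 0 := by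
      have := (h1 0).hasDerivWithinAt (s := Ici 0)
      simp only [ne_eq, Nat.add_eq_zero_iff, one_ne_zero, and_false, not_false_eq_true, zero_pow,
        mul_zero] at this
      exact this.congr (fun y hy => by rw [max_eq_left hy]) (by simp)
    have := a.union b
    rw [Iic_union_Ici, hasDerivWithinAt_univ] at this
    simpa using this
  · rw [max_eq_left h.le]
    refine (h1 x).congr_of_eventuallyEq ?_
    filter_upwards [Ioi_mem_nhds h] with y hy
    rw [max_eq_left (le_of_lt hy)]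

theorem hasDerivAt_pp_aff (n : ℕ) (a b x : ℝ) :
    HasDerivAt (fun x : ℝ => (max (a + b * x) 0) ^ (n + 2))
      ((n + 2) * (max (a + b * x) 0) ^ (n + 1) * b) x := by
  have := (hasDerivAt_pp n (a + b * x)).comp x (((hasDerivAt_id' x).const_mul b).const_add a)
  simpa [Function.comp_def] using this

/-- Height of the steep part. -/
noncomputable def MM (U v : ℝ) : ℝ := 1000 * (1 - U * (1 - 3 / 2 * v))

/-- Half of the reaction. -/
noncomputable def FF (U v s : ℝ) : ℝ :=
  (1 - s) - 250 * MM U v * (max (1 / 500 + -1 * s) 0) ^ 2 -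
    U / (2 * v) * ((max (1 - v + -1 * s) 0) ^ 2 - (max (1 - 2 * v + -1 * s) 0) ^ 2)

/-- The potential `1 + F'`. -/
noncomputable def PP (U v s : ℝ) : ℝ :=
  500 * MM U v * max (1 / 500 + -1 * s) 0 +
    U / v * (max (1 - v + -1 * s) 0 - max (1 - 2 * v + -1 * s) 0)

theorem hasDerivAt_FF (U v s : ℝ) : HasDerivAt (FF U v) (-1 + PP U v s) s := by
  have := (((hasDerivAt_id' s).const_sub 1).fun_sub
    ((hasDerivAt_pp_aff 0 (1 / 500) (-1) s).const_mul (250 * MM U v))).fun_sub
    (((hasDerivAt_pp_aff 0 (1 - v) (-1) s).fun_sub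
      (hasDerivAt_pp_aff 0 (1 - 2 * v) (-1) s)).const_mul (U / (2 * v)))
  refine this.congr_deriv ?_
  unfold PP
  by_cases hv : v = 0
  · simp [hv]; ring
  · simp only [Nat.cast_zero, zero_add, pow_one]; field_simp; ring

theorem continuous_PP (U v : ℝ) : Continuous (PP U v) := by unfold PP; fun_prop

theorem lip_PP (U v : ℝ) : ∃ C : NNReal, LipschitzWith C (PP U v) := by
  have h : ∀ a s t : ℝ, |max (a + -1 * s) 0 - max (a + -1 * t) 0| ≤ |s - t| := fun a s t => by
    refine (abs_max_sub_max_le_abs _ _ _).trans (le_of_eq ?_)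
    rw [← abs_neg]; congr 1; ring
  refine ⟨⟨|500 * MM U v| + |U / v| * 2, by positivity⟩,
    LipschitzWith.of_dist_le_mul fun s t => ?_⟩
  rw [Real.dist_eq, Real.dist_eq]
  have e : PP U v s - PP U v t =
      500 * MM U v * (max (1 / 500 + -1 * s) 0 - max (1 / 500 + -1 * t) 0) +
      U / v * ((max (1 - v + -1 * s) 0 - max (1 - v + -1 * t) 0) -
        (max (1 - 2 * v + -1 * s) 0 - max (1 - 2 * v + -1 * t) 0)) := by unfold PP; ring
  rw [e]
  refine (abs_add_le _ _).trans ?_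
  rw [abs_mul, abs_mul (U / v)]
  have h1 := h (1 / 500) s t
  have h2 := (abs_sub _ _).trans (add_le_add (h (1 - v) s t) (h (1 - 2 * v) s t))
  have h3 := mul_le_mul_of_nonneg_left h1 (abs_nonneg (500 * MM U v))
  have h4 := mul_le_mul_of_nonneg_left h2 (abs_nonneg (U / v))
  show _ ≤ (|500 * MM U v| + |U / v| * 2) * |s - t|
  linarith

/-- Range of the two small parameters. -/
structure Par (U v : ℝ) : Prop where
  U0 : 0 < U
  U1 : U ≤ 1 / 100
  v0 : 0 < v
  v1 : v ≤ 1 / 100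

variable {U v : ℝ}

theorem Par.MM_ge (h : Par U v) : 990 ≤ MM U v := by
  unfold MM; nlinarith [h.U0, h.U1, h.v0, h.v1]

theorem Par.MM_le (h : Par U v) : MM U v ≤ 1000 := by
  unfold MM; nlinarith [h.U0, h.U1, h.v0, h.v1]

theorem clamp_mem (h : 0 < v) (x : ℝ) :
    0 ≤ max (x - v) 0 - max (x - 2 * v) 0 ∧ max (x - v) 0 - max (x - 2 * v) 0 ≤ v := by
  constructor <;> rcases le_total (x - v) 0 with h1 | h1 <;>
    rcases le_total (x - 2 * v) 0 with h2 | h2 <;> simp [h1, h2] <;> linarith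

theorem Par.PP_split (h : Par U v) (s : ℝ) : ∃ k, 0 ≤ k ∧ k ≤ 1 ∧ (1 - s ≤ v → k = 0) ∧
    (2 * v ≤ 1 - s → k = 1) ∧ PP U v s = MM U v * max (1 - 500 * s) 0 + U * k := by
  have h1 := clamp_mem h.v0 (1 - s)
  refine ⟨(max (1 - s - v) 0 - max (1 - s - 2 * v) 0) / v, div_nonneg h1.1 h.v0.le,
    (div_le_one h.v0).2 h1.2, fun hs => ?_, fun hs => ?_, ?_⟩
  · rw [max_eq_right (by linarith), max_eq_right (by linarith [h.v0])]; simp
  · rw [max_eq_left (by linarith [h.v0]), max_eq_left (by linarith), div_eq_one_iff_eq h.v0.ne']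
    ring
  · unfold PP
    have e1 : max (1 - 500 * s) 0 = 500 * max (1 / 500 + -1 * s) 0 := by
      rw [mul_max_of_nonneg _ _ (by norm_num : (0 : ℝ) ≤ 500)]; congr 1 <;> ring
    rw [e1, show 1 - v + -1 * s = 1 - s - v by ring, show 1 - 2 * v + -1 * s = 1 - s - 2 * v by ring]
    ring

theorem Par.PP_nonneg (h : Par U v) (s : ℝ) : 0 ≤ PP U v s := by
  obtain ⟨k, k0, -, -, -, e⟩ := h.PP_split s
  have := h.MM_ge
  have := h.U0
  rw [e]; positivity

theorem Par.PP_ge (h : Par U v) {s : ℝ} (hs : 2 * v ≤ 1 - s) : U ≤ PP U v s := by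
  obtain ⟨k, -, -, -, k1, e⟩ := h.PP_split s
  have := h.MM_ge
  have : 0 ≤ MM U v * max (1 - 500 * s) 0 := by positivity
  rw [e, k1 hs]; linarith

theorem Par.PP_le (h : Par U v) (s : ℝ) : PP U v s ≤ 1000 * max (1 - 500 * s) 0 + U := by
  obtain ⟨k, -, k1, -, -, e⟩ := h.PP_split s
  have := mul_le_mul_of_nonneg_right h.MM_le (le_max_right (1 - 500 * s) 0)
  have := mul_le_mul_of_nonneg_left k1 h.U0.le
  rw [e]; linarith

theorem Par.PP_zero (h : Par U v) {s : ℝ} (hs : 1 - s ≤ v) : PP U v s = 0 := by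
  obtain ⟨k, -, -, k1, -, e⟩ := h.PP_split s
  rw [e, k1 hs, max_eq_right (by linarith [h.v1])]; simp

theorem Par.PP_at_zero (h : Par U v) : 1 < PP U v 0 := by
  obtain ⟨k, k0, -, -, -, e⟩ := h.PP_split 0
  have := h.MM_ge
  have := mul_nonneg h.U0.le k0
  rw [e]; simp only [mul_zero, sub_zero, zero_le_one, max_eq_left]; linarith

theorem Par.FF_one (h : Par U v) : FF U v 1 = 0 := by
  unfold FF
  rw [max_eq_right (by norm_num), max_eq_right (by linarith [h.v0]),
    max_eq_right (by linarith [h.v0])]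
  simp

theorem Par.FF_small (h : Par U v) {s : ℝ} (hs : s ≤ 1 / 500) :
    FF U v s = MM U v / 1000 * (500 * s * (2 - 500 * s)) - s * (1 - U) := by
  unfold FF
  rw [max_eq_left (by linarith), max_eq_left (by linarith [h.v1]),
    max_eq_left (by linarith [h.v1])]
  have := h.v0.ne'
  unfold MM
  field_simp
  ring

theorem Par.FF_zero (h : Par U v) : FF U v 0 = 0 := by
  rw [h.FF_small (by norm_num)]; simp

theorem Par.KK (h : Par U v) {s : ℝ} (hs : s ≤ 1) :
    0 ≤ U / (2 * v) * ((max (1 - v + -1 * s) 0) ^ 2 - (max (1 - 2 * v + -1 * s) 0) ^ 2) ∧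
    U / (2 * v) * ((max (1 - v + -1 * s) 0) ^ 2 - (max (1 - 2 * v + -1 * s) 0) ^ 2) ≤
      U * (1 - s) := by
  have hv := h.v0
  have h1 : 0 ≤ (max (1 - v + -1 * s) 0) ^ 2 - (max (1 - 2 * v + -1 * s) 0) ^ 2 ∧
      (max (1 - v + -1 * s) 0) ^ 2 - (max (1 - 2 * v + -1 * s) 0) ^ 2 ≤ 2 * v * (1 - s) := by
    rcases le_total (1 - v + -1 * s) 0 with h1 | h1 <;>
      rcases le_total (1 - 2 * v + -1 * s) 0 with h2 | h2
    · rw [max_eq_right h1, max_eq_right h2]; constructor <;> nlinarith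
    · rw [max_eq_right h1, max_eq_left h2]; constructor <;> nlinarith
    · rw [max_eq_left h1, max_eq_right h2]; constructor <;> nlinarith
    · rw [max_eq_left h1, max_eq_left h2]; constructor <;> nlinarith
  have h2 : 0 ≤ U / (2 * v) := by have := h.U0; positivity
  refine ⟨mul_nonneg h2 h1.1, (mul_le_mul_of_nonneg_left h1.2 h2).trans (le_of_eq ?_)⟩
  field_simp

theorem Par.FF_le (h : Par U v) {s : ℝ} (hs : s ≤ 1) : FF U v s ≤ 1 - s := by
  have h1 := (h.KK hs).1
  have := h.MM_ge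
  have h2 : 0 ≤ 250 * MM U v * (max (1 / 500 + -1 * s) 0) ^ 2 := by positivity
  unfold FF; linarith

theorem Par.FF_ge (h : Par U v) {s : ℝ} (h0 : 1 / 500 ≤ s) (hs : s ≤ 1) :
    (1 - U) * (1 - s) ≤ FF U v s := by
  have h1 := (h.KK hs).2
  unfold FF
  rw [max_eq_right (by linarith : 1 / 500 + -1 * s ≤ 0)]
  linarith

theorem Par.FF_kpp (h : Par U v) {s : ℝ} (h0 : 0 < s) (hs : s ≤ 1 / 20) : 18 * s < FF U v s := by
  by_cases h1 : s ≤ 1 / 500
  · rw [h.FF_small h1]
    have h2 : 500 * s ≤ 500 * s * (2 - 500 * s) := by nlinarith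
    have h3 : 990 / 1000 * (500 * s) ≤ MM U v / 1000 * (500 * s * (2 - 500 * s)) := by
      have := h.MM_ge
      gcongr
    nlinarith [h.U0]
  · have := h.FF_ge (not_le.1 h1).le (by linarith)
    nlinarith [h.U1, h.U0]

theorem Par.FF_pos (h : Par U v) {s : ℝ} (hs : s ∈ Ioo (0 : ℝ) 1) : 0 < FF U v s := by
  by_cases h1 : s ≤ 1 / 20
  · linarith [h.FF_kpp hs.1 h1, hs.1]
  · have := h.FF_ge (by linarith : 1 / 500 ≤ s) hs.2.le
    have : 0 < (1 - U) * (1 - s) := mul_pos (by linarith [h.U1]) (by linarith [hs.2])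
    linarith

/-- The reaction and its derivative. -/
noncomputable def ff (U v s : ℝ) : ℝ := 2 * FF U v s
noncomputable def ff' (U v s : ℝ) : ℝ := 2 * (-1 + PP U v s)

theorem hasDerivAt_ff (U v s : ℝ) : HasDerivAt (ff U v) (ff' U v s) s :=
  (hasDerivAt_FF U v s).const_mul 2

theorem Par.isPositiveReaction (h : Par U v) : IsPositiveReaction (ff U v) (ff' U v) := by
  obtain ⟨C, hC⟩ := lip_PP U v
  refine ⟨fun s _ => (hasDerivAt_ff U v s).hasDerivWithinAt, ⟨2 * C, 1, one_pos, le_rfl, ?_⟩,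
    by simp [ff, h.FF_zero], by simp [ff, h.FF_one], fun s hs => by
      have := h.FF_pos hs; unfold ff; linarith, by
      have := h.PP_at_zero; unfold ff'; linarith, by
      unfold ff'; rw [h.PP_zero (by linarith [h.v0])]; norm_num⟩
  rw [holderOnWith_one]
  refine (LipschitzWith.of_dist_le_mul fun s t => ?_).lipschitzOnWith
  have := hC.dist_le_mul s t
  rw [Real.dist_eq] at this ⊢
  have e : ff' U v s - ff' U v t = 2 * (PP U v s - PP U v t) := by unfold ff'; ring
  rw [e, abs_mul, abs_two]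
  push_cast
  linarith

theorem Par.good (h : Par U v) : Good (ff U v) 2 3 (1 / 20) where
  c1 := by
    rw [contDiff_one_iff_deriv]
    refine ⟨fun s => (hasDerivAt_ff U v s).differentiableAt, ?_⟩
    have : deriv (ff U v) = ff' U v := funext fun s => (hasDerivAt_ff U v s).deriv
    rw [this]
    have := continuous_PP U v
    unfold ff'; fun_prop
  f0 := by simp [ff, h.FF_zero]
  f1 := by simp [ff, h.FF_one]
  L0 := by norm_num
  nn := fun s hs => by
    rcases eq_or_lt_of_le hs.1 with e | e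
    · simp [ff, ← e, h.FF_zero]
    rcases eq_or_lt_of_le hs.2 with e' | e'
    · simp [ff, e', h.FF_one]
    have := h.FF_pos ⟨e, e'⟩
    unfold ff; linarith
  mono := fun s _ t _ hst => by
    have : Monotone fun s => ff U v s + 2 * s := by
      refine monotone_of_hasDerivAt_nonneg (f' := fun s => ff' U v s + 2 * 1)
        (fun s => (hasDerivAt_ff U v s).fun_add ((hasDerivAt_id' s).const_mul 2)) fun s => ?_
      have := h.PP_nonneg s
      simp only [ff', Pi.zero_apply]; linarith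
    exact this hst
  α0 := by norm_num
  t0pos := by norm_num
  t01 := by norm_num
  kpp := fun s hs => by
    rcases eq_or_lt_of_le hs.1 with e | e
    · simp [ff, ← e, h.FF_zero]
    have := h.FF_kpp e hs.2
    unfold ff; linarith

end Pool.Agent.Lib.MP_6e1ed0_an
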