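import Pool.Agent.Lib.MP_6e1ed0_an.Weak

/-! Interior regularity of weak solutions and passage to the limit. -/

namespace Pool.Agent.Lib.MP_6e1ed0_an

open Set Filter Topology Laplacian MeasureTheory Metric
open scoped ContDiff

theorem lap_sub {u v : E2 → ℝ} {x : E2} (hu : ContDiffAt ℝ 2 u x) (hv : ContDiffAt ℝ 2 v x) :
    Δ (fun y => u y - v y) x = Δ u x - Δ v x := hu.laplacian_sub hv

theorem reg1_aux {u F : E2 → ℝ} {p : E2} {r : ℝ} (hr : 0 < r) (hu : LocallyIntegrable u)
    (hF : LocallyIntegrable F) (cu : ContinuousOn u (closedBall p (2 * r + r)))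
    (cF : ContinuousOn F (closedBall p (2 * r + r))) (h : Weak (ball p (4 * r)) u F) :
    ContDiffAt ℝ 1 u p := by
  have hδ : ∀ n : ℕ, 0 < r / (n + 1) := fun n => by positivity
  have hδr : ∀ n : ℕ, r / (n + 1) ≤ r := fun n =>
    div_le_self hr.le (by linarith [(Nat.cast_nonneg n : (0 : ℝ) ≤ n)])
  set ρ : ℕ → E2 → ℝ := fun n => (bmp _ (hδ n)).normed volume with hρ
  set U : ℕ → E2 → ℝ := fun n => mol (ρ n) u with hU
  have sm : ∀ n, ContDiff ℝ ∞ (U n) := fun n => contDiff_mol (test_bmp _ _) hu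
  have lapU : ∀ n, ∀ x ∈ closedBall p (2 * r), Δ (U n) x = mol (ρ n) F x := by
    intro n x hx
    rw [lap_mol (test_bmp _ _) hu, mol_eq]
    refine h _ (test_reflect (test_bmp _ _) (tsupport_bmp _ _) fun y hy => ?_)
    have h1 : dist y x ≤ r / (n + 1) := hy
    have h2 : dist x p ≤ 2 * r := hx
    have := dist_triangle y x p
    have := hδr n
    simp only [mem_ball]; linarith
  have small : ∀ δ0 > 0, ∃ N : ℕ, ∀ n ≥ N, r / (n + 1) ≤ δ0 := by
    intro δ0 h0
    obtain ⟨N, hN⟩ := exists_nat_ge (r / δ0)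
    refine ⟨N, fun n hn => ?_⟩
    have : (N : ℝ) ≤ n := by exact_mod_cast hn
    rw [div_le_iff₀ (by positivity)]
    rw [div_le_iff₀ h0] at hN
    nlinarith
  have app : ∀ ε > 0, ∃ N : ℕ, ∀ n ≥ N, ∀ x ∈ closedBall p (2 * r),
      |U n x - u x| ≤ ε ∧ |Δ (U n) x - F x| ≤ ε := by
    intro ε hε
    obtain ⟨δ1, h1, h2⟩ := mol_approx hu hr cu hε
    obtain ⟨δ2, h3, h4⟩ := mol_approx hF hr cF hε
    obtain ⟨N, hN⟩ := small _ (lt_min h1 h3)
    refine ⟨N, fun n hn x hx => ⟨h2 _ _ ((hN n hn).trans (min_le_left _ _)) x hx, ?_⟩⟩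
    rw [lapU n x hx]
    exact h4 _ _ ((hN n hn).trans (min_le_right _ _)) x hx
  have cau : UniformCauchySeqOn (fun n x => fderiv ℝ (U n) x) atTop (ball p r) := by
    rw [Metric.uniformCauchySeqOn_iff]
    intro ε hε
    have hC : 0 < 16 / r + 2 * r + 1 := by positivity
    obtain ⟨N, hN⟩ := app (ε / (16 / r + 2 * r + 1)) (by positivity)
    refine ⟨N, fun m hm n hn x hx => ?_⟩
    set e := ε / (16 / r + 2 * r + 1) with he
    have he0 : 0 < e := by positivity
    have hb := brandt (u := fun y => U m y - U n y) (p := x) (r := r / 2) (A := 2 * e)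
      (B := 2 * e) (by positivity) (by positivity) fun y hy => ?_
    · rw [fderiv_fun_sub ((sm m).differentiable (by simp) x)
        ((sm n).differentiable (by simp) x)] at hb
      rw [dist_eq_norm]
      refine hb.trans_lt ?_
      have e1 : 2 * (2 * (2 * e) / (r / 2) + 2 * e * (r / 2)) = (16 / r + 2 * r) * e := by
        field_simp; ring
      have e2 : (16 / r + 2 * r + 1) * e = ε := by rw [he]; field_simp
      rw [e1]; linarith
    · have hy2 : y ∈ closedBall p (2 * r) := by
        have h1 : dist y x ≤ 2 * (r / 2) := hy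
        have h2 : dist x p < r := hx
        have := dist_triangle y x p
        simp only [mem_closedBall]; linarith
      have c1 : ContDiffAt ℝ 2 (U m) y := ((sm m).of_le two_le_inf).contDiffAt
      have c2 : ContDiffAt ℝ 2 (U n) y := ((sm n).of_le two_le_inf).contDiffAt
      obtain ⟨a1, a2⟩ := hN m hm y hy2
      obtain ⟨a3, a4⟩ := hN n hn y hy2
      rw [abs_le] at a1 a2 a3 a4
      refine ⟨c1.sub c2, abs_le.2 ⟨by linarith, by linarith⟩, ?_⟩
      rw [lap_sub c1 c2]
      exact abs_le.2 ⟨by linarith, by linarith⟩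
  have lim : ∀ x ∈ ball p r, Tendsto (fun n => fderiv ℝ (U n) x) atTop
      (𝓝 (limUnder atTop fun n => fderiv ℝ (U n) x)) := fun x hx =>
    (cau.cauchySeq hx).tendsto_limUnder
  have unif := cau.tendstoUniformlyOn_of_tendsto lim
  rw [contDiffAt_one_iff]
  refine ⟨fun x => limUnder atTop fun n => fderiv ℝ (U n) x, ball p r, ball_mem_nhds p hr,
    unif.continuousOn (Eventually.of_forall fun n =>
      ((sm n).continuous_fderiv (by simp)).continuousOn).frequently, fun x hx => ?_⟩
  refine hasFDerivAt_of_tendstoUniformlyOn isOpen_ball unif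
    (fun n y _ => ((sm n).differentiable (by simp) y).hasFDerivAt) (fun y hy => ?_) hx
  rw [Metric.tendsto_atTop]
  intro ε hε
  obtain ⟨N, hN⟩ := app (ε / 2) (by positivity)
  refine ⟨N, fun n hn => ?_⟩
  have := (hN n hn y (ball_subset_closedBall (ball_subset_ball (by linarith) hy))).1
  rw [Real.dist_eq]; linarith

theorem reg1 {Ω : Set E2} (hΩ : IsOpen Ω) {u F : E2 → ℝ} (cu : ContinuousOn u Ω)
    (cF : ContinuousOn F Ω) (h : Weak Ω u F) : ContDiffOn ℝ 1 u Ω := by
  intro p hp
  obtain ⟨R, hR, hsub⟩ := nhds_basis_closedBall.mem_iff.1 (hΩ.mem_nhds hp)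
  have hr : 0 < R / 4 := by positivity
  set K := closedBall p R with hK
  have li : ∀ {g : E2 → ℝ}, ContinuousOn g Ω → LocallyIntegrable (K.indicator g) := fun hg =>
    (((hg.mono hsub).integrableOn_compact (isCompact_closedBall p R)).integrable_indicator
      measurableSet_closedBall).locallyIntegrable
  have s1 : closedBall p (2 * (R / 4) + R / 4) ⊆ K := closedBall_subset_closedBall (by linarith)
  have s2 : ball p (4 * (R / 4)) ⊆ K := by
    rw [show 4 * (R / 4) = R by ring]; exact ball_subset_closedBall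
  have := reg1_aux hr (li cu) (li cF)
    ((cu.mono (s1.trans hsub)).congr fun x hx => indicator_of_mem (s1 hx) u)
    ((cF.mono (s1.trans hsub)).congr fun x hx => indicator_of_mem (s1 hx) F)
    ((h.mono (s2.trans hsub)).congr (fun x hx => indicator_of_mem (s2 hx) u)
      (fun x hx => indicator_of_mem (s2 hx) F))
  refine (this.congr_of_eventuallyEq ?_).contDiffWithinAt
  filter_upwards [closedBall_mem_nhds p hR] with x hx using (indicator_of_mem hx u).symm

theorem reg2 {Ω : Set E2} (hΩ : IsOpen Ω) {u F : E2 → ℝ} (cu : ContinuousOn u Ω)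
    (cF : ContDiffOn ℝ 1 F Ω) (h : Weak Ω u F) :
    ContDiffOn ℝ 2 u Ω ∧ ∀ x ∈ Ω, Δ u x = F x := by
  have h1 := reg1 hΩ cu cF.continuousOn h
  have h2 : ContDiffOn ℝ 2 u Ω := by
    rw [show (2 : WithTop ℕ∞) = 1 + 1 from rfl, contDiffOn_succ_iff_fderiv_of_isOpen hΩ]
    refine ⟨h1.differentiableOn (by simp), by simp, contDiffOn_clm_apply.2 fun e => ?_⟩
    exact reg1 hΩ (continuousOn_dd hΩ h1 e) (continuousOn_dd hΩ cF e) (h.dd hΩ h1 cF e)
  refine ⟨h2, ?_⟩
  have c3 : ContinuousOn (fun x => Δ u x - F x) Ω := (continuousOn_lap hΩ h2).sub cF.continuousOn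
  have h3 := hΩ.ae_eq_zero_of_integral_contDiff_smul_eq_zero (μ := volume)
    (c3.locallyIntegrableOn hΩ.measurableSet) fun g g1 g2 g3 => by
      have t : Test Ω g := ⟨g1, g2, g3⟩
      have e1 := weak_of_classical hΩ h2 g t
      have e2 := h g t
      have e3 : ∀ x, g x • (Δ u x - F x) = Δ u x * g x - F x * g x := fun x => by
        simp only [smul_eq_mul]; ring
      simp only [e3]
      rw [integral_sub (integrable_mul_test hΩ (continuousOn_lap hΩ h2) t)
        (integrable_mul_test hΩ cF.continuousOn t)]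
      linarith
  have h4 := Measure.eqOn_open_of_ae_eq (μ := volume) (f := fun x => Δ u x - F x)
    (g := fun _ => 0) ((ae_restrict_iff' hΩ.measurableSet).2 h3) hΩ c3 continuousOn_const
  intro x hx
  exact sub_eq_zero.1 (h4 hx)

theorem tendsto_integral_test {Ω : Set E2} (hΩ : IsOpen Ω) {w : ℕ → E2 → ℝ} {u θ : E2 → ℝ} {A : ℝ}
    (hc : ∀ n, ContinuousOn (w n) Ω) (hA : ∀ n, ∀ x ∈ Ω, |w n x| ≤ A)
    (hl : ∀ x ∈ Ω, Tendsto (fun n => w n x) atTop (𝓝 (u x))) (t : Test Ω θ) :
    Tendsto (fun n => ∫ x, w n x * θ x) atTop (𝓝 (∫ x, u x * θ x)) := by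
  refine tendsto_integral_of_dominated_convergence (fun x => A * |θ x|)
    (fun n => (integrable_mul_test hΩ (hc n) t).aestronglyMeasurable)
    ((t.1.continuous.integrable_of_hasCompactSupport t.2.1).abs.const_mul A)
    (fun n => Eventually.of_forall fun x => ?_) (Eventually.of_forall fun x => ?_)
  · by_cases hx : x ∈ tsupport θ
    · rw [Real.norm_eq_abs, abs_mul]
      exact mul_le_mul_of_nonneg_right (hA n x (t.2.2 hx)) (abs_nonneg _)
    · simp [image_eq_zero_of_notMem_tsupport hx]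
  · by_cases hx : x ∈ tsupport θ
    · exact (hl x (t.2.2 hx)).mul_const _
    · simp [image_eq_zero_of_notMem_tsupport hx]

/-- Pointwise limits of bounded classical solutions are continuous weak solutions. -/
theorem limit_weak {Ω : Set E2} (hΩ : IsOpen Ω) {w : ℕ → E2 → ℝ} {u F : E2 → ℝ} {A B : ℝ}
    (hc : ∀ n, ContDiffOn ℝ 2 (w n) Ω) (hA : ∀ n, ∀ x ∈ Ω, |w n x| ≤ A)
    (hB : ∀ n, ∀ x ∈ Ω, |Δ (w n) x| ≤ B)
    (hl : ∀ x ∈ Ω, Tendsto (fun n => w n x) atTop (𝓝 (u x)))
    (hF : ∀ x ∈ Ω, Tendsto (fun n => Δ (w n) x) atTop (𝓝 (F x))) :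
    ContinuousOn u Ω ∧ Weak Ω u F := by
  constructor
  · intro p hp
    obtain ⟨R, hR, hsub⟩ := nhds_basis_closedBall.mem_iff.1 (hΩ.mem_nhds hp)
    set C := 2 * (2 * A / (R / 4) + (|B| + 1) * (R / 4)) with hC
    have s1 : ball p (R / 2) ⊆ Ω :=
      (ball_subset_closedBall.trans (closedBall_subset_closedBall (by linarith))).trans hsub
    have hb : ∀ n, ∀ x ∈ ball p (R / 2), ‖fderiv ℝ (w n) x‖ ≤ C := by
      intro n x hx
      refine brandt (by positivity) (by positivity) fun y hy => ?_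
      have hy2 : y ∈ Ω := by
        apply hsub
        have h1 : dist y x ≤ 2 * (R / 4) := hy
        have h2 : dist x p < R / 2 := hx
        have := dist_triangle y x p
        simp only [mem_closedBall]; linarith
      exact ⟨(hc n).contDiffAt (hΩ.mem_nhds hy2), hA n y hy2,
        (hB n y hy2).trans ((le_abs_self B).trans (by linarith))⟩
    have hp2 : p ∈ ball p (R / 2) := mem_ball_self (by positivity)
    have lip : ∀ x ∈ ball p (R / 2), ‖u x - u p‖ ≤ C * ‖x - p‖ := by
      intro x hx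
      refine le_of_tendsto' ((hl x (s1 hx)).sub (hl p hp)).norm fun n => ?_
      exact (convex_ball p (R / 2)).norm_image_sub_le_of_norm_fderiv_le
        (fun y hy => ((hc n).contDiffAt (hΩ.mem_nhds (s1 hy))).differentiableAt (by simp))
        (hb n) hp2 hx
    refine ContinuousAt.continuousWithinAt ?_
    rw [ContinuousAt, tendsto_iff_norm_sub_tendsto_zero]
    have t0 : Tendsto (fun x : E2 => C * ‖x - p‖) (𝓝 p) (𝓝 0) := by
      have : Continuous fun x : E2 => C * ‖x - p‖ := by fun_prop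
      simpa using this.tendsto p
    refine squeeze_zero' (Eventually.of_forall fun _ => norm_nonneg _) ?_ t0
    filter_upwards [ball_mem_nhds p (show 0 < R / 2 by positivity)] with x hx using lip x hx
  · intro θ t
    have h1 := tendsto_integral_test hΩ (fun n => (hc n).continuousOn) hA hl t.lap
    have h2 := tendsto_integral_test hΩ (fun n => continuousOn_lap hΩ (hc n)) hB hF t
    refine tendsto_nhds_unique h1 (h2.congr fun n => ?_)
    exact (weak_of_classical hΩ (hc n) θ t).symm

end Pool.Agent.Lib.MP_6e1ed0_an
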