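import Pool.Agent.Lib.MP_6e1ed0_an.Reg

/-! The resolvent of the Laplacian on bounded functions of the plane. -/

namespace Pool.Agent.Lib.MP_6e1ed0_an

open Set Filter Topology Laplacian MeasureTheory Metric
open scoped ContDiff SchwartzMap

theorem temperate_inv {K : ℝ} (hK : 0 < K) :
    (fun ξ : E2 => (K + (2 * Real.pi) ^ 2 * ‖ξ‖ ^ 2)⁻¹).HasTemperateGrowth := by
  set c : ℝ := 2 * Real.pi / √K with hc
  have h1 := (Function.hasTemperateGrowth_one_add_norm_sq_rpow E2 (-1)).comp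
    (c • ContinuousLinearMap.id ℝ E2).hasTemperateGrowth
  have h2 := (Function.HasTemperateGrowth.const (E := E2) K⁻¹).mul h1
  have e : (fun ξ : E2 => (K + (2 * Real.pi) ^ 2 * ‖ξ‖ ^ 2)⁻¹) = (fun _ : E2 => K⁻¹) *
      ((fun x : E2 => (1 + ‖x‖ ^ 2) ^ (-1 : ℝ)) ∘ ⇑(c • ContinuousLinearMap.id ℝ E2)) := by
    funext ξ
    have h3 : c ^ 2 = (2 * Real.pi) ^ 2 / K := by rw [hc, div_pow, Real.sq_sqrt hK.le]
    simp only [Pi.mul_apply, Function.comp, _root_.smul_apply, ContinuousLinearMap.id_apply,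
      norm_smul, mul_pow, Real.norm_eq_abs, sq_abs, h3, Real.rpow_neg_one]
    rw [← mul_inv]
    congr 1
    field_simp
  rw [e]; exact h2

theorem schwartz_solve {K : ℝ} (hK : 0 < K) {g : E2 → ℝ} (h1 : ContDiff ℝ ∞ g)
    (h2 : HasCompactSupport g) :
    ∃ w : E2 → ℝ, ContDiff ℝ ∞ w ∧ (∃ B, ∀ x, |w x| ≤ B) ∧ ∀ x, Δ w x = K * w x - g x := by
  have c1 : HasCompactSupport (Complex.ofRealCLM ∘ g) := h2.comp_left (by simp)
  have c2 : ContDiff ℝ ∞ (Complex.ofRealCLM ∘ g) := Complex.ofRealCLM.contDiff.comp h1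
  set G : 𝓢(E2, ℂ) := c1.toSchwartzMap c2 with hG
  set m : E2 → ℝ := fun ξ => (K + (2 * Real.pi) ^ 2 * ‖ξ‖ ^ 2)⁻¹ with hm
  have tm : m.HasTemperateGrowth := temperate_inv hK
  set W : 𝓢(E2, ℂ) := SchwartzMap.fourierMultiplierCLM ℂ m G with hW
  have tn : (fun ξ : E2 => ‖ξ‖ ^ 2).HasTemperateGrowth := Function.hasTemperateGrowth_norm_sq E2
  have key : Δ W = K • W - G := by
    rw [SchwartzMap.laplacian_eq_fourierMultiplierCLM, hW,
      SchwartzMap.fourierMultiplierCLM_fourierMultiplierCLM_apply tn tm]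
    have e1 : G = SchwartzMap.fourierMultiplierCLM ℂ (fun _ : E2 => (1 : ℝ)) G := by simp
    have e2 : (fun _ : E2 => (1 : ℝ)) =
        K • m + (2 * Real.pi) ^ 2 • ((fun ξ : E2 => ‖ξ‖ ^ 2) * m) := by
      funext ξ
      have : 0 < K + (2 * Real.pi) ^ 2 * ‖ξ‖ ^ 2 := by positivity
      simp only [hm, Pi.add_apply, Pi.smul_apply, Pi.mul_apply, smul_eq_mul]
      field_simp
    have t1 : (K • m).HasTemperateGrowth := (Function.HasTemperateGrowth.const K).smul tm
    have t2 : ((2 * Real.pi) ^ 2 • ((fun ξ : E2 => ‖ξ‖ ^ 2) * m)).HasTemperateGrowth :=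
      (Function.HasTemperateGrowth.const ((2 * Real.pi) ^ 2)).smul (tn.mul tm)
    have e3 : G = K • SchwartzMap.fourierMultiplierCLM ℂ m G + (2 * Real.pi) ^ 2 •
        SchwartzMap.fourierMultiplierCLM ℂ ((fun ξ : E2 => ‖ξ‖ ^ 2) * m) G := by
      conv_lhs => rw [e1, e2]
      rw [SchwartzMap.fourierMultiplierCLM_apply, SchwartzMap.smulLeftCLM_add t1 t2,
        SchwartzMap.smulLeftCLM_smul tm, SchwartzMap.smulLeftCLM_smul (tn.mul tm),
        SchwartzMap.fourierMultiplierCLM_apply, SchwartzMap.fourierMultiplierCLM_apply]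
      simp only [_root_.add_apply, _root_.smul_apply, FourierTransform.fourierInv_add,
        FourierTransform.fourierInv_smul]
    rw [neg_smul, eq_sub_iff_add_eq, neg_add_eq_iff_eq_add, add_comm]
    exact e3
  refine ⟨Complex.reCLM ∘ W, Complex.reCLM.contDiff.comp (W.smooth ⊤),
    ⟨SchwartzMap.seminorm ℝ 0 0 W, fun x => (Complex.abs_re_le_norm _).trans
      (W.norm_le_seminorm ℝ x)⟩, fun x => ?_⟩
  rw [((W.smooth ⊤).of_le two_le_inf).contDiffAt.laplacian_CLM_comp_left, Function.comp,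
    ← SchwartzMap.laplacian_apply, key]
  simp [hG]

theorem norm_sq_eq (x : E2) : ‖x‖ ^ 2 = x 0 ^ 2 + x 1 ^ 2 := by
  rw [EuclideanSpace.norm_sq_eq]; simp

/-- Global comparison with a parabola. -/
theorem cmp_glob {w : E2 → ℝ} (hw : ContDiff ℝ 2 w) {B K a b : ℝ} (hB : ∀ x, -B ≤ w x)
    (hK : 0 < K) (hb : 0 ≤ b) (h : ∀ x, Δ w x + 4 * b ≤ K * (w x + a + b * ‖x‖ ^ 2)) (x : E2) :
    0 ≤ w x + a + b * ‖x‖ ^ 2 := by
  have e : ∀ q : ℝ × ℝ, ‖fr 0 ex ey q‖ ^ 2 = (q.1 - 0) ^ 2 + (q.2 - 0) ^ 2 := fun q => by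
    rw [norm_sq_eq, fr_std_zero, fr_std_one]; simp
  have := maxp (C := univ) (D := univ) isClosed_univ isOpen_univ Subset.rfl
    (w := fun q => w (fr 0 ex ey q) + a + b * ((q.1 - 0) ^ 2 + (q.2 - 0) ^ 2)) (B := B - a)
    (c := K) (κ := 0) ?_ ?_ (fun q _ h => (h (mem_univ q)).elim) hK.le le_rfl (Or.inl hK) ?_
    (x 0, x 1) (mem_univ _)
  · rw [← e, fr_std_inv] at this; exact this
  · have := hw.continuous
    have := continuous_fr 0 ex ey
    fun_prop
  · intro q _
    have := hB (fr 0 ex ey q)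
    have : 0 ≤ b * ((q.1 - 0) ^ 2 + (q.2 - 0) ^ 2) := by positivity
    linarith
  · intro q _ _
    refine ⟨_, ((L2.std hw.contDiffAt).add (L2.const a q)).add ((L2.sq 0 0 q).const_mul b), ?_⟩
    have := h (fr 0 ex ey q)
    rw [e] at this
    linarith

theorem lap_neg {u : E2 → ℝ} (x : E2) : Δ (fun y => -u y) x = -Δ u x := by
  have := congrFun (InnerProductSpace.laplacian_neg (f := u)) x
  exact this

theorem abs_le_of_lap {w g : E2 → ℝ} (hw : ContDiff ℝ 2 w) {B K a b : ℝ} (hB : ∀ x, |w x| ≤ B)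
    (hK : 0 < K) (hb : 0 ≤ b) (h : ∀ x, Δ w x = K * w x - g x)
    (hg : ∀ x, |g x| + 4 * b ≤ K * (a + b * ‖x‖ ^ 2)) (x : E2) : |w x| ≤ a + b * ‖x‖ ^ 2 := by
  have h1 := cmp_glob hw (fun x => (abs_le.1 (hB x)).1) hK hb (a := a) (fun y => by
    have := hg y
    have := neg_abs_le (g y)
    rw [h]; linarith) x
  have h2 := cmp_glob hw.neg (B := B) (fun x => by linarith [(abs_le.1 (hB x)).2]) hK hb (a := a)
    (fun y => by
      have := hg y
      have := le_abs_self (g y)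
      rw [lap_neg, h]; linarith) x
  exact abs_le.2 ⟨by linarith, by linarith⟩

theorem exists_approx {g : E2 → ℝ} (hg : Continuous g) {B : ℝ} (hB : ∀ x, |g x| ≤ B) :
    ∃ s : ℕ → E2 → ℝ, (∀ n, ContDiff ℝ ∞ (s n)) ∧ (∀ n, HasCompactSupport (s n)) ∧
      (∀ n x, |s n x| ≤ 3 * B) ∧
      ∀ R ε, 0 < ε → ∃ N, ∀ n ≥ N, ∀ x ∈ closedBall (0 : E2) R, |s n x - g x| ≤ ε := by
  have h1 : ∀ n : ℕ, (0 : ℝ) < 1 / (n + 1) := fun n => by positivity
  choose t ht1 ht2 using fun n => hg.exists_contDiff_dist_le_of_forall_mem_ball_dist_le (h1 n)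
  let χ : ℕ → ContDiffBump (0 : E2) := fun n => ⟨n + 1, n + 2, by positivity, by linarith⟩
  refine ⟨fun n x => χ n x * t n x, fun n => (χ n).contDiff.mul (ht1 n),
    fun n => (χ n).hasCompactSupport.mul_right, fun n x => ?_, fun R ε hε => ?_⟩
  · have h2 := ht2 n x (2 * B) fun y _ => by
      have := abs_le.1 (hB x)
      have := abs_le.1 (hB y)
      rw [Real.dist_eq, abs_le]; constructor <;> linarith
    have h3 := abs_le.1 (hB x)
    rw [Real.dist_eq, abs_le] at h2
    have h4 : |t n x| ≤ 3 * B := abs_le.2 ⟨by linarith, by linarith⟩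
    rw [abs_mul, abs_of_nonneg (χ n).nonneg]
    calc _ ≤ 1 * |t n x| := by gcongr; exact (χ n).le_one
      _ ≤ _ := by linarith
  · obtain ⟨δ, d1, d2⟩ := Metric.uniformContinuousOn_iff.1
      ((isCompact_closedBall (0 : E2) (R + 1)).uniformContinuousOn_of_continuous
        hg.continuousOn) ε hε
    obtain ⟨N, hN⟩ := exists_nat_ge (max R (1 / δ))
    refine ⟨N, fun n hn x hx => ?_⟩
    have h2 : (N : ℝ) ≤ n := by exact_mod_cast hn
    have h3 : R ≤ n := (le_max_left _ _).trans (hN.trans h2)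
    have h4 : 1 / δ ≤ n := (le_max_right _ _).trans (hN.trans h2)
    have h5 : χ n x = 1 := (χ n).one_of_mem_closedBall
      (closedBall_subset_closedBall (by show R ≤ n + 1; linarith) hx)
    have h6 : 1 / ((n : ℝ) + 1) ≤ δ := by
      rw [div_le_iff₀ (by positivity)]
      rw [div_le_iff₀ d1] at h4
      nlinarith
    have h7 : 1 / ((n : ℝ) + 1) ≤ 1 := by
      rw [div_le_one (by positivity)]; linarith [(Nat.cast_nonneg n : (0 : ℝ) ≤ n)]
    simp only [h5, one_mul]
    refine ht2 n x ε fun y hy => (d2 y ?_ x (closedBall_subset_closedBall (by linarith) hx)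
      (lt_of_lt_of_le hy h6)).le
    have h8 : dist y x < 1 / (n + 1) := hy
    have h9 : dist x 0 ≤ R := hx
    have := dist_triangle y x 0
    simp only [mem_closedBall]; linarith

/-- The resolvent of bounded `C^1` data. -/
theorem resolvent {K : ℝ} (hK : 0 < K) {g : E2 → ℝ} (hg : ContDiff ℝ 1 g) {B : ℝ}
    (hB : ∀ x, |g x| ≤ B) :
    ∃ w : E2 → ℝ, ContDiff ℝ 2 w ∧ (∃ A, ∀ x, |w x| ≤ A) ∧ ∀ x, Δ w x = K * w x - g x := by
  have hB0 : 0 ≤ B := (abs_nonneg _).trans (hB 0)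
  obtain ⟨s, s1, s2, s3, s4⟩ := exists_approx hg.continuous hB
  choose w w1 w2 w3 using fun n => schwartz_solve hK (s1 n) (s2 n)
  choose A hA using w2
  have c2 : ∀ n, ContDiff ℝ 2 (w n) := fun n => (w1 n).of_le two_le_inf
  have bd : ∀ n x, |w n x| ≤ 3 * B / K := fun n x => by
    have := abs_le_of_lap (c2 n) (hA n) hK le_rfl (w3 n) (a := 3 * B / K) (fun y => by
      have := s3 n y
      have e : K * (3 * B / K + 0 * ‖y‖ ^ 2) = 3 * B := by field_simp; ring
      rw [e]; linarith) x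
    simpa using this
  have cau : ∀ x, CauchySeq fun n => w n x := by
    intro x
    rw [Metric.cauchySeq_iff]
    intro η hη
    set b := η / 4 / (‖x‖ ^ 2 + 4 / K) with hb
    have hb0 : 0 < b := by positivity
    have hb1 : b * (‖x‖ ^ 2 + 4 / K) = η / 4 := by rw [hb]; field_simp
    obtain ⟨N, hN⟩ := s4 (6 * B / (K * b) + 1) (K * η / 8) (by positivity)
    refine ⟨N, fun m hm n hn => ?_⟩
    have := abs_le_of_lap ((c2 m).sub (c2 n)) (B := A m + A n) (fun y => by
        have := abs_le.1 (hA m y)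
        have := abs_le.1 (hA n y)
        exact abs_le.2 ⟨by linarith, by linarith⟩) hK hb0.le
      (g := fun y => s m y - s n y) (a := η / 4 + 4 * b / K) (fun y => by
        rw [lap_sub (c2 m).contDiffAt (c2 n).contDiffAt, w3, w3]; ring) (fun y => by
        have e : K * (η / 4 + 4 * b / K + b * ‖y‖ ^ 2) =
            K * η / 4 + 4 * b + K * b * ‖y‖ ^ 2 := by field_simp
        rw [e]
        by_cases hy : y ∈ closedBall (0 : E2) (6 * B / (K * b) + 1)
        · have := abs_le.1 (hN m hm y hy)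
          have := abs_le.1 (hN n hn y hy)
          have : |s m y - s n y| ≤ K * η / 4 := abs_le.2 ⟨by linarith, by linarith⟩
          have : 0 ≤ K * b * ‖y‖ ^ 2 := by positivity
          linarith
        · have h1 : 6 * B / (K * b) + 1 < ‖y‖ := by simpa using hy
          have h2 : 0 ≤ 6 * B / (K * b) := by positivity
          have h3 : 6 * B / (K * b) ≤ ‖y‖ ^ 2 := by nlinarith
          rw [div_le_iff₀ (by positivity)] at h3
          have := abs_le.1 (s3 m y)
          have := abs_le.1 (s3 n y)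
          have : |s m y - s n y| ≤ 6 * B := abs_le.2 ⟨by linarith, by linarith⟩
          have : 0 ≤ K * η / 4 := by positivity
          linarith) x
    rw [Real.dist_eq]
    refine this.trans_lt ?_
    have e : 4 * b / K + b * ‖x‖ ^ 2 = b * (‖x‖ ^ 2 + 4 / K) := by ring
    linarith
  set u : E2 → ℝ := fun x => limUnder atTop fun n => w n x with hu
  have lim : ∀ x, Tendsto (fun n => w n x) atTop (𝓝 (u x)) := fun x => (cau x).tendsto_limUnder
  have lims : ∀ x, Tendsto (fun n => s n x) atTop (𝓝 (g x)) := by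
    intro x
    rw [Metric.tendsto_atTop]
    intro ε hε
    obtain ⟨N, hN⟩ := s4 ‖x‖ (ε / 2) (by positivity)
    refine ⟨N, fun n hn => ?_⟩
    have := hN n hn x (by simp)
    rw [Real.dist_eq]; linarith
  obtain ⟨l1, l2⟩ := limit_weak isOpen_univ (w := w) (u := u) (F := fun x => K * u x - g x)
    (A := 3 * B / K) (B := 6 * B) (fun n => (c2 n).contDiffOn) (fun n x _ => bd n x)
    (fun n x _ => by
      have h1 := abs_le.1 (bd n x)
      have h2 := abs_le.1 (s3 n x)
      have h3 : K * w n x ≤ 3 * B := by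
        have := h1.2; rw [le_div_iff₀ hK] at this; linarith
      have h4 : -(3 * B) ≤ K * w n x := by
        have := h1.1; rw [← neg_div, div_le_iff₀ hK] at this; linarith
      rw [w3]; exact abs_le.2 ⟨by linarith, by linarith⟩)
    (fun x _ => lim x) (fun x _ => by
      simp only [w3]; exact ((lim x).const_mul K).sub (lims x))
  have r1 := reg1 isOpen_univ l1 ((continuousOn_const.mul l1).sub hg.continuous.continuousOn) l2
  obtain ⟨r2, r3⟩ := reg2 isOpen_univ l1 ((contDiffOn_const.mul r1).sub hg.contDiffOn) l2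
  exact ⟨u, contDiffOn_univ.1 r2, ⟨3 * B / K, fun x => le_of_tendsto' (lim x).abs fun n => bd n x⟩,
    fun x => r3 x (mem_univ x)⟩

end Pool.Agent.Lib.MP_6e1ed0_an
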