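import Pool.Agent.Lib.MP_6e1ed0_an.Brandt

/-! Weak formulation, mollification and interior regularity. -/

namespace Pool.Agent.Lib.MP_6e1ed0_an

open Set Filter Topology Laplacian MeasureTheory Metric
open scoped ContDiff Convolution

theorem two_le_inf : (2 : WithTop ℕ∞) ≤ ∞ := by
  exact WithTop.coe_le_coe.2 (le_top : (2 : ℕ∞) ≤ ⊤)

/-- Directional derivative as a function. -/
noncomputable def dd (e : E2) (g : E2 → ℝ) : E2 → ℝ := fun x => fderiv ℝ g x e

/-- Test functions in `Ω`. -/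
def Test (Ω : Set E2) (θ : E2 → ℝ) : Prop :=
  ContDiff ℝ ∞ θ ∧ HasCompactSupport θ ∧ tsupport θ ⊆ Ω

theorem contDiff_dd {θ : E2 → ℝ} (h : ContDiff ℝ ∞ θ) (e : E2) : ContDiff ℝ ∞ (dd e θ) :=
  (h.fderiv_right (m := ∞) (by simp)).clm_apply contDiff_const

theorem Test.dd {Ω : Set E2} {θ : E2 → ℝ} (h : Test Ω θ) (e : E2) : Test Ω (dd e θ) :=
  ⟨contDiff_dd h.1 e, h.2.1.fderiv_apply (𝕜 := ℝ) e,
    (tsupport_fderiv_apply_subset ℝ e).trans h.2.2⟩

theorem Test.add {Ω : Set E2} {θ η : E2 → ℝ} (h : Test Ω θ) (k : Test Ω η) :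
    Test Ω (fun x => θ x + η x) :=
  ⟨h.1.add k.1, h.2.1.add k.2.1, (tsupport_add θ η).trans (union_subset h.2.2 k.2.2)⟩

theorem dd_dd {g : E2 → ℝ} {x : E2} (h : ContDiffAt ℝ 2 g x) (e e' : E2) :
    dd e (dd e' g) x = Hs g x e e' := by
  have h2 : DifferentiableAt ℝ (fderiv ℝ g) x :=
    (h.fderiv_right (m := 1) (by norm_num)).differentiableAt (by simp)
  have := (h2.hasFDerivAt.clm_apply (hasFDerivAt_const e' x)).fderiv
  unfold dd Hs
  rw [this]; simp

theorem lap_dd {g : E2 → ℝ} {x : E2} (h : ContDiffAt ℝ 2 g x) :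
    Δ g x = dd ex (dd ex g) x + dd ey (dd ey g) x := by
  rw [lap_eq, dd_dd h, dd_dd h]

theorem lap_fun {g : E2 → ℝ} (h : ContDiff ℝ ∞ g) :
    Δ g = fun x => dd ex (dd ex g) x + dd ey (dd ey g) x :=
  funext fun _ => lap_dd (h.of_le two_le_inf).contDiffAt

theorem Test.lap {Ω : Set E2} {θ : E2 → ℝ} (h : Test Ω θ) : Test Ω (Δ θ) := by
  rw [lap_fun h.1]; exact ((h.dd _).dd _).add ((h.dd _).dd _)

theorem dd_comm {g : E2 → ℝ} (h : ContDiff ℝ ∞ g) (e e' : E2) :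
    dd e (dd e' g) = dd e' (dd e g) := by
  funext x
  have h2 : ContDiffAt ℝ 2 g x := (h.of_le two_le_inf).contDiffAt
  rw [dd_dd h2, dd_dd h2]
  exact h2.isSymmSndFDerivAt (by simp) e e'

theorem dd_add {g k : E2 → ℝ} {x : E2} (h1 : DifferentiableAt ℝ g x) (h2 : DifferentiableAt ℝ k x)
    (e : E2) : dd e (fun y => g y + k y) x = dd e g x + dd e k x := by
  unfold dd; rw [fderiv_fun_add h1 h2]; simp

theorem lap_dd_comm {g : E2 → ℝ} (h : ContDiff ℝ ∞ g) (e : E2) :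
    Δ (dd e g) = dd e (Δ g) := by
  rw [lap_fun h, lap_fun (contDiff_dd h e)]
  funext x
  rw [dd_add (((contDiff_dd (contDiff_dd h _) _).differentiable (by simp)) x)
    (((contDiff_dd (contDiff_dd h _) _).differentiable (by simp)) x),
    dd_comm h ex e, dd_comm h ey e, dd_comm (contDiff_dd h ex) ex e,
    dd_comm (contDiff_dd h ey) ey e]

theorem integrable_mul_test {Ω : Set E2} (hΩ : IsOpen Ω) {g θ : E2 → ℝ} (hg : ContinuousOn g Ω)
    (h : Test Ω θ) : Integrable (fun x => g x * θ x) := by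
  have h1 : HasCompactSupport (fun x => g x * θ x) := h.2.1.mul_left
  have h2 : tsupport (fun x => g x * θ x) ⊆ Ω :=
    (tsupport_mul_subset_right (f := g) (g := θ)).trans h.2.2
  exact ((hg.mul h.1.continuous.continuousOn).continuous_of_tsupport_subset hΩ
    h2).integrable_of_hasCompactSupport h1

theorem continuousOn_dd {Ω : Set E2} (hΩ : IsOpen Ω) {g : E2 → ℝ} (hg : ContDiffOn ℝ 1 g Ω)
    (e : E2) : ContinuousOn (dd e g) Ω :=
  (hg.continuousOn_fderiv_of_isOpen hΩ le_rfl).clm_apply continuousOn_const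

theorem contDiffOn_dd {Ω : Set E2} (hΩ : IsOpen Ω) {g : E2 → ℝ} (hg : ContDiffOn ℝ 2 g Ω)
    (e : E2) : ContDiffOn ℝ 1 (dd e g) Ω :=
  (hg.fderiv_of_isOpen hΩ (m := 1) (by norm_num)).clm_apply contDiffOn_const

theorem ibp {Ω : Set E2} (hΩ : IsOpen Ω) {g θ : E2 → ℝ} (hg : ContDiffOn ℝ 1 g Ω)
    (h : Test Ω θ) (e : E2) : ∫ x, g x * dd e θ x = -∫ x, dd e g x * θ x := by
  refine integral_bilinear_fderiv_right_eq_neg_left_of_integrable
    (B := ContinuousLinearMap.mul ℝ ℝ) (f := g) (g := θ) (v := e)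
    (integrable_mul_test hΩ (continuousOn_dd hΩ hg e) h)
    (integrable_mul_test hΩ hg.continuousOn (h.dd e))
    (integrable_mul_test hΩ hg.continuousOn h) (fun x hx => ?_) (fun x _ => ?_)
  · exact (hg.contDiffAt (hΩ.mem_nhds (h.2.2 hx))).differentiableAt (by simp)
  · exact h.1.differentiable (by simp) x

/-- `Δ u = F` in the sense of distributions on `Ω`. -/
def Weak (Ω : Set E2) (u F : E2 → ℝ) : Prop :=
  ∀ θ, Test Ω θ → ∫ x, u x * Δ θ x = ∫ x, F x * θ x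

theorem integral_congr_test {Ω : Set E2} {g k θ : E2 → ℝ} (h : Test Ω θ) (e : EqOn g k Ω) :
    ∫ x, g x * θ x = ∫ x, k x * θ x := by
  congr 1; funext x
  by_cases hx : x ∈ tsupport θ
  · rw [e (h.2.2 hx)]
  · simp [image_eq_zero_of_notMem_tsupport hx]

theorem Weak.congr {Ω : Set E2} {u F v G : E2 → ℝ} (h : Weak Ω u F) (e1 : EqOn v u Ω)
    (e2 : EqOn G F Ω) : Weak Ω v G := fun θ hθ => by
  rw [integral_congr_test hθ.lap e1, integral_congr_test hθ e2, h θ hθ]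

theorem Weak.mono {Ω Ω' : Set E2} {u F : E2 → ℝ} (h : Weak Ω u F) (e : Ω' ⊆ Ω) : Weak Ω' u F :=
  fun θ hθ => h θ ⟨hθ.1, hθ.2.1, hθ.2.2.trans e⟩

theorem continuousOn_lap {Ω : Set E2} (hΩ : IsOpen Ω) {u : E2 → ℝ} (hu : ContDiffOn ℝ 2 u Ω) :
    ContinuousOn (Δ u) Ω :=
  ((continuousOn_dd hΩ (contDiffOn_dd hΩ hu ex) ex).add
    (continuousOn_dd hΩ (contDiffOn_dd hΩ hu ey) ey)).congr
    fun _ hx => lap_dd (hu.contDiffAt (hΩ.mem_nhds hx))

theorem weak_of_classical {Ω : Set E2} (hΩ : IsOpen Ω) {u : E2 → ℝ} (hu : ContDiffOn ℝ 2 u Ω) :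
    Weak Ω u (Δ u) := by
  intro θ hθ
  have h1 : ContDiffOn ℝ 1 u Ω := hu.of_le (by norm_num)
  have key : ∀ e, ∫ x, u x * dd e (dd e θ) x = ∫ x, dd e (dd e u) x * θ x := fun e => by
    rw [ibp hΩ h1 (hθ.dd e), ibp hΩ (contDiffOn_dd hΩ hu e) hθ, neg_neg]
  rw [lap_fun hθ.1, integral_congr_test hθ
    (k := fun x => dd ex (dd ex u) x + dd ey (dd ey u) x)
    fun _ hx => lap_dd (hu.contDiffAt (hΩ.mem_nhds hx))]
  simp only [mul_add, add_mul]
  rw [integral_add (integrable_mul_test hΩ hu.continuousOn ((hθ.dd _).dd _))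
    (integrable_mul_test hΩ hu.continuousOn ((hθ.dd _).dd _)),
    integral_add (integrable_mul_test hΩ (continuousOn_dd hΩ (contDiffOn_dd hΩ hu ex) ex) hθ)
    (integrable_mul_test hΩ (continuousOn_dd hΩ (contDiffOn_dd hΩ hu ey) ey) hθ), key, key]

theorem Weak.dd {Ω : Set E2} (hΩ : IsOpen Ω) {u F : E2 → ℝ} (h : Weak Ω u F)
    (hu : ContDiffOn ℝ 1 u Ω) (hF : ContDiffOn ℝ 1 F Ω) (e : E2) :
    Weak Ω (dd e u) (dd e F) := by
  intro θ hθ
  have h1 := ibp hΩ hu hθ.lap e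
  have h2 := ibp hΩ hF hθ e
  have h3 := h _ (hθ.dd e)
  rw [lap_dd_comm hθ.1] at h3
  linarith

/-- Mollification. -/
noncomputable def mol (ρ u : E2 → ℝ) : E2 → ℝ := ρ ⋆[ContinuousLinearMap.lsmul ℝ ℝ, volume] u

theorem mol_eq (ρ u : E2 → ℝ) (x : E2) : mol ρ u x = ∫ y, u y * ρ (x - y) := by
  unfold mol
  rw [convolution_lsmul_swap]
  simp [mul_comm]

theorem contDiff_mol {ρ u : E2 → ℝ} (h : Test univ ρ) (hu : LocallyIntegrable u) :
    ContDiff ℝ ∞ (mol ρ u) :=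
  h.2.1.contDiff_convolution_left _ h.1 hu

theorem dd_mol {ρ u : E2 → ℝ} (h : Test univ ρ) (hu : LocallyIntegrable u) (e : E2) :
    dd e (mol ρ u) = mol (dd e ρ) u := by
  funext x
  unfold mol
  rw [← convolution_flip, ← convolution_flip (f := dd e ρ)]
  have h1 : ContDiff ℝ 1 ρ := h.1.of_le (by simp)
  have := (h.2.1.hasFDerivAt_convolution_right
    (ContinuousLinearMap.lsmul ℝ ℝ : ℝ →L[ℝ] ℝ →L[ℝ] ℝ).flip hu h1 x).fderiv
  unfold dd
  rw [this, convolution_precompR_apply _ hu (h.2.1.fderiv ℝ) (h1.continuous_fderiv one_ne_zero)]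

theorem test_reflect {ρ : E2 → ℝ} (h : Test univ ρ) {x : E2} {r : ℝ} {Ω : Set E2}
    (hs : tsupport ρ ⊆ closedBall 0 r) (hΩ : closedBall x r ⊆ Ω) :
    Test Ω (fun y => ρ (x - y)) := by
  have hsub : tsupport (fun y => ρ (x - y)) ⊆ closedBall x r := by
    refine closure_minimal (fun y hy => ?_) isClosed_closedBall
    have := hs (subset_tsupport ρ hy)
    rw [mem_closedBall_iff_norm] at this ⊢
    rw [← norm_neg]; simpa using this
  exact ⟨h.1.comp (contDiff_const.sub contDiff_id),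
    (isCompact_closedBall x r).of_isClosed_subset (isClosed_tsupport _) hsub, hsub.trans hΩ⟩

theorem dd_reflect {ρ : E2 → ℝ} (h : ContDiff ℝ ∞ ρ) (x e : E2) :
    dd e (fun y => ρ (x - y)) = fun y => -dd e ρ (x - y) := by
  funext y
  have h1 := (h.differentiable (by simp) (x - y)).hasFDerivAt.comp y
    ((hasFDerivAt_id y).const_sub x)
  unfold dd
  rw [show (fun y => ρ (x - y)) = ρ ∘ HSub.hSub x from rfl, h1.fderiv]
  simp

theorem dd_neg (g : E2 → ℝ) (e : E2) : dd e (fun y => -g y) = fun y => -dd e g y := by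
  funext y; unfold dd; rw [fderiv_fun_neg]; simp

theorem dd_dd_reflect {ρ : E2 → ℝ} (h : ContDiff ℝ ∞ ρ) (x e : E2) :
    dd e (dd e (fun y => ρ (x - y))) = fun y => dd e (dd e ρ) (x - y) := by
  rw [dd_reflect h, dd_neg, dd_reflect (contDiff_dd h e)]
  simp

theorem integrable_mul_reflect {ρ u : E2 → ℝ} (h : Test univ ρ) (hu : LocallyIntegrable u)
    (x : E2) : Integrable fun y => u y * ρ (x - y) := by
  obtain ⟨r, hr⟩ := h.2.1.isCompact.isBounded.subset_closedBall 0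
  have h1 := test_reflect h (x := x) hr (subset_univ _)
  exact hu.integrable_smul_right_of_hasCompactSupport h1.1.continuous h1.2.1

theorem lap_mol {ρ u : E2 → ℝ} (h : Test univ ρ) (hu : LocallyIntegrable u) (x : E2) :
    Δ (mol ρ u) x = ∫ y, u y * Δ (fun y => ρ (x - y)) y := by
  have h0 : ContDiff ℝ ∞ fun y => ρ (x - y) := h.1.comp (contDiff_const.sub contDiff_id)
  rw [lap_fun (contDiff_mol h hu), lap_fun h0]
  simp only [dd_dd_reflect h.1, mul_add]
  rw [dd_mol h hu, dd_mol h hu, dd_mol (h.dd _) hu, dd_mol (h.dd _) hu, mol_eq, mol_eq,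
    integral_add (integrable_mul_reflect ((h.dd _).dd _) hu x)
      (integrable_mul_reflect ((h.dd _).dd _) hu x)]

/-- A bump of outer radius `δ`. -/
noncomputable def bmp (δ : ℝ) (hδ : 0 < δ) : ContDiffBump (0 : E2) :=
  ⟨δ / 2, δ, half_pos hδ, half_lt_self hδ⟩

theorem test_bmp (δ : ℝ) (hδ : 0 < δ) : Test univ ((bmp δ hδ).normed volume) :=
  ⟨(bmp δ hδ).contDiff_normed, (bmp δ hδ).hasCompactSupport_normed, subset_univ _⟩

theorem tsupport_bmp (δ : ℝ) (hδ : 0 < δ) :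
    tsupport ((bmp δ hδ).normed volume) ⊆ closedBall 0 δ := by
  rw [ContDiffBump.tsupport_normed_eq]; rfl

theorem mol_approx {u : E2 → ℝ} (hu : LocallyIntegrable u) {p : E2} {R s : ℝ} (hs : 0 < s)
    (hc : ContinuousOn u (closedBall p (R + s))) {ε : ℝ} (hε : 0 < ε) :
    ∃ δ0 > 0, ∀ δ (hδ : 0 < δ), δ ≤ δ0 → ∀ x ∈ closedBall p R,
      |mol ((bmp δ hδ).normed volume) u x - u x| ≤ ε := by
  obtain ⟨δ1, h1, h2⟩ := Metric.uniformContinuousOn_iff.1
    ((isCompact_closedBall p (R + s)).uniformContinuousOn_of_continuous hc) ε hε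
  refine ⟨min δ1 s, lt_min h1 hs, fun δ hδ hle x hx => ?_⟩
  refine (bmp δ hδ).dist_normed_convolution_le hu.aestronglyMeasurable fun y hy => ?_
  have h3 : dist y x < δ := hy
  have h4 : dist x p ≤ R := hx
  refine (h2 y ?_ x ?_ (h3.trans_le (hle.trans (min_le_left _ _)))).le
  · have := dist_triangle y x p
    have := hle.trans (min_le_right _ _)
    simp only [mem_closedBall]; linarith
  · simp only [mem_closedBall]; linarith

end Pool.Agent.Lib.MP_6e1ed0_an
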